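import Mathlib
import Pool.Agent.N15.RC.Fin

/-!
Curvature of the projection of a slice disc to three-space: definitions, algebra.
-/

set_option autoImplicit false

namespace Pool.Agent.Run7.h836.PC

open scoped ContDiff RealInnerProductSpace ENNReal Topology
open MeasureTheory Set Metric Filter
open Pool.Agent.Y503.RB Pool.Agent.N503.ML Pool.Agent.N15.RC

/-- Euclidean three-space. -/
abbrev E3 := EuclideanSpace ℝ (Fin 3)

/-- Vector product in three-space. -/
noncomputable def cross (a b : E3) : E3 :=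
  !₂[a 1 * b 2 - a 2 * b 1, a 2 * b 0 - a 0 * b 2, a 0 * b 1 - a 1 * b 0]

/-- First derivative of a map to three-space in the direction `v` at the point `z`. -/
noncomputable def p1 (f : ℂ → E3) (v z : ℂ) : E3 := fderiv ℝ f z v

/-- Second derivative of a map to three-space in the directions `u`, `v` at the point `z`. -/
noncomputable def p2 (f : ℂ → E3) (u v z : ℂ) : E3 := fderiv ℝ (fun w => fderiv ℝ f w v) z u

/-- The normal vector `f_x × f_y` of a surface in three-space. -/
noncomputable def nrm (f : ℂ → E3) (z : ℂ) : E3 := cross (p1 f 1 z) (p1 f Complex.I z)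

/-- Determinant of the Hessian matrix `⟪w, ∂_i ∂_j f⟫`. -/
noncomputable def hdet (f : ℂ → E3) (w : E3) (z : ℂ) : ℝ :=
  ⟪w, p2 f 1 1 z⟫ * ⟪w, p2 f Complex.I Complex.I z⟫ - ⟪w, p2 f 1 Complex.I z⟫ ^ 2

/-- The coordinates of three-space as a complex number and a real number. -/
noncomputable def zc3 (x : E3) : ℂ := ⟨x 0, x 1⟩

/-- The cone over the (unnormalised) Gauss map. -/
noncomputable def cone (f : ℂ → E3) (x : E3) : E3 := x 2 • nrm f (zc3 x)

theorem cross_zero (a b : E3) : cross a b 0 = a 1 * b 2 - a 2 * b 1 := rfl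
theorem cross_one (a b : E3) : cross a b 1 = a 2 * b 0 - a 0 * b 2 := rfl
theorem cross_two (a b : E3) : cross a b 2 = a 0 * b 1 - a 1 * b 0 := rfl

theorem inner3 (a b : E3) : ⟪a, b⟫ = a 0 * b 0 + a 1 * b 1 + a 2 * b 2 := by
  rw [PiLp.inner_apply, Fin.sum_univ_three]
  simp only [RCLike.inner_apply, conj_trivial]
  ring

theorem cross_orth_left (a b : E3) : ⟪cross a b, a⟫ = 0 := by
  rw [inner3, cross_zero, cross_one, cross_two]
  ring

theorem cross_orth_right (a b : E3) : ⟪cross a b, b⟫ = 0 := by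
  rw [inner3, cross_zero, cross_one, cross_two]
  ring

/-- Lagrange identity. -/
theorem lagrange (a b c d : E3) :
    ⟪cross a b, cross c d⟫ = ⟪a, c⟫ * ⟪b, d⟫ - ⟪a, d⟫ * ⟪b, c⟫ := by
  simp only [inner3, cross_zero, cross_one, cross_two]
  ring

theorem norm_cross_sq (a b : E3) :
    ‖cross a b‖ ^ 2 = ⟪a, a⟫ * ⟪b, b⟫ - ⟪a, b⟫ ^ 2 := by
  rw [← real_inner_self_eq_norm_sq, lagrange, real_inner_comm a b]
  ring

/-- A vector orthogonal to `a` and `b` is a multiple of `a × b`. -/
theorem eq_smul_cross {a b w : E3} (h : cross a b ≠ 0) (ha : ⟪w, a⟫ = 0) (hb : ⟪w, b⟫ = 0) :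
    w = (⟪w, cross a b⟫ / ‖cross a b‖ ^ 2) • cross a b := by
  have hn : 0 < ‖cross a b‖ ^ 2 := by positivity
  -- `w × (a × b) = 0`
  have h1 : cross w (cross a b) = 0 := by
    rw [inner3] at ha hb
    ext i
    fin_cases i
    · simp only [Fin.zero_eta, Fin.isValue, cross_zero, cross_one, cross_two, PiLp.zero_apply]
      linear_combination a 0 * hb - b 0 * ha
    · simp only [Fin.mk_one, Fin.isValue, cross_zero, cross_one, cross_two, PiLp.zero_apply]
      linear_combination a 1 * hb - b 1 * ha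
    · simp only [Fin.reduceFinMk, Fin.isValue, cross_zero, cross_one, cross_two, PiLp.zero_apply]
      linear_combination a 2 * hb - b 2 * ha
  have h2 : ‖w - (⟪w, cross a b⟫ / ‖cross a b‖ ^ 2) • cross a b‖ ^ 2 = 0 := by
    have h3 : ⟪w, w⟫ * ‖cross a b‖ ^ 2 = ⟪w, cross a b⟫ ^ 2 := by
      have := norm_cross_sq w (cross a b)
      rw [h1, norm_zero, real_inner_self_eq_norm_sq (cross a b)] at this
      linarith
    rw [norm_sub_sq_real, norm_smul, inner_smul_right, mul_pow, ← real_inner_self_eq_norm_sq w,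
      Real.norm_eq_abs, sq_abs]
    field_simp
    linear_combination h3
  exact sub_eq_zero.1 (norm_eq_zero.1 (pow_eq_zero_iff (by norm_num) |>.1 h2))

/-- Matrix with the given columns. -/
noncomputable def cols3 (a b c : E3) : Matrix (Fin 3) (Fin 3) ℝ := fun i j => ![a, b, c] j i

theorem det3_eq (A : E3 →L[ℝ] E3) : A.det = (cols3 (A (EuclideanSpace.single 0 1))
    (A (EuclideanSpace.single 1 1)) (A (EuclideanSpace.single 2 1))).det := by
  have h1 : A.det = LinearMap.det (A : E3 →ₗ[ℝ] E3) := rfl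
  rw [h1, ← LinearMap.det_toMatrix (EuclideanSpace.basisFun (Fin 3) ℝ).toBasis]
  congr 1
  ext i j
  rw [LinearMap.toMatrix_apply]
  fin_cases j <;> simp [cols3]

theorem det3_cols (a b c : E3) : (cols3 a b c).det = ⟪cross a b, c⟫ := by
  rw [Matrix.det_fin_three, inner3, cross_zero, cross_one, cross_two]
  have h0 : ∀ i, cols3 a b c i 0 = a i := fun i => rfl
  have h1 : ∀ i, cols3 a b c i 1 = b i := fun i => rfl
  have h2 : ∀ i, cols3 a b c i 2 = c i := fun i => rfl
  simp only [h0, h1, h2]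
  ring

end Pool.Agent.Run7.h836.PC
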