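import Mathlib
import Pool.Agent.Run7.h836.PC.Def

/-!
Calculus of surfaces in three-space; the Jacobian of the cone over the Gauss map.
-/

set_option autoImplicit false

namespace Pool.Agent.Run7.h836.PC

open scoped ContDiff RealInnerProductSpace ENNReal Topology
open MeasureTheory Set Metric Filter
open Pool.Agent.Y503.RB Pool.Agent.N503.ML Pool.Agent.N15.RC

variable {f : ℂ → E3} {W : Set ℂ}

theorem cd_p1 (hW : IsOpen W) (hf : ContDiffOn ℝ ∞ f W) (v : ℂ) :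
    ContDiffOn ℝ ∞ (fun z => p1 f v z) W := by
  have h1 : ContDiffOn ℝ ∞ (fun z => fderiv ℝ f z) W := hf.fderiv_of_isOpen hW (by simp)
  exact h1.clm_apply contDiffOn_const

theorem cont_p1 (hW : IsOpen W) (hf : ContDiffOn ℝ ∞ f W) (v : ℂ) :
    ContinuousOn (fun z => p1 f v z) W := (cd_p1 hW hf v).continuousOn

theorem cont_p2 (hW : IsOpen W) (hf : ContDiffOn ℝ ∞ f W) (u v : ℂ) :
    ContinuousOn (fun z => p2 f u v z) W := by
  have h3 : ContinuousOn (fun z => fderiv ℝ (fun w => p1 f v w) z) W :=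
    (cd_p1 hW hf v).continuousOn_fderiv_of_isOpen hW (by simp)
  exact h3.clm_apply continuousOn_const

theorem cd_nrm (hW : IsOpen W) (hf : ContDiffOn ℝ ∞ f W) :
    ContDiffOn ℝ ∞ (nrm f) W := by
  have h1 := contDiffOn_euclidean.1 (cd_p1 hW hf 1)
  have h2 := contDiffOn_euclidean.1 (cd_p1 hW hf Complex.I)
  rw [contDiffOn_euclidean]
  intro i
  fin_cases i
  · exact ((h1 1).mul (h2 2)).sub ((h1 2).mul (h2 1))
  · exact ((h1 2).mul (h2 0)).sub ((h1 0).mul (h2 2))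
  · exact ((h1 0).mul (h2 1)).sub ((h1 1).mul (h2 0))

theorem p2_eq {z : ℂ} (h : ContDiffAt ℝ ∞ f z) (u v : ℂ) :
    p2 f u v z = fderiv ℝ (fderiv ℝ f) z u v := by
  have h1 := Pool.Agent.Y640.RB.diffFderiv h
  have h3 : HasFDerivAt (fun w => fderiv ℝ f w v)
      ((fderiv ℝ (fderiv ℝ f) z).flip v) z := by
    have h5 := h1.hasFDerivAt.clm_apply (hasFDerivAt_const v z)
    have h6 : (fderiv ℝ f z ∘SL (0 : ℂ →L[ℝ] ℂ) + (fderiv ℝ (fderiv ℝ f) z).flip v) =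
        (fderiv ℝ (fderiv ℝ f) z).flip v := by simp
    exact h6 ▸ h5
  unfold p2
  rw [h3.fderiv]
  rfl

theorem p2_symm {z : ℂ} (h : ContDiffAt ℝ ∞ f z) (u v : ℂ) : p2 f u v z = p2 f v u z := by
  rw [p2_eq h, p2_eq h]
  have h2 : IsSymmSndFDerivAt ℝ f z := h.isSymmSndFDerivAt (by
    simp only [minSmoothness_of_isRCLikeNormedField]
    have h7 : (2 : ℕ∞ω) = ((2 : ℕ∞) : ℕ∞ω) := by norm_num
    rw [h7]
    exact_mod_cast (le_top : (2 : ℕ∞) ≤ ⊤))
  exact h2 u v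

theorem p1_lin (f : ℂ → E3) (v z : ℂ) :
    p1 f v z = v.re • p1 f 1 z + v.im • p1 f Complex.I z := by
  have h : v = v.re • (1 : ℂ) + v.im • Complex.I := by
    apply Complex.ext <;> simp
  unfold p1
  conv_lhs => rw [h]
  rw [map_add, map_smul, map_smul]

theorem nrm_orth (f : ℂ → E3) (v z : ℂ) : ⟪nrm f z, p1 f v z⟫ = 0 := by
  rw [p1_lin, inner_add_right, real_inner_smul_right, real_inner_smul_right]
  unfold nrm
  rw [cross_orth_left, cross_orth_right]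
  ring

theorem dnrm (hW : IsOpen W) (hf : ContDiffOn ℝ ∞ f W) {z : ℂ} (hz : z ∈ W) (u v : ℂ) :
    ⟪fderiv ℝ (nrm f) z u, p1 f v z⟫ = -⟪nrm f z, p2 f u v z⟫ := by
  have hn : DifferentiableAt ℝ (nrm f) z :=
    ((cd_nrm hW hf).contDiffAt (hW.mem_nhds hz)).differentiableAt (by simp)
  have hp : DifferentiableAt ℝ (fun w => p1 f v w) z :=
    ((cd_p1 hW hf v).contDiffAt (hW.mem_nhds hz)).differentiableAt (by simp)
  have h1 : HasFDerivAt (fun w => ⟪nrm f w, p1 f v w⟫) _ z := hn.hasFDerivAt.inner ℝ hp.hasFDerivAt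
  have h2 : (fun w => ⟪nrm f w, p1 f v w⟫) = fun _ => (0 : ℝ) := by
    funext w
    exact nrm_orth f v w
  rw [h2] at h1
  have h3 := h1.unique (hasFDerivAt_const (0 : ℝ) z)
  have h4 := congrArg (fun L : ℂ →L[ℝ] ℝ => L u) h3
  simp only [zero_apply] at h4
  have h5 : ⟪nrm f z, p2 f u v z⟫ + ⟪fderiv ℝ (nrm f) z u, p1 f v z⟫ = 0 := by
    have : (((innerSL ℝ).bilinearComp (ContinuousLinearMap.id ℝ E3) (ContinuousLinearMap.id ℝ E3))
      (nrm f z) (fderiv ℝ (fun w => p1 f v w) z u) : ℝ) = ⟪nrm f z, p2 f u v z⟫ := rfl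
    rw [← h4]
    simp [fderivInnerCLM_apply, p2, p1]
  linarith

/-- The coordinates `(x₀, x₁)` as a linear map. -/
noncomputable def zL : E3 →L[ℝ] ℂ :=
  ((Complex.equivRealProdCLM.symm : (ℝ × ℝ) ≃L[ℝ] ℂ) : (ℝ × ℝ) →L[ℝ] ℂ).comp
      ((EuclideanSpace.proj (0 : Fin 3) : E3 →L[ℝ] ℝ).prod
        (EuclideanSpace.proj (1 : Fin 3) : E3 →L[ℝ] ℝ))

theorem zL_apply (x : E3) : zL x = zc3 x := rfl

theorem zL0 : zL (EuclideanSpace.single 0 1) = 1 := by
  rw [zL_apply]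
  apply Complex.ext <;> simp [zc3]

theorem zL1 : zL (EuclideanSpace.single 1 1) = Complex.I := by
  rw [zL_apply]
  apply Complex.ext <;> simp [zc3]

theorem zL2 : zL (EuclideanSpace.single 2 1) = 0 := by
  rw [zL_apply]
  apply Complex.ext <;> simp [zc3]

theorem cont_zc3 : Continuous zc3 := zL.continuous

theorem cone_smooth (hW : IsOpen W) (hf : ContDiffOn ℝ ∞ f W) {x : E3} (hx : zc3 x ∈ W) :
    ContDiffAt ℝ ∞ (cone f) x := by
  have h1 : ContDiffAt ℝ ∞ (nrm f) (zL x) := (cd_nrm hW hf).contDiffAt (hW.mem_nhds hx)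
  have h2 : ContDiffAt ℝ ∞ (fun x => nrm f (zL x)) x := h1.comp x zL.contDiff.contDiffAt
  have h3 : ContDiffAt ℝ ∞ (fun x : E3 => (EuclideanSpace.proj (2 : Fin 3) : E3 →L[ℝ] ℝ) x) x :=
    (EuclideanSpace.proj (2 : Fin 3) : E3 →L[ℝ] ℝ).contDiff.contDiffAt
  exact h3.smul h2

/-- Jacobian determinant of the cone over the Gauss map. -/
theorem cone_det (hW : IsOpen W) (hf : ContDiffOn ℝ ∞ f W) {x : E3} (hx : zc3 x ∈ W) :
    (fderiv ℝ (cone f) x).det = x 2 ^ 2 * hdet f (nrm f (zc3 x)) (zc3 x) := by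
  have hn : DifferentiableAt ℝ (nrm f) (zL x) :=
    ((cd_nrm hW hf).contDiffAt (hW.mem_nhds hx)).differentiableAt (by simp)
  have hder := ((EuclideanSpace.proj (2 : Fin 3) : E3 →L[ℝ] ℝ).hasFDerivAt (x := x)).smul
    (hn.hasFDerivAt.comp x zL.hasFDerivAt)
  have hcm : fderiv ℝ (cone f) x = _ := hder.fderiv
  have hval : ∀ v, fderiv ℝ (cone f) x v =
      x 2 • fderiv ℝ (nrm f) (zc3 x) (zL v) + v 2 • nrm f (zc3 x) := by
    intro v
    rw [hcm]
    rfl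
  rw [det3_eq, hval, hval, hval, zL0, zL1, zL2, det3_cols]
  have e0 : (EuclideanSpace.single (0 : Fin 3) (1 : ℝ)) 2 = 0 := by simp
  have e1 : (EuclideanSpace.single (1 : Fin 3) (1 : ℝ)) 2 = 0 := by simp
  have e2 : (EuclideanSpace.single (2 : Fin 3) (1 : ℝ)) 2 = 1 := by simp
  rw [e0, e1, e2, zero_smul, add_zero, add_zero, map_zero, smul_zero, zero_add, one_smul]
  have hn2 : nrm f (zc3 x) = cross (p1 f 1 (zc3 x)) (p1 f Complex.I (zc3 x)) := rfl
  have hs : ∀ (r : ℝ) (a b : E3), cross (r • a) (r • b) = r ^ 2 • cross a b := by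
    intro r a b
    ext i
    fin_cases i
    · show (r * a 1) * (r * b 2) - (r * a 2) * (r * b 1) = r ^ 2 * (a 1 * b 2 - a 2 * b 1)
      ring
    · show (r * a 2) * (r * b 0) - (r * a 0) * (r * b 2) = r ^ 2 * (a 2 * b 0 - a 0 * b 2)
      ring
    · show (r * a 0) * (r * b 1) - (r * a 1) * (r * b 0) = r ^ 2 * (a 0 * b 1 - a 1 * b 0)
      ring
  rw [hs, real_inner_smul_left]
  congr 1
  conv_lhs => rw [hn2]
  rw [lagrange, dnrm hW hf hx, dnrm hW hf hx, dnrm hW hf hx, dnrm hW hf hx,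
    p2_symm (hf.contDiffAt (hW.mem_nhds hx)) Complex.I 1]
  unfold hdet
  ring

end Pool.Agent.Run7.h836.PC
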