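import Mathlib
import Pool.Agent.Run7.h836.PC.Calc

/-!
Area formula for the Gauss map of a surface in three-space, on the part of positive curvature.
-/

set_option autoImplicit false

namespace Pool.Agent.Run7.h836.PC

open scoped ContDiff RealInnerProductSpace ENNReal Topology
open MeasureTheory Set Metric Filter
open Pool.Agent.Y503.RB Pool.Agent.N503.ML Pool.Agent.N15.RC

/-- Decomposition into countably many pieces on which a local diffeomorphism is injective (after
`Pool.Agent.N503.ML.pieces`). -/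
theorem pieces3 (F : E3 → E3) (R : Set E3) (hR : IsOpen R) (hF : ContDiffOn ℝ ∞ F R)
    (hd : ∀ x ∈ R, (fderiv ℝ F x).det ≠ 0) (A : Set E3) (hA : MeasurableSet A) (hAR : A ⊆ R) :
    ∃ D : ℕ → Set E3, (∀ i, MeasurableSet (D i) ∧ InjOn F (D i) ∧
      MeasurableSet (F '' D i) ∧ volume (F '' D i) =
        ∫⁻ x in D i, ENNReal.ofReal |(fderiv ℝ F x).det|) ∧
      Pairwise (Function.onFun Disjoint D) ∧ ⋃ i, D i = A := by
  classical
  have hloc : ∀ x ∈ R, ∃ W : Set E3, IsOpen W ∧ x ∈ W ∧ W ⊆ R ∧ InjOn F W := by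
    intro x hx
    have h1 : ContDiffAt ℝ ∞ F x := hF.contDiffAt (hR.mem_nhds hx)
    have h2 : ContDiffAt ℝ 1 F x := h1.of_le (by exact_mod_cast le_top)
    have h3 : HasStrictFDerivAt F (fderiv ℝ F x) x := h2.hasStrictFDerivAt (by norm_num)
    let e : E3 ≃L[ℝ] E3 := (fderiv ℝ F x).toContinuousLinearEquivOfDetNeZero (hd x hx)
    have he : (e : E3 →L[ℝ] E3) = fderiv ℝ F x := by
      ext1 v
      rfl
    have h5 : HasStrictFDerivAt F (e : E3 →L[ℝ] E3) x := by rw [he]; exact h3
    let p := h5.toOpenPartialHomeomorph F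
    refine ⟨p.source ∩ R, p.open_source.inter hR, ⟨h5.mem_toOpenPartialHomeomorph_source, hx⟩,
      inter_subset_right, ?_⟩
    have h6 : InjOn p p.source := p.injOn
    exact fun a ha b hb hab => h6 ha.1 hb.1 hab
  choose! W hWo hxW hWR hWi using hloc
  obtain ⟨t, htR, htc, htU⟩ := TopologicalSpace.countable_cover_nhdsWithin
    (f := W) (s := R) (fun x hx => mem_nhdsWithin_of_mem_nhds ((hWo x hx).mem_nhds (hxW x hx)))
  rcases t.eq_empty_or_nonempty with he | hne
  · have hRe : R = ∅ := by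
      rw [he] at htU
      simpa using htU
    have hAe : A = ∅ := by
      rw [hRe] at hAR
      exact subset_empty_iff.mp hAR
    refine ⟨fun _ => ∅, fun i => ⟨MeasurableSet.empty, injOn_empty _, by simp, by simp⟩,
      fun i j _ => disjoint_bot_left, by simp [hAe]⟩
  obtain ⟨f, hf⟩ := htc.exists_eq_range hne
  let O : ℕ → Set E3 := fun i => W (f i)
  have hfR : ∀ i, f i ∈ R := fun i => htR (by rw [hf]; exact mem_range_self i)
  have hOo : ∀ i, IsOpen (O i) := fun i => hWo _ (hfR i)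
  have hOi : ∀ i, InjOn F (O i) := fun i => hWi _ (hfR i)
  have hOR : ∀ i, O i ⊆ R := fun i => hWR _ (hfR i)
  have hcov : R ⊆ ⋃ i, O i := by
    intro x hx
    obtain ⟨y, hy, hxy⟩ := mem_iUnion₂.mp (htU hx)
    rw [hf] at hy
    obtain ⟨i, rfl⟩ := hy
    exact mem_iUnion.mpr ⟨i, hxy⟩
  let D : ℕ → Set E3 := fun i => A ∩ disjointed O i
  have hDm : ∀ i, MeasurableSet (D i) := fun i =>
    hA.inter (MeasurableSet.disjointed (fun j => (hOo j).measurableSet) i)
  have hDO : ∀ i, D i ⊆ O i := fun i => inter_subset_right.trans (disjointed_subset O i)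
  have hDd : Pairwise (Function.onFun Disjoint D) := fun i j hij =>
    (disjoint_disjointed O hij).mono inter_subset_right inter_subset_right
  have hDU : ⋃ i, D i = A := by
    rw [← inter_iUnion, iUnion_disjointed]
    exact inter_eq_left.mpr (hAR.trans hcov)
  have hFD : ∀ i, ∀ x ∈ D i, HasFDerivWithinAt F (fderiv ℝ F x) (D i) x := by
    intro i x hx
    have h1 : ContDiffAt ℝ ∞ F x := hF.contDiffAt (hR.mem_nhds (hOR i (hDO i hx)))
    exact (h1.differentiableAt (by simp)).hasFDerivAt.hasFDerivWithinAt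
  have hFm : ∀ i, MeasurableSet (F '' D i) := fun i =>
    (hDm i).image_of_continuousOn_injOn
      (hF.continuousOn.mono ((hDO i).trans (hOR i))) ((hOi i).mono (hDO i))
  exact ⟨D, fun i => ⟨hDm i, (hOi i).mono (hDO i), hFm i,
    (lintegral_abs_det_fderiv_eq_addHaar_image volume (hDm i) (hFD i)
      ((hOi i).mono (hDO i))).symm⟩, hDd, hDU⟩

/-! ### Coordinates -/

/-- The coordinates. -/
noncomputable def coE3 : E3 ≃ᵐ ℝ × ℂ :=
  ((MeasurableEquiv.toLp 2 (Fin 3 → ℝ)).symm.trans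
    (MeasurableEquiv.piFinSuccAbove (fun _ => ℝ) (Fin.last 2))).trans
    (MeasurableEquiv.prodCongr (MeasurableEquiv.refl ℝ) Complex.measurableEquivPi.symm)

theorem coE3_apply (x : E3) : coE3 x = (x 2, zc3 x) := by
  have h1 : coE3 x = (x 2, Complex.measurableEquivPi.symm ![x 0, x 1]) := by
    unfold coE3
    simp only [MeasurableEquiv.trans_apply]
    refine Prod.ext rfl ?_
    change Complex.measurableEquivPi.symm _ = Complex.measurableEquivPi.symm _
    congr 1
    funext i
    fin_cases i <;> rfl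
  rw [h1, Complex.measurableEquivPi_symm_apply]
  refine Prod.ext rfl ?_
  simp [zc3, Complex.ext_iff]

theorem coE3_mp : MeasurePreserving coE3 (volume : Measure E3) volume := by
  have h0 : MeasurePreserving (MeasurableEquiv.toLp 2 (Fin 3 → ℝ)).symm :=
    EuclideanSpace.volume_preserving_symm_measurableEquiv_toLp (Fin 3)
  have h2 := volume_preserving_piFinSuccAbove (fun _ : Fin 3 => ℝ) (Fin.last 2)
  have h3 := Complex.volume_preserving_equiv_pi.symm
  have h4 : MeasurePreserving (Prod.map (id : ℝ → ℝ) Complex.measurableEquivPi.symm)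
      (volume.prod volume) (volume.prod volume) := (MeasurePreserving.id volume).prod h3
  exact h4.comp (h2.comp h0)

/-- The point with given coordinates. -/
noncomputable def mk3 (z : ℂ) (t : ℝ) : E3 := !₂[z.re, z.im, t]

theorem mk3_zc (z : ℂ) (t : ℝ) : zc3 (mk3 z t) = z := by
  apply Complex.ext <;> rfl

theorem mk3_two (z : ℂ) (t : ℝ) : mk3 z t 2 = t := rfl

theorem ext_co {x x' : E3} (h1 : zc3 x = zc3 x') (h2 : x 2 = x' 2) : x = x' := by
  have hre := congrArg Complex.re h1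
  have him := congrArg Complex.im h1
  ext i
  fin_cases i
  · exact hre
  · exact him
  · exact h2

/-! ### The region of positive curvature -/

/-- `z` is a critical point of `⟪w, f⟫`. -/
def Crit3 (f : ℂ → E3) (w : E3) (z : ℂ) : Prop := ∀ v : ℂ, ⟪w, p1 f v z⟫ = 0

/-- The Hessian of `⟪w, f⟫` at `z` is positive definite. -/
def Pos3 (f : ℂ → E3) (w : E3) (z : ℂ) : Prop := 0 < ⟪w, p2 f 1 1 z⟫ ∧ 0 < hdet f w z

theorem hdet_smul (f : ℂ → E3) (t : ℝ) (w : E3) (z : ℂ) :
    hdet f (t • w) z = t ^ 2 * hdet f w z := by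
  unfold hdet
  rw [real_inner_smul_left, real_inner_smul_left, real_inner_smul_left]
  ring

/-- The region over which the cone over the Gauss map is studied. -/
def reg3 (f : ℂ → E3) : Set E3 :=
  {x | zc3 x ∈ ball (0 : ℂ) 1 ∧ 0 < x 2 * ⟪nrm f (zc3 x), p2 f 1 1 (zc3 x)⟫ ∧
    0 < hdet f (nrm f (zc3 x)) (zc3 x) ∧ |x 2| * ‖nrm f (zc3 x)‖ < 1}

variable {f : ℂ → E3} {W : Set ℂ}

theorem cont_hn (hW : IsOpen W) (hf : ContDiffOn ℝ ∞ f W) :
    ContinuousOn (fun z => hdet f (nrm f z) z) W := by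
  have hn : ContinuousOn (nrm f) W := (cd_nrm hW hf).continuousOn
  unfold hdet
  exact ((hn.inner (cont_p2 hW hf 1 1)).mul (hn.inner (cont_p2 hW hf Complex.I Complex.I))).sub
    ((hn.inner (cont_p2 hW hf 1 Complex.I)).pow 2)

theorem isOpen_reg3 (hW : IsOpen W) (hsub : closedBall (0 : ℂ) 1 ⊆ W) (hf : ContDiffOn ℝ ∞ f W) :
    IsOpen (reg3 f) := by
  have hn : ContinuousOn (nrm f) W := (cd_nrm hW hf).continuousOn
  have hB : IsOpen (zc3 ⁻¹' ball (0 : ℂ) 1) := isOpen_ball.preimage cont_zc3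
  have hmaps : MapsTo zc3 (zc3 ⁻¹' ball (0 : ℂ) 1) W := fun x hx =>
    hsub (ball_subset_closedBall hx)
  have c2 : Continuous fun x : E3 => x 2 := by fun_prop
  have k1 : ContinuousOn (fun x : E3 => x 2 * ⟪nrm f (zc3 x), p2 f 1 1 (zc3 x)⟫)
      (zc3 ⁻¹' ball (0 : ℂ) 1) :=
    c2.continuousOn.mul ((hn.inner (cont_p2 hW hf 1 1)).comp cont_zc3.continuousOn hmaps)
  have k2 : ContinuousOn (fun x : E3 => hdet f (nrm f (zc3 x)) (zc3 x))
      (zc3 ⁻¹' ball (0 : ℂ) 1) := (cont_hn hW hf).comp cont_zc3.continuousOn hmaps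
  have k3 : ContinuousOn (fun x : E3 => |x 2| * ‖nrm f (zc3 x)‖)
      (zc3 ⁻¹' ball (0 : ℂ) 1) :=
    c2.abs.continuousOn.mul (hn.norm.comp cont_zc3.continuousOn hmaps)
  have e : reg3 f = (((zc3 ⁻¹' ball (0 : ℂ) 1) ∩
      (fun x : E3 => x 2 * ⟪nrm f (zc3 x), p2 f 1 1 (zc3 x)⟫) ⁻¹' Ioi 0) ∩
      ((zc3 ⁻¹' ball (0 : ℂ) 1) ∩ (fun x : E3 => hdet f (nrm f (zc3 x)) (zc3 x)) ⁻¹' Ioi 0)) ∩
      ((zc3 ⁻¹' ball (0 : ℂ) 1) ∩ (fun x : E3 => |x 2| * ‖nrm f (zc3 x)‖) ⁻¹' Iio 1) := by
    ext x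
    simp only [reg3, mem_ofPred_eq, mem_inter_iff, mem_preimage, mem_Ioi, mem_Iio]
    tauto
  rw [e]
  exact ((k1.isOpen_inter_preimage hB isOpen_Ioi).inter
    (k2.isOpen_inter_preimage hB isOpen_Ioi)).inter (k3.isOpen_inter_preimage hB isOpen_Iio)

theorem nrm_ne {z : ℂ} (h : 0 < hdet f (nrm f z) z) : nrm f z ≠ 0 := by
  intro h0
  rw [h0] at h
  unfold hdet at h
  simp at h

/-- The Gauss curvature of a surface in three-space (zero where the surface is not immersed). -/
noncomputable def gaussK (f : ℂ → E3) (z : ℂ) : ℝ := hdet f (nrm f z) z / ‖nrm f z‖ ^ 4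

/-- Total positive curvature: the integral of the positive part of the Gauss curvature. -/
noncomputable def posCurv (f : ℂ → E3) : ℝ≥0∞ :=
  ∫⁻ z in ball (0 : ℂ) 1, ENNReal.ofReal (gaussK f z * ‖nrm f z‖)

theorem dens_eq {z : ℂ} (h : nrm f z ≠ 0) :
    gaussK f z * ‖nrm f z‖ = hdet f (nrm f z) z / ‖nrm f z‖ ^ 3 := by
  have : ‖nrm f z‖ ≠ 0 := norm_ne_zero_iff.2 h
  unfold gaussK
  field_simp

theorem int_sq (r : ℝ) (hr : 0 < r) :
    ∫⁻ t in Ioo (0 : ℝ) r, ENNReal.ofReal (t ^ 2) = ENNReal.ofReal (r ^ 3 / 3) := by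
  rw [← ofReal_integral_eq_lintegral_ofReal]
  · congr 1
    rw [← integral_Ioc_eq_integral_Ioo, ← intervalIntegral.integral_of_le hr.le, integral_pow]
    norm_num
  · have h : IntegrableOn (fun r : ℝ => r ^ 2) (Icc 0 r) :=
      (continuous_pow 2).continuousOn.integrableOn_Icc
    exact h.mono_set Ioo_subset_Icc_self
  · rw [Filter.EventuallyLE, ae_restrict_iff' measurableSet_Ioo]
    exact Filter.Eventually.of_forall fun r hr => pow_nonneg hr.1.le 2

theorem int_sq' (r : ℝ) (hr : 0 < r) :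
    ∫⁻ t in Ioo (-r) (0 : ℝ), ENNReal.ofReal (t ^ 2) = ENNReal.ofReal (r ^ 3 / 3) := by
  rw [← ofReal_integral_eq_lintegral_ofReal]
  · congr 1
    rw [← integral_Ioc_eq_integral_Ioo, ← intervalIntegral.integral_of_le (by linarith),
      integral_pow]
    norm_num
    ring
  · have h : IntegrableOn (fun r : ℝ => r ^ 2) (Icc (-r) 0) :=
      (continuous_pow 2).continuousOn.integrableOn_Icc
    exact h.mono_set Ioo_subset_Icc_self
  · rw [Filter.EventuallyLE, ae_restrict_iff' measurableSet_Ioo]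
    exact Filter.Eventually.of_forall fun r hr => sq_nonneg r

/-- The Jacobian integral. -/
theorem reg3_int (hW : IsOpen W) (hsub : closedBall (0 : ℂ) 1 ⊆ W) (hf : ContDiffOn ℝ ∞ f W) :
    ∫⁻ x in reg3 f, ENNReal.ofReal |(fderiv ℝ (cone f) x).det| =
      ENNReal.ofReal (1 / 3) * posCurv f := by
  have hRo := isOpen_reg3 hW hsub hf
  -- the integrand in coordinates
  set g : ℝ × ℂ → ℝ≥0∞ := fun q => ENNReal.ofReal (q.1 ^ 2 * hdet f (nrm f q.2) q.2) with hg
  set T : Set (ℝ × ℂ) := {q | q.2 ∈ ball (0 : ℂ) 1 ∧ 0 < q.1 * ⟪nrm f q.2, p2 f 1 1 q.2⟫ ∧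
    0 < hdet f (nrm f q.2) q.2 ∧ |q.1| * ‖nrm f q.2‖ < 1} with hT
  have hpre : coE3 ⁻¹' T = reg3 f := by
    ext x
    simp only [hT, mem_preimage, mem_ofPred_eq, coE3_apply, reg3]
  have hTm : MeasurableSet T := by
    have : T = coE3.symm ⁻¹' (reg3 f) := by
      rw [← hpre, ← preimage_comp]
      simp
    rw [this]
    exact coE3.symm.measurable hRo.measurableSet
  have h1 : ∫⁻ x in reg3 f, ENNReal.ofReal |(fderiv ℝ (cone f) x).det| =
      ∫⁻ x in reg3 f, g (coE3 x) := by
    refine setLIntegral_congr_fun hRo.measurableSet fun x hx => ?_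
    beta_reduce
    rw [cone_det hW hf (hsub (ball_subset_closedBall hx.1)), coE3_apply]
    rw [abs_of_nonneg (mul_nonneg (sq_nonneg _) hx.2.2.1.le)]
  rw [h1, ← hpre, coE3_mp.setLIntegral_comp_preimage_emb coE3.measurableEmbedding g]
  have hTs : T ⊆ (univ : Set ℝ) ×ˢ W := fun q hq =>
    ⟨mem_univ _, hsub (ball_subset_closedBall hq.1)⟩
  have hgm : AEMeasurable g (volume.restrict T) := by
    have h2 : ContinuousOn (fun q : ℝ × ℂ => q.1 ^ 2 * hdet f (nrm f q.2) q.2)
        ((univ : Set ℝ) ×ˢ W) := by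
      refine (continuous_fst.pow 2).continuousOn.mul
        ((cont_hn hW hf).comp continuous_snd.continuousOn fun q hq => hq.2)
    exact (((h2.aemeasurable (isOpen_univ.prod hW).measurableSet).mono_measure
      (Measure.restrict_mono hTs le_rfl))).ennreal_ofReal
  have h3 : ∫⁻ q in T, g q = ∫⁻ z : ℂ, ∫⁻ t : ℝ, T.indicator g (t, z) := by
    rw [← lintegral_indicator hTm]
    have hm : AEMeasurable (T.indicator g) (volume : Measure (ℝ × ℂ)) :=
      (aemeasurable_indicator_iff hTm).2 hgm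
    have : (volume : Measure (ℝ × ℂ)) = (volume : Measure ℝ).prod (volume : Measure ℂ) := rfl
    rw [this] at hm ⊢
    exact lintegral_prod_symm _ hm
  rw [h3]
  unfold posCurv
  rw [← lintegral_const_mul' _ _ ENNReal.ofReal_ne_top, ← lintegral_indicator measurableSet_ball]
  refine lintegral_congr fun z => ?_
  by_cases hz : z ∈ ball (0 : ℂ) 1
  · rw [indicator_of_mem hz]
    by_cases hk : 0 < hdet f (nrm f z) z
    · have hn := nrm_ne hk
      have hr : 0 < ‖nrm f z‖⁻¹ := inv_pos.2 (norm_pos_iff.2 hn)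
      have hfin : ∀ I : Set ℝ, MeasurableSet I → (∀ t, (t, z) ∈ T ↔ t ∈ I) →
          ∫⁻ t in I, ENNReal.ofReal (t ^ 2) = ENNReal.ofReal ((‖nrm f z‖⁻¹) ^ 3 / 3) →
          ∫⁻ t : ℝ, T.indicator g (t, z) =
            ENNReal.ofReal (1 / 3) * ENNReal.ofReal (gaussK f z * ‖nrm f z‖) := by
        intro I hI hiff hint
        have h4 : ∀ t : ℝ, T.indicator g (t, z) = I.indicator
            (fun t => ENNReal.ofReal (t ^ 2) * ENNReal.ofReal (hdet f (nrm f z) z)) t := by
          intro t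
          by_cases ht : t ∈ I
          · rw [indicator_of_mem ht, indicator_of_mem ((hiff t).2 ht)]
            exact ENNReal.ofReal_mul (sq_nonneg _)
          · rw [indicator_of_notMem ht, indicator_of_notMem (fun h => ht ((hiff t).1 h))]
        simp_rw [h4]
        rw [lintegral_indicator hI, lintegral_mul_const' _ _ ENNReal.ofReal_ne_top, hint,
          dens_eq hn, ← ENNReal.ofReal_mul (by positivity), ← ENNReal.ofReal_mul (by norm_num)]
        congr 1
        field_simp
      have hl : ⟪nrm f z, p2 f 1 1 z⟫ ≠ 0 := by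
        intro h0
        unfold hdet at hk
        rw [h0] at hk
        nlinarith [sq_nonneg ⟪nrm f z, p2 f 1 Complex.I z⟫]
      have habs : ∀ t : ℝ, |t| * ‖nrm f z‖ < 1 ↔ |t| < ‖nrm f z‖⁻¹ := fun t => by
        rw [← one_div, lt_div_iff₀ (norm_pos_iff.2 hn)]
      rcases lt_or_gt_of_ne hl with hneg | hpos
      · refine hfin (Ioo (-(‖nrm f z‖⁻¹)) 0) measurableSet_Ioo (fun t => ?_) (int_sq' _ hr)
        simp only [hT, mem_ofPred_eq, hz, hk, true_and, habs, mem_Ioo]
        constructor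
        · rintro ⟨a, b⟩
          have ht : t < 0 := by
            by_contra hc
            push Not at hc
            have := mul_nonpos_of_nonneg_of_nonpos hc hneg.le
            linarith
          exact ⟨(abs_lt.1 b).1, ht⟩
        · rintro ⟨a, b⟩
          exact ⟨mul_pos_of_neg_of_neg b hneg, abs_lt.2 ⟨a, by linarith⟩⟩
      · refine hfin (Ioo 0 (‖nrm f z‖⁻¹)) measurableSet_Ioo (fun t => ?_) (int_sq _ hr)
        simp only [hT, mem_ofPred_eq, hz, hk, true_and, habs, mem_Ioo]
        constructor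
        · rintro ⟨a, b⟩
          have ht : 0 < t := by
            by_contra hc
            push Not at hc
            have := mul_nonpos_of_nonpos_of_nonneg hc hpos.le
            linarith
          exact ⟨ht, (abs_lt.1 b).2⟩
        · rintro ⟨a, b⟩
          exact ⟨mul_pos a hpos, abs_lt.2 ⟨by linarith, b⟩⟩
    · have h4 : ∀ t : ℝ, T.indicator g (t, z) = 0 := fun t =>
        indicator_of_notMem (fun h => hk h.2.2.1) _
      simp_rw [h4]
      rw [lintegral_zero, ENNReal.ofReal_of_nonpos (p := gaussK f z * ‖nrm f z‖), mul_zero]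
      push Not at hk
      exact mul_nonpos_of_nonpos_of_nonneg (div_nonpos_of_nonpos_of_nonneg hk (by positivity))
        (norm_nonneg _)
  · rw [indicator_of_notMem hz]
    have h4 : ∀ t : ℝ, T.indicator g (t, z) = 0 := fun t =>
      indicator_of_notMem (fun h => hz h.1) _
    simp_rw [h4]
    exact lintegral_zero

end Pool.Agent.Run7.h836.PC
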