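import Mathlib

/-!
A smooth step function whose derivative is positive on the open unit interval, and its primitive.
-/

set_option autoImplicit false

namespace Pool.Agent.Run7.h836.PC

open scoped ContDiff Topology
open MeasureTheory Set Filter

noncomputable def bmp (x : ℝ) : ℝ := expNegInvGlue x * expNegInvGlue (1 - x)

noncomputable def bS : ℝ := ∫ x in (0 : ℝ)..1, bmp x

noncomputable def stp (x : ℝ) : ℝ := (∫ t in (0 : ℝ)..x, bmp t) / bS

noncomputable def prm (x : ℝ) : ℝ := ∫ t in (0 : ℝ)..x, stp t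

theorem bmp_smooth : ContDiff ℝ ∞ bmp :=
  expNegInvGlue.contDiff.mul (expNegInvGlue.contDiff.comp (contDiff_const.sub contDiff_id))

theorem bmp_cont : Continuous bmp := bmp_smooth.continuous

theorem bmp_nonneg (x : ℝ) : 0 ≤ bmp x := mul_nonneg (expNegInvGlue.nonneg _) (expNegInvGlue.nonneg _)

theorem bmp_pos {x : ℝ} (h0 : 0 < x) (h1 : x < 1) : 0 < bmp x :=
  mul_pos (expNegInvGlue.pos_of_pos h0) (expNegInvGlue.pos_of_pos (by linarith))

theorem glue_le_one (x : ℝ) : expNegInvGlue x ≤ 1 := by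
  unfold expNegInvGlue
  split_ifs with h
  · exact zero_le_one
  · rw [Real.exp_le_one_iff, neg_nonpos]
    exact (inv_pos.2 (not_le.1 h)).le

theorem bmp_le_one (x : ℝ) : bmp x ≤ 1 :=
  mul_le_one₀ (glue_le_one _) (expNegInvGlue.nonneg _) (glue_le_one _)

theorem bS_pos : 0 < bS :=
  intervalIntegral.intervalIntegral_pos_of_pos_on (bmp_cont.intervalIntegrable _ _)
    (fun _ hx => bmp_pos hx.1 hx.2) one_pos

theorem stp_deriv (x : ℝ) : HasDerivAt stp (bmp x / bS) x :=
  ((bmp_cont.integral_hasStrictDerivAt 0 x).hasDerivAt).div_const bS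

theorem stp_smooth : ContDiff ℝ ∞ stp := by
  rw [contDiff_infty_iff_deriv]
  refine ⟨fun x => (stp_deriv x).differentiableAt, ?_⟩
  have : deriv stp = fun x => bmp x / bS := funext fun x => (stp_deriv x).deriv
  rw [this]
  exact bmp_smooth.div_const bS

theorem stp_cont : Continuous stp := stp_smooth.continuous

theorem stp_mono : Monotone stp := by
  refine monotone_of_deriv_nonneg (fun x => (stp_deriv x).differentiableAt) fun x => ?_
  rw [(stp_deriv x).deriv]
  exact div_nonneg (bmp_nonneg x) bS_pos.le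

theorem stp_zero {x : ℝ} (hx : x ≤ 0) : stp x = 0 := by
  unfold stp
  have : ∫ t in (0 : ℝ)..x, bmp t = ∫ t in (0 : ℝ)..x, (0 : ℝ) := by
    refine intervalIntegral.integral_congr fun t ht => ?_
    rw [uIcc_of_ge hx] at ht
    show expNegInvGlue t * _ = 0
    rw [expNegInvGlue.zero_of_nonpos ht.2, zero_mul]
  rw [this]
  simp

theorem stp_one {x : ℝ} (hx : 1 ≤ x) : stp x = 1 := by
  unfold stp
  have h1 : ∫ t in (1 : ℝ)..x, bmp t = ∫ t in (1 : ℝ)..x, (0 : ℝ) := by
    refine intervalIntegral.integral_congr fun t ht => ?_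
    rw [uIcc_of_le hx] at ht
    show expNegInvGlue t * expNegInvGlue (1 - t) = 0
    have h2 : 1 - t ≤ 0 := by linarith [ht.1]
    rw [expNegInvGlue.zero_of_nonpos h2, mul_zero]
  rw [← intervalIntegral.integral_add_adjacent_intervals (b := 1)
    (bmp_cont.intervalIntegrable _ _) (bmp_cont.intervalIntegrable _ _), h1]
  simp only [intervalIntegral.integral_zero, add_zero]
  exact div_self bS_pos.ne'

theorem stp_nonneg (x : ℝ) : 0 ≤ stp x := by
  rcases le_total x 0 with h | h
  · rw [stp_zero h]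
  · rw [← stp_zero le_rfl]
    exact stp_mono h

theorem stp_le_one (x : ℝ) : stp x ≤ 1 := by
  rcases le_total 1 x with h | h
  · rw [stp_one h]
  · rw [← stp_one le_rfl]
    exact stp_mono h

theorem stp_lt_one {x : ℝ} (hx : x < 1) : stp x < 1 := by
  have h1 : stp x ≤ stp (max x 0) := stp_mono (le_max_left _ _)
  have h2 : stp (max x 0) < stp 1 := by
    have hlt : max x 0 < 1 := max_lt hx one_pos
    have hm : StrictMonoOn stp (Icc (max x 0) 1) := by
      refine strictMonoOn_of_deriv_pos (convex_Icc _ _) stp_cont.continuousOn fun t ht => ?_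
      rw [interior_Icc] at ht
      rw [(stp_deriv t).deriv]
      exact div_pos (bmp_pos ((le_max_right x 0).trans_lt ht.1) ht.2) bS_pos
    exact hm (left_mem_Icc.2 hlt.le) (right_mem_Icc.2 hlt.le) hlt
  rw [stp_one le_rfl] at h2
  exact h1.trans_lt h2

theorem stp_deriv_le (x : ℝ) : bmp x / bS ≤ 1 / bS :=
  div_le_div_of_nonneg_right (bmp_le_one x) bS_pos.le

theorem stp_lower {σ : ℝ} (hσ : 0 < σ) :
    ∃ τ > 0, ∀ x, σ ≤ stp x → stp x ≤ 1 / 2 → τ ≤ bmp x / bS := by
  set K : Set ℝ := Icc 0 1 ∩ stp ⁻¹' Icc σ (1 / 2) with hK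
  have hKc : IsCompact K := isCompact_Icc.inter_right (isClosed_Icc.preimage stp_cont)
  have hin : ∀ x, σ ≤ stp x → stp x ≤ 1 / 2 → x ∈ K ∧ 0 < x ∧ x < 1 := by
    intro x h1 h2
    have hx0 : 0 < x := by
      by_contra hc
      rw [stp_zero (not_lt.1 hc)] at h1
      linarith
    have hx1 : x < 1 := by
      by_contra hc
      rw [stp_one (not_lt.1 hc)] at h2
      linarith
    exact ⟨⟨⟨hx0.le, hx1.le⟩, h1, h2⟩, hx0, hx1⟩
  rcases K.eq_empty_or_nonempty with he | hne
  · refine ⟨1, one_pos, fun x h1 h2 => ?_⟩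
    have := (hin x h1 h2).1
    rw [he] at this
    exact absurd this (notMem_empty x)
  · obtain ⟨x₀, hx₀, hmin⟩ := hKc.exists_isMinOn hne (bmp_cont.div_const bS).continuousOn
    have hp := (hin x₀ hx₀.2.1 hx₀.2.2).2
    exact ⟨bmp x₀ / bS, div_pos (bmp_pos hp.1 hp.2) bS_pos, fun x h1 h2 => hmin (hin x h1 h2).1⟩

theorem prm_deriv (x : ℝ) : HasDerivAt prm (stp x) x :=
  (stp_cont.integral_hasStrictDerivAt 0 x).hasDerivAt

theorem prm_smooth : ContDiff ℝ ∞ prm := by
  rw [contDiff_infty_iff_deriv]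
  refine ⟨fun x => (prm_deriv x).differentiableAt, ?_⟩
  have : deriv prm = stp := funext fun x => (prm_deriv x).deriv
  rw [this]
  exact stp_smooth

theorem prm_zero {x : ℝ} (hx : x ≤ 0) : prm x = 0 := by
  unfold prm
  have : ∫ t in (0 : ℝ)..x, stp t = ∫ t in (0 : ℝ)..x, (0 : ℝ) := by
    refine intervalIntegral.integral_congr fun t ht => ?_
    rw [uIcc_of_ge hx] at ht
    exact stp_zero ht.2
  rw [this]
  simp

theorem prm_one {x : ℝ} (hx : 1 ≤ x) : prm x = prm 1 + (x - 1) := by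
  unfold prm
  have h1 : ∫ t in (1 : ℝ)..x, stp t = ∫ t in (1 : ℝ)..x, (1 : ℝ) := by
    refine intervalIntegral.integral_congr fun t ht => ?_
    rw [uIcc_of_le hx] at ht
    exact stp_one ht.1
  rw [← intervalIntegral.integral_add_adjacent_intervals (b := 1)
    (stp_cont.intervalIntegrable _ _) (stp_cont.intervalIntegrable _ _), h1]
  simp

theorem prm_mono : Monotone prm := by
  refine monotone_of_deriv_nonneg (fun x => (prm_deriv x).differentiableAt) fun x => ?_
  rw [(prm_deriv x).deriv]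
  exact stp_nonneg x

/-! ### The height of the collar and the radial reparametrisation -/

/-- The height of the collar: constant for `r ≤ a`, equal to `c (1 - r)` for `b ≤ r`. -/
noncomputable def kap (a b c r : ℝ) : ℝ :=
  c * ((b - a) * (prm ((1 - a) / (b - a)) - prm ((r - a) / (b - a))))

theorem kap_deriv {a b : ℝ} (hab : a < b) (c r : ℝ) :
    HasDerivAt (kap a b c) (-(c * stp ((r - a) / (b - a)))) r := by
  have h1 : HasDerivAt (fun r : ℝ => (r - a) / (b - a)) (1 / (b - a)) r :=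
    ((hasDerivAt_id r).sub_const a).div_const (b - a)
  have h2 := ((prm_deriv ((r - a) / (b - a))).comp r h1)
  have h3 := ((h2.const_sub (prm ((1 - a) / (b - a)))).const_mul (b - a)).const_mul c
  have hne : b - a ≠ 0 := (sub_pos.2 hab).ne'
  have e : -(c * stp ((r - a) / (b - a))) =
      c * ((b - a) * -(stp ((r - a) / (b - a)) * (1 / (b - a)))) := by
    field_simp
  rw [e]
  exact h3

theorem kap_smooth (a b c : ℝ) : ContDiff ℝ ∞ (kap a b c) := by
  unfold kap
  have h1 : ContDiff ℝ ∞ (fun r : ℝ => (r - a) / (b - a)) :=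
    (contDiff_id.sub contDiff_const).div_const _
  exact contDiff_const.mul (contDiff_const.mul (contDiff_const.sub (prm_smooth.comp h1)))

theorem kap_outer {a b c r : ℝ} (hab : a < b) (hb : b ≤ 1) (hr : b ≤ r) :
    kap a b c r = c * (1 - r) := by
  have hpos : 0 < b - a := sub_pos.2 hab
  have h1 : 1 ≤ (1 - a) / (b - a) := by rw [le_div_iff₀ hpos]; linarith
  have h2 : 1 ≤ (r - a) / (b - a) := by rw [le_div_iff₀ hpos]; linarith
  unfold kap
  rw [prm_one h1, prm_one h2]
  field_simp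
  ring

theorem kap_inner {a b c r : ℝ} (hab : a < b) (hr : r ≤ a) :
    kap a b c r = kap a b c a := by
  have hpos : 0 < b - a := sub_pos.2 hab
  unfold kap
  rw [prm_zero (x := (r - a) / (b - a)) (div_nonpos_of_nonpos_of_nonneg (by linarith) hpos.le),
    prm_zero (x := (a - a) / (b - a)) (by simp)]

theorem kap_anti {a b c : ℝ} (hab : a < b) (hc : 0 < c) : Antitone (kap a b c) := by
  refine antitone_of_deriv_nonpos (fun x => (kap_deriv hab c x).differentiableAt) fun x => ?_
  rw [(kap_deriv hab c x).deriv, neg_nonpos]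
  exact mul_nonneg hc.le (stp_nonneg _)

theorem kap_pos {a b c r : ℝ} (hab : a < b) (hb : b < 1) (hc : 0 < c) (hr : r < 1) :
    0 < kap a b c r := by
  have h1 : kap a b c (max r b) ≤ kap a b c r := kap_anti hab hc (le_max_left _ _)
  rw [kap_outer hab hb.le (le_max_right _ _)] at h1
  have h2 : max r b < 1 := max_lt hr hb
  have h3 : 0 < c * (1 - max r b) := mul_pos hc (by linarith)
  linarith

/-- The radial reparametrisation: `r` for `r ≤ b`, and `1` for `(1 + b) / 2 ≤ r`. -/
noncomputable def rho (b r : ℝ) : ℝ := r + stp ((r - b) / ((1 - b) / 2)) * (1 - r)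

theorem rho_deriv {b : ℝ} (hb : b < 1) (r : ℝ) :
    HasDerivAt (rho b) (1 - stp ((r - b) / ((1 - b) / 2)) +
      (bmp ((r - b) / ((1 - b) / 2)) / bS) * ((1 - r) / ((1 - b) / 2))) r := by
  have h1 : HasDerivAt (fun r : ℝ => (r - b) / ((1 - b) / 2)) (1 / ((1 - b) / 2)) r :=
    ((hasDerivAt_id r).sub_const b).div_const ((1 - b) / 2)
  have h2 := ((stp_deriv ((r - b) / ((1 - b) / 2))).comp r h1)
  have h3 := (hasDerivAt_id r).add (h2.mul ((hasDerivAt_id r).const_sub 1))
  have e : 1 - stp ((r - b) / ((1 - b) / 2)) +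
      (bmp ((r - b) / ((1 - b) / 2)) / bS) * ((1 - r) / ((1 - b) / 2)) =
      1 + (bmp ((r - b) / ((1 - b) / 2)) / bS * (1 / ((1 - b) / 2)) * (1 - r) +
        stp ((r - b) / ((1 - b) / 2)) * -1) := by
    ring
  rw [e]
  exact h3

theorem rho_smooth (b : ℝ) : ContDiff ℝ ∞ (rho b) := by
  unfold rho
  have h1 : ContDiff ℝ ∞ (fun r : ℝ => (r - b) / ((1 - b) / 2)) :=
    (contDiff_id.sub contDiff_const).div_const _
  exact contDiff_id.add ((stp_smooth.comp h1).mul (contDiff_const.sub contDiff_id))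

theorem rho_inner {b r : ℝ} (hb : b < 1) (hr : r ≤ b) : rho b r = r := by
  unfold rho
  rw [stp_zero (div_nonpos_of_nonpos_of_nonneg (by linarith) (by linarith))]
  ring

theorem rho_outer {b r : ℝ} (hb : b < 1) (hr : (1 + b) / 2 ≤ r) : rho b r = 1 := by
  unfold rho
  have h : 0 < (1 - b) / 2 := by linarith
  rw [stp_one (by rw [le_div_iff₀ h]; linarith)]
  ring

theorem rho_le_one {b r : ℝ} (hr : r ≤ 1) : rho b r ≤ 1 := by
  unfold rho
  have := mul_le_mul_of_nonneg_right (stp_le_one ((r - b) / ((1 - b) / 2)))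
    (by linarith : 0 ≤ 1 - r)
  linarith

theorem rho_ge {b r : ℝ} (hr : r ≤ 1) : r ≤ rho b r := by
  unfold rho
  have := mul_nonneg (stp_nonneg ((r - b) / ((1 - b) / 2))) (by linarith : 0 ≤ 1 - r)
  linarith

theorem rho_deriv_pos {b : ℝ} (hb : b < 1) {r : ℝ} (hr : r < (1 + b) / 2) :
    0 < deriv (rho b) r := by
  rw [(rho_deriv hb r).deriv]
  have h : 0 < (1 - b) / 2 := by linarith
  have h1 : (r - b) / ((1 - b) / 2) < 1 := by rw [div_lt_one h]; linarith
  have h2 := stp_lt_one h1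
  have h3 : 0 ≤ (bmp ((r - b) / ((1 - b) / 2)) / bS) * ((1 - r) / ((1 - b) / 2)) :=
    mul_nonneg (div_nonneg (bmp_nonneg _) bS_pos.le) (div_nonneg (by linarith) h.le)
  linarith

theorem rho_deriv_nonneg {b : ℝ} (hb : b < 1) {r : ℝ} (hr : r ≤ 1) : 0 ≤ deriv (rho b) r := by
  rw [(rho_deriv hb r).deriv]
  have h : 0 < (1 - b) / 2 := by linarith
  have h2 := stp_le_one ((r - b) / ((1 - b) / 2))
  have h3 : 0 ≤ (bmp ((r - b) / ((1 - b) / 2)) / bS) * ((1 - r) / ((1 - b) / 2)) :=
    mul_nonneg (div_nonneg (bmp_nonneg _) bS_pos.le) (div_nonneg (by linarith) h.le)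
  linarith

theorem rho_deriv_le {b : ℝ} (hb : b < 1) {r : ℝ} (hbr : b ≤ r) (hr : r ≤ 1) :
    deriv (rho b) r ≤ 1 + 2 / bS := by
  rw [(rho_deriv hb r).deriv]
  have h : 0 < (1 - b) / 2 := by linarith
  have h2 := stp_nonneg ((r - b) / ((1 - b) / 2))
  have h4 : (1 - r) / ((1 - b) / 2) ≤ 2 := by rw [div_le_iff₀ h]; linarith
  have h5 : 0 ≤ (1 - r) / ((1 - b) / 2) := div_nonneg (by linarith) h.le
  have h3 : (bmp ((r - b) / ((1 - b) / 2)) / bS) * ((1 - r) / ((1 - b) / 2)) ≤ (1 / bS) * 2 :=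
    mul_le_mul (stp_deriv_le _) h4 h5 (by have := bS_pos; positivity)
  have h6 : (1 / bS) * 2 = 2 / bS := by ring
  linarith

theorem rho_strict {b : ℝ} (hb : b < 1) : StrictMonoOn (rho b) (Iic ((1 + b) / 2)) := by
  refine strictMonoOn_of_deriv_pos (convex_Iic _) (rho_smooth b).continuous.continuousOn
    fun t ht => ?_
  rw [interior_Iic] at ht
  exact rho_deriv_pos hb ht

theorem rho_mono {b : ℝ} (hb : b < 1) {r r' : ℝ} (h : r ≤ r') (h' : r' ≤ 1) :
    rho b r ≤ rho b r' := by
  rcases le_total r' ((1 + b) / 2) with h1 | h1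
  · exact (rho_strict hb).monotoneOn (h.trans h1) h1 h
  · rw [rho_outer hb h1]
    exact rho_le_one (h.trans h')

end Pool.Agent.Run7.h836.PC
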