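import Mathlib
import Pool.Agent.Run7.h836.PC.Step
import Pool.Agent.Run7.h836.PC.Def

/-!
A disc in the half-space with a vertical collar attached.
-/

set_option autoImplicit false

namespace Pool.Agent.Run7.h836.PC

open scoped ContDiff RealInnerProductSpace ENNReal Topology
open MeasureTheory Set Metric Filter
open Pool.Agent.Y503.RB Pool.Agent.N503.ML Pool.Agent.N15.RC

/-- The radial reparametrisation of the disc. -/
noncomputable def hatz (b : ℝ) (z : ℂ) : ℂ := (rho b ‖z‖ / ‖z‖) • z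

/-- The disc with the collar. -/
noncomputable def cdisc (φ : ℂ → E4) (a b c : ℝ) (z : ℂ) : E4 :=
  φ (hatz b z) + kap a b c ‖z‖ • vert

variable {a b c : ℝ}

theorem hatz_inner (hb : b < 1) {z : ℂ} (hz : ‖z‖ ≤ b) : hatz b z = z := by
  unfold hatz
  rw [rho_inner hb hz]
  by_cases h : z = 0
  · rw [h, smul_zero]
  · rw [div_self (norm_ne_zero_iff.2 h), one_smul]

theorem hatz_outer (hb : b < 1) {z : ℂ} (hz : (1 + b) / 2 ≤ ‖z‖) : hatz b z = ‖z‖⁻¹ • z := by
  unfold hatz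
  rw [rho_outer hb hz, one_div]

theorem rho_nonneg (hb : b < 1) {r : ℝ} (hr : 0 ≤ r) : 0 ≤ rho b r := by
  rcases le_total r 1 with h | h
  · exact hr.trans (rho_ge h)
  · rw [rho_outer hb (by linarith)]
    exact zero_le_one

theorem rho_le_one' (hb : b < 1) (r : ℝ) : rho b r ≤ 1 := by
  rcases le_total r 1 with h | h
  · exact rho_le_one h
  · rw [rho_outer hb (by linarith)]

theorem rho_pos (hb : b < 1) {r : ℝ} (hr : 0 < r) : 0 < rho b r := by
  rcases le_total r 1 with h | h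
  · exact hr.trans_le (rho_ge h)
  · rw [rho_outer hb (by linarith)]
    exact zero_lt_one

theorem norm_hatz (hb : b < 1) {z : ℂ} (hz : z ≠ 0) : ‖hatz b z‖ = rho b ‖z‖ := by
  unfold hatz
  rw [norm_smul, Real.norm_eq_abs, abs_of_nonneg (div_nonneg (rho_nonneg hb (norm_nonneg _))
    (norm_nonneg _)), div_mul_cancel₀ _ (norm_ne_zero_iff.2 hz)]

theorem hatz_mem (hb : b < 1) (z : ℂ) : hatz b z ∈ closedBall (0 : ℂ) 1 := by
  rw [mem_closedBall_zero_iff]
  by_cases h : z = 0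
  · rw [h]
    simp [hatz]
  · rw [norm_hatz hb h]
    exact rho_le_one' hb _

theorem hatz_smooth {z : ℂ} (hz : z ≠ 0) : ContDiffAt ℝ ∞ (hatz b) z := by
  have h1 : ContDiffAt ℝ ∞ (fun z : ℂ => ‖z‖) z := contDiffAt_norm ℝ hz
  have h2 : ContDiffAt ℝ ∞ (fun z : ℂ => rho b ‖z‖) z := (rho_smooth b).contDiffAt.comp z h1
  exact (h2.div h1 (norm_ne_zero_iff.2 hz)).smul contDiffAt_id

theorem cdisc_inner {φ : ℂ → E4} (hab : a < b) (hb : b < 1) {z : ℂ} (hz : ‖z‖ ≤ a) :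
    cdisc φ a b c z = φ z + kap a b c a • vert := by
  unfold cdisc
  rw [hatz_inner hb (hz.trans hab.le), kap_inner hab hz]

theorem cdisc_smooth {φ : ℂ → E4} {W : Set ℂ} (hW : IsOpen W) (hsub : closedBall (0 : ℂ) 1 ⊆ W)
    (hφ : ContDiffOn ℝ ∞ φ W) (ha : 0 < a) (hab : a < b) (hb : b < 1) (z : ℂ) :
    ContDiffAt ℝ ∞ (cdisc φ a b c) z := by
  by_cases hz : z = 0
  · subst hz
    have h1 : cdisc φ a b c =ᶠ[𝓝 0] fun z => φ z + kap a b c a • vert := by
      filter_upwards [ball_mem_nhds (0 : ℂ) ha] with w hw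
      exact cdisc_inner hab hb (mem_ball_zero_iff.1 hw).le
    have h2 : ContDiffAt ℝ ∞ φ 0 := hφ.contDiffAt (hW.mem_nhds (hsub (by simp)))
    exact (h2.add contDiffAt_const).congr_of_eventuallyEq h1
  · have h1 : ContDiffAt ℝ ∞ φ (hatz b z) := hφ.contDiffAt (hW.mem_nhds (hsub (hatz_mem hb z)))
    have h2 : ContDiffAt ℝ ∞ (fun z => φ (hatz b z)) z := h1.comp z (hatz_smooth hz)
    have h3 : ContDiffAt ℝ ∞ (fun z : ℂ => ‖z‖) z := contDiffAt_norm ℝ hz
    have h4 : ContDiffAt ℝ ∞ (fun z : ℂ => kap a b c ‖z‖) z :=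
      (kap_smooth a b c).contDiffAt.comp z h3
    exact h2.add (h4.smul contDiffAt_const)

/-- Every direction is a combination of the radial and the tangential one. -/
theorem dir_eq {z : ℂ} (hz : z ≠ 0) (v : ℂ) :
    v = (v / z).re • z + (v / z).im • (Complex.I * z) := by
  have h : v = (v / z) * z := (div_mul_cancel₀ v hz).symm
  conv_lhs => rw [h, ← Complex.re_add_im (v / z)]
  rw [Complex.real_smul, Complex.real_smul]
  ring

theorem d1_comb (φ : ℂ → E4) (α β : ℝ) (u v z : ℂ) :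
    d1 φ (α • u + β • v) z = α • d1 φ u z + β • d1 φ v z := by
  unfold d1
  rw [map_add, map_smul, map_smul]

/-- Radial derivative. -/
theorem cdisc_radial {φ : ℂ → E4} {W : Set ℂ} (hW : IsOpen W) (hsub : closedBall (0 : ℂ) 1 ⊆ W)
    (hφ : ContDiffOn ℝ ∞ φ W) (ha : 0 < a) (hab : a < b) (hb : b < 1) {z : ℂ} (hz : z ≠ 0) :
    d1 (cdisc φ a b c) z z = deriv (rho b) ‖z‖ • d1 φ z (hatz b z) +
      (-(c * stp ((‖z‖ - a) / (b - a))) * ‖z‖) • vert := by
  have hn : 0 < ‖z‖ := norm_pos_iff.2 hz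
  have hd : DifferentiableAt ℝ (cdisc φ a b c) z :=
    (cdisc_smooth hW hsub hφ ha hab hb z).differentiableAt (by simp)
  -- the curve `t ↦ t z`
  have hl : HasDerivAt (fun t : ℝ => t • z) z 1 := by
    simpa using (hasDerivAt_id (1 : ℝ)).smul_const z
  have h1 : HasDerivAt (fun t : ℝ => cdisc φ a b c (t • z)) (fderiv ℝ (cdisc φ a b c) z z) 1 := by
    have h2 : HasFDerivAt (cdisc φ a b c) (fderiv ℝ (cdisc φ a b c) z) ((1 : ℝ) • z) := by
      rw [one_smul]; exact hd.hasFDerivAt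
    exact h2.comp_hasDerivAt (1 : ℝ) hl
  have hm : HasDerivAt (fun t : ℝ => t * ‖z‖) ‖z‖ 1 := by
    simpa using (hasDerivAt_id (1 : ℝ)).mul_const ‖z‖
  have hr : HasDerivAt (fun t : ℝ => rho b (t * ‖z‖) / ‖z‖) (deriv (rho b) ‖z‖) 1 := by
    have h3 : HasDerivAt (rho b) (deriv (rho b) ‖z‖) (1 * ‖z‖) := by
      rw [one_mul]
      exact ((rho_smooth b).differentiable (by simp) ‖z‖).hasDerivAt
    have h4 := (h3.comp (1 : ℝ) hm).div_const ‖z‖
    have e : deriv (rho b) ‖z‖ * ‖z‖ / ‖z‖ = deriv (rho b) ‖z‖ := by field_simp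
    rw [e] at h4
    exact h4
  have hk : HasDerivAt (fun t : ℝ => kap a b c (t * ‖z‖))
      (-(c * stp ((‖z‖ - a) / (b - a))) * ‖z‖) 1 := by
    have h3 : HasDerivAt (kap a b c) (-(c * stp ((‖z‖ - a) / (b - a)))) (1 * ‖z‖) := by
      rw [one_mul]
      exact kap_deriv hab c ‖z‖
    exact HasDerivAt.comp (1 : ℝ) (h₂ := kap a b c) (h := fun t : ℝ => t * ‖z‖) h3 hm
  have hφd : HasFDerivAt φ (fderiv ℝ φ (hatz b z)) ((rho b (1 * ‖z‖) / ‖z‖) • z) := by
    rw [one_mul]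
    exact ((hφ.contDiffAt (hW.mem_nhds (hsub (hatz_mem hb z)))).differentiableAt
      (by simp)).hasFDerivAt
  have h5 := (hφd.comp_hasDerivAt (1 : ℝ) (hr.smul_const z)).add (hk.smul_const vert)
  have h6 : (fun t : ℝ => cdisc φ a b c (t • z)) =ᶠ[𝓝 1]
      ((φ ∘ fun t : ℝ => (rho b (t * ‖z‖) / ‖z‖) • z) +
        fun t : ℝ => kap a b c (t * ‖z‖) • vert) := by
    filter_upwards [lt_mem_nhds (zero_lt_one : (0 : ℝ) < 1)] with t ht
    have e1 : ‖t • z‖ = t * ‖z‖ := by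
      rw [norm_smul, Real.norm_eq_abs, abs_of_pos ht]
    show φ (hatz b (t • z)) + kap a b c ‖t • z‖ • vert =
      φ ((rho b (t * ‖z‖) / ‖z‖) • z) + kap a b c (t * ‖z‖) • vert
    have e2 : hatz b (t • z) = (rho b (t * ‖z‖) / ‖z‖) • z := by
      unfold hatz
      rw [e1, smul_smul]
      congr 1
      field_simp
    rw [e1, e2]
  have h7 := (h1.congr_of_eventuallyEq h6.symm).unique h5
  have h8 : d1 (cdisc φ a b c) z z = fderiv ℝ (cdisc φ a b c) z z := rfl
  rw [h8, h7, map_smul]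
  rfl

/-- Tangential derivative. -/
theorem cdisc_tang {φ : ℂ → E4} {W : Set ℂ} (hW : IsOpen W) (hsub : closedBall (0 : ℂ) 1 ⊆ W)
    (hφ : ContDiffOn ℝ ∞ φ W) (ha : 0 < a) (hab : a < b) (hb : b < 1) (z : ℂ) :
    d1 (cdisc φ a b c) (Complex.I * z) z =
      (rho b ‖z‖ / ‖z‖) • d1 φ (Complex.I * z) (hatz b z) := by
  have hd : DifferentiableAt ℝ (cdisc φ a b c) z :=
    (cdisc_smooth hW hsub hφ ha hab hb z).differentiableAt (by simp)
  have hl : HasDerivAt (fun t : ℝ => Complex.exp (t * Complex.I) * z) (Complex.I * z) 0 := by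
    have h1 : HasDerivAt (fun t : ℝ => Complex.exp (t * Complex.I)) Complex.I 0 := by
      have h2 : HasDerivAt (fun t : ℝ => (t : ℂ) * Complex.I) (1 * Complex.I) 0 :=
        (Complex.ofRealCLM.hasDerivAt).mul_const Complex.I
      have h3 := h2.cexp
      simpa using h3
    exact h1.mul_const z
  have hn : ∀ t : ℝ, ‖Complex.exp (t * Complex.I) * z‖ = ‖z‖ := by
    intro t
    rw [norm_mul, Complex.norm_exp_ofReal_mul_I, one_mul]
  have e0 : Complex.exp (((0 : ℝ) : ℂ) * Complex.I) * z = z := by simp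
  have h1 : HasDerivAt (fun t : ℝ => cdisc φ a b c (Complex.exp (t * Complex.I) * z))
      (fderiv ℝ (cdisc φ a b c) z (Complex.I * z)) 0 := by
    have h2 : HasFDerivAt (cdisc φ a b c) (fderiv ℝ (cdisc φ a b c) z)
        (Complex.exp (((0 : ℝ) : ℂ) * Complex.I) * z) := by
      rw [e0]; exact hd.hasFDerivAt
    exact h2.comp_hasDerivAt (0 : ℝ) hl
  have hφd : HasFDerivAt φ (fderiv ℝ φ (hatz b z))
      ((rho b ‖z‖ / ‖z‖) • (Complex.exp (((0 : ℝ) : ℂ) * Complex.I) * z)) := by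
    rw [e0]
    exact ((hφ.contDiffAt (hW.mem_nhds (hsub (hatz_mem hb z)))).differentiableAt
      (by simp)).hasFDerivAt
  have h5 := (hφd.comp_hasDerivAt (0 : ℝ) (hl.const_smul (rho b ‖z‖ / ‖z‖))).add_const
    (kap a b c ‖z‖ • vert)
  have h6 : (fun t : ℝ => cdisc φ a b c (Complex.exp (t * Complex.I) * z)) =
      fun t : ℝ => (φ ∘ fun t : ℝ => (rho b ‖z‖ / ‖z‖) • (Complex.exp (t * Complex.I) * z)) t +
        kap a b c ‖z‖ • vert := by
    funext t
    unfold cdisc hatz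
    rw [hn]
    rfl
  rw [h6] at h1
  have h7 := h1.unique h5
  have h8 : d1 (cdisc φ a b c) (Complex.I * z) z =
    fderiv ℝ (cdisc φ a b c) z (Complex.I * z) := rfl
  rw [h8, h7, map_smul]
  rfl

end Pool.Agent.Run7.h836.PC
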