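import Mathlib
import Pool.Agent.Run7.h836.PC.Area

/-!
Directions in three-space in which a surface has few minima.
-/

set_option autoImplicit false

namespace Pool.Agent.Run7.h836.PC

open scoped ContDiff RealInnerProductSpace ENNReal Topology
open MeasureTheory Set Metric Filter
open Pool.Agent.Y503.RB Pool.Agent.N503.ML Pool.Agent.N15.RC

variable {f : ℂ → E3} {W : Set ℂ}

theorem inner_smul_pos {w : E3} {t : ℝ} (f : ℂ → E3) (z : ℂ) :
    Pos3 f (t • w) z ↔ 0 < t * ⟪w, p2 f 1 1 z⟫ ∧ 0 < t ^ 2 * hdet f w z := by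
  unfold Pos3
  rw [hdet_smul, real_inner_smul_left]

/-- The counting function of the critical points with positive definite Hessian. -/
theorem counting3 (hW : IsOpen W) (hsub : closedBall (0 : ℂ) 1 ⊆ W) (hf : ContDiffOn ℝ ∞ f W) :
    ∃ c : E3 → ℝ≥0∞, Measurable c ∧ ∫⁻ y, c y = ENNReal.ofReal (1 / 3) * posCurv f ∧
      ∀ w ∈ ball (0 : E3) 1, ∀ s : Finset ℂ,
        (∀ z ∈ s, z ∈ ball (0 : ℂ) 1 ∧ Crit3 f w z ∧ Pos3 f w z ∧ nrm f z ≠ 0) →
        (s.card : ℝ≥0∞) ≤ c w := by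
  classical
  have hRo := isOpen_reg3 hW hsub hf
  have hzW : ∀ x ∈ reg3 f, zc3 x ∈ W := fun x hx => hsub (ball_subset_closedBall hx.1)
  have hdet : ∀ x ∈ reg3 f, (fderiv ℝ (cone f) x).det ≠ 0 := by
    intro x hx
    rw [cone_det hW hf (hzW x hx)]
    have h2 : x 2 ≠ 0 := by
      intro h0
      have := hx.2.1
      rw [h0, zero_mul] at this
      exact lt_irrefl _ this
    exact mul_ne_zero (pow_ne_zero _ h2) hx.2.2.1.ne'
  obtain ⟨D, hD, hdis, hU⟩ := pieces3 (cone f) (reg3 f) hRo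
    (fun x hx => (cone_smooth hW hf (hzW x hx)).contDiffWithinAt) hdet _ hRo.measurableSet
    subset_rfl
  refine ⟨fun y => ∑' i, (cone f '' D i).indicator (fun _ => 1) y, ?_, ?_, ?_⟩
  · exact Measurable.tsum fun i => measurable_const.indicator (hD i).2.2.1
  · rw [lintegral_tsum (fun i => (measurable_const.indicator (hD i).2.2.1).aemeasurable),
      ← reg3_int hW hsub hf, ← hU, lintegral_iUnion (fun i => (hD i).1) hdis]
    refine tsum_congr fun i => ?_
    rw [lintegral_indicator (hD i).2.2.1, ← (hD i).2.2.2]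
    simp
  · intro w hw s hs
    have hx : ∀ z ∈ s, mk3 z (⟪w, nrm f z⟫ / ‖nrm f z‖ ^ 2) ∈ reg3 f ∧
        cone f (mk3 z (⟪w, nrm f z⟫ / ‖nrm f z‖ ^ 2)) = w := by
      intro z hz
      obtain ⟨h1, h2, h3, h4⟩ := hs z hz
      have hw' : w = (⟪w, nrm f z⟫ / ‖nrm f z‖ ^ 2) • nrm f z :=
        eq_smul_cross h4 (h2 1) (h2 Complex.I)
      set t := ⟪w, nrm f z⟫ / ‖nrm f z‖ ^ 2 with ht
      have hc : cone f (mk3 z t) = w := by
        unfold cone
        rw [mk3_zc, mk3_two]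
        exact hw'.symm
      refine ⟨?_, hc⟩
      rw [hw', inner_smul_pos] at h3
      refine ⟨by rw [mk3_zc]; exact h1, ?_, ?_, ?_⟩
      · rw [mk3_zc, mk3_two]; exact h3.1
      · rw [mk3_zc]
        by_contra hc5
        push Not at hc5
        have := mul_nonpos_of_nonneg_of_nonpos (sq_nonneg t) hc5
        linarith [h3.2]
      · rw [mk3_zc, mk3_two]
        have h5 : ‖w‖ = |t| * ‖nrm f z‖ := by
          conv_lhs => rw [hw']
          rw [norm_smul, Real.norm_eq_abs]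
        rw [← h5]
        exact mem_ball_zero_iff.1 hw
    have hidx : ∀ z : ℂ, ∃ i : ℕ, z ∈ s → mk3 z (⟪w, nrm f z⟫ / ‖nrm f z‖ ^ 2) ∈ D i := by
      intro z
      by_cases hz : z ∈ s
      · have h1 := (hx z hz).1
        rw [← hU] at h1
        obtain ⟨i, hi⟩ := mem_iUnion.1 h1
        exact ⟨i, fun _ => hi⟩
      · exact ⟨0, fun h => absurd h hz⟩
    choose idx hidx using hidx
    have hinj : InjOn idx (s : Set ℂ) := by
      intro a ha b hb hab
      have h1 := hidx a ha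
      have h2 := hidx b hb
      rw [← hab] at h2
      have h3 := (hD (idx a)).2.1 h1 h2 ((hx a ha).2.trans (hx b hb).2.symm)
      have h4 := congrArg zc3 h3
      rwa [mk3_zc, mk3_zc] at h4
    calc (s.card : ℝ≥0∞) = ((s.image idx).card : ℝ≥0∞) := by
          rw [Finset.card_image_of_injOn hinj]
      _ = ∑ i ∈ s.image idx, (1 : ℝ≥0∞) := by simp
      _ = ∑ i ∈ s.image idx, (cone f '' D i).indicator (fun _ => (1 : ℝ≥0∞)) w := by
          refine Finset.sum_congr rfl fun i hi => ?_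
          obtain ⟨z, hz, rfl⟩ := Finset.mem_image.1 hi
          rw [indicator_of_mem]
          exact ⟨_, hidx z hz, (hx z hz).2⟩
      _ ≤ ∑' i, (cone f '' D i).indicator (fun _ => (1 : ℝ≥0∞)) w := ENNReal.sum_le_tsum _

/-- For almost all `w` the critical points of `⟪w, f⟫` in the closed disc are nondegenerate and lie
in the open disc. -/
theorem sard3 (hW : IsOpen W) (hsub : closedBall (0 : ℂ) 1 ⊆ W) (hf : ContDiffOn ℝ ∞ f W)
    {S : Set ℂ} (hS : S.Countable) (hreg : ∀ z ∈ closedBall (0 : ℂ) 1, z ∉ S → nrm f z ≠ 0)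
    (hrank : ∀ z ∈ S, ∃ v, p1 f v z ≠ 0) :
    ∃ Z : Set E3, volume Z = 0 ∧ ∀ w ∉ Z, ∀ z ∈ closedBall (0 : ℂ) 1, Crit3 f w z →
      z ∈ ball (0 : ℂ) 1 ∧ hdet f w z ≠ 0 ∧ nrm f z ≠ 0 := by
  -- the three null sets
  set Z1 : Set E3 := ⋃ z ∈ S, {w : E3 | Crit3 f w z} with hZ1
  set Z2 : Set E3 := cone f '' {x | zc3 x ∈ W ∧ (fderiv ℝ (cone f) x).det = 0} with hZ2
  set G : E3 → E3 := fun x => cone f (mk3 (Circle.exp (x 0)) (x 2)) with hG
  set Z3 : Set E3 := G '' univ with hZ3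
  have n0 : volume ({0} : Set E3) = 0 := measure_singleton _
  have n1 : volume Z1 = 0 := by
    rw [hZ1, measure_biUnion_null_iff hS]
    intro z hz
    obtain ⟨v, hv⟩ := hrank z hz
    have h1 : {w : E3 | Crit3 f w z} ⊆
        (LinearMap.ker ((innerSL ℝ (p1 f v z) : E3 →L[ℝ] ℝ) : E3 →ₗ[ℝ] ℝ) : Set E3) := by
      intro w hw
      show ⟪p1 f v z, w⟫ = 0
      rw [real_inner_comm]
      exact hw v
    refine measure_mono_null h1 (Measure.addHaar_submodule _ _ ?_)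
    intro h
    have h2 : p1 f v z ∈ LinearMap.ker ((innerSL ℝ (p1 f v z) : E3 →L[ℝ] ℝ) : E3 →ₗ[ℝ] ℝ) := by
      rw [h]; trivial
    have h3 : ⟪p1 f v z, p1 f v z⟫ = 0 := h2
    exact hv (inner_self_eq_zero.1 h3)
  have n2 : volume Z2 = 0 := by
    refine addHaar_image_eq_zero_of_det_fderivWithin_eq_zero volume
      (f' := fun x => fderiv ℝ (cone f) x) ?_ (fun x hx => hx.2)
    intro x hx
    exact (((cone_smooth hW hf hx.1).differentiableAt (by simp)).hasFDerivAt).hasFDerivWithinAt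
  have hmk : ContDiff ℝ ∞ (fun x : E3 => mk3 (Circle.exp (x 0)) (x 2)) := by
    rw [contDiff_euclidean]
    have c0 : ContDiff ℝ ∞ (fun x : E3 => x 0) :=
      (EuclideanSpace.proj (0 : Fin 3) : E3 →L[ℝ] ℝ).contDiff
    have c2 : ContDiff ℝ ∞ (fun x : E3 => x 2) :=
      (EuclideanSpace.proj (2 : Fin 3) : E3 →L[ℝ] ℝ).contDiff
    intro i
    fin_cases i
    · have : (fun x : E3 => mk3 (Circle.exp (x 0)) (x 2) 0) = fun x => Real.cos (x 0) := by
        funext x
        show ((Circle.exp (x 0) : Circle) : ℂ).re = _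
        rw [Circle.coe_exp, Complex.exp_ofReal_mul_I_re]
      exact this ▸ (Real.contDiff_cos.comp c0)
    · have : (fun x : E3 => mk3 (Circle.exp (x 0)) (x 2) 1) = fun x => Real.sin (x 0) := by
        funext x
        show ((Circle.exp (x 0) : Circle) : ℂ).im = _
        rw [Circle.coe_exp, Complex.exp_ofReal_mul_I_im]
      exact this ▸ (Real.contDiff_sin.comp c0)
    · exact c2
  have hGd : ∀ x, HasFDerivAt G ((fderiv ℝ (cone f) (mk3 (Circle.exp (x 0)) (x 2))).comp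
      (fderiv ℝ (fun x : E3 => mk3 (Circle.exp (x 0)) (x 2)) x)) x := by
    intro x
    have h1 : zc3 (mk3 (Circle.exp (x 0)) (x 2)) ∈ W := by
      rw [mk3_zc]
      exact hsub (mem_closedBall_zero_iff.2 (by simp))
    exact HasFDerivAt.comp x ((cone_smooth hW hf h1).differentiableAt (by simp)).hasFDerivAt
      ((hmk.differentiable (by simp)) x).hasFDerivAt
  have n3 : volume Z3 = 0 := by
    refine addHaar_image_eq_zero_of_det_fderivWithin_eq_zero volume
      (f' := fun x => (fderiv ℝ (cone f) (mk3 (Circle.exp (x 0)) (x 2))).comp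
      (fderiv ℝ (fun x : E3 => mk3 (Circle.exp (x 0)) (x 2)) x)) 
      (fun x _ => (hGd x).hasFDerivWithinAt) (fun x _ => ?_)
    -- the derivative in the direction of the second coordinate vanishes
    rw [det3_eq, det3_cols]
    have h1 : fderiv ℝ (fun x : E3 => mk3 (Circle.exp (x 0)) (x 2)) x
        (EuclideanSpace.single 1 1) = 0 := by
      have hd := ((hmk.differentiable (by simp)) x).hasFDerivAt
      have hl : HasDerivAt (fun s : ℝ => x + s • (EuclideanSpace.single 1 (1 : ℝ) : E3))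
          (EuclideanSpace.single 1 1) 0 := by
        have := ((hasDerivAt_id (0 : ℝ)).smul_const
          (EuclideanSpace.single 1 (1 : ℝ) : E3)).const_add x
        simpa using this
      have hd' : HasFDerivAt (fun x : E3 => mk3 (Circle.exp (x 0)) (x 2))
          (fderiv ℝ (fun x : E3 => mk3 (Circle.exp (x 0)) (x 2)) x)
          (x + (0 : ℝ) • (EuclideanSpace.single 1 (1 : ℝ) : E3)) := by
        simpa using hd
      have h2 := hd'.comp_hasDerivAt (0 : ℝ) hl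
      have h3 : ((fun x : E3 => mk3 (Circle.exp (x 0)) (x 2)) ∘
          fun s : ℝ => x + s • (EuclideanSpace.single 1 (1 : ℝ) : E3)) =
          fun _ => mk3 (Circle.exp (x 0)) (x 2) := by
        funext s
        simp
      rw [h3] at h2
      exact h2.unique (hasDerivAt_const _ _)
    rw [ContinuousLinearMap.comp_apply, ContinuousLinearMap.comp_apply, h1, map_zero]
    have : ∀ a : E3, cross a 0 = 0 := by
      intro a
      ext i
      fin_cases i
      · show a 1 * 0 - a 2 * 0 = 0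
        ring
      · show a 2 * 0 - a 0 * 0 = 0
        ring
      · show a 0 * 0 - a 1 * 0 = 0
        ring
    rw [this, inner_zero_left]
  refine ⟨Z1 ∪ Z2 ∪ Z3, measure_union_null (measure_union_null n1 n2) n3, ?_⟩
  intro w hw z hz hcr
  simp only [mem_union, not_or] at hw
  obtain ⟨⟨w1, w2⟩, w3⟩ := hw
  have hzS : z ∉ S := fun h => w1 (mem_biUnion h hcr)
  have hn := hreg z hz hzS
  have hw' : w = (⟪w, nrm f z⟫ / ‖nrm f z‖ ^ 2) • nrm f z :=
    eq_smul_cross hn (hcr 1) (hcr Complex.I)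
  obtain ⟨t, ht⟩ : ∃ t, t = ⟪w, nrm f z⟫ / ‖nrm f z‖ ^ 2 := ⟨_, rfl⟩
  rw [← ht] at hw'
  have hc : cone f (mk3 z t) = w := by
    unfold cone
    rw [mk3_zc, mk3_two]
    exact hw'.symm
  refine ⟨?_, ?_, hn⟩
  · by_contra hcon
    have hz1 : ‖z‖ = 1 := le_antisymm (mem_closedBall_zero_iff.1 hz)
      (not_lt.1 fun h => hcon (mem_ball_zero_iff.2 h))
    apply w3
    refine ⟨mk3 (⟨z.arg, 0⟩ : ℂ) t, mem_univ _, ?_⟩
    show cone f (mk3 (Circle.exp ((mk3 (⟨z.arg, 0⟩ : ℂ) t) 0)) ((mk3 (⟨z.arg, 0⟩ : ℂ) t) 2)) = w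
    have e0 : (mk3 (⟨z.arg, 0⟩ : ℂ) t) 0 = z.arg := rfl
    rw [e0, mk3_two, Circle.coe_exp]
    have := Complex.norm_mul_exp_arg_mul_I z
    rw [hz1, Complex.ofReal_one, one_mul] at this
    rw [this, hc]
  · intro h0
    apply w2
    refine ⟨mk3 z t, ⟨by rw [mk3_zc]; exact hsub hz, ?_⟩, hc⟩
    rw [cone_det hW hf (by rw [mk3_zc]; exact hsub hz), mk3_zc, mk3_two, ← hdet_smul, ← hw', h0]

/-- A good direction. -/
theorem direction3 (hW : IsOpen W) (hsub : closedBall (0 : ℂ) 1 ⊆ W) (hf : ContDiffOn ℝ ∞ f W)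
    {S : Set ℂ} (hS : S.Countable) (hreg : ∀ z ∈ closedBall (0 : ℂ) 1, z ∉ S → nrm f z ≠ 0)
    (hrank : ∀ z ∈ S, ∃ v, p1 f v z ≠ 0) (m : ℕ)
    (hK : posCurv f < ENNReal.ofReal (4 * Real.pi * (m + 1))) :
    ∃ w : E3, (∀ z ∈ closedBall (0 : ℂ) 1, Crit3 f w z → z ∈ ball (0 : ℂ) 1 ∧ hdet f w z ≠ 0) ∧
      ∀ s : Finset ℂ, (∀ z ∈ s, z ∈ ball (0 : ℂ) 1 ∧ Crit3 f w z ∧ Pos3 f w z) → s.card ≤ m := by
  obtain ⟨c, hc1, hc2, hc3⟩ := counting3 hW hsub hf
  obtain ⟨Z, hZ, hZ2⟩ := sard3 hW hsub hf hS hreg hrank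
  have hex : ∃ w ∈ ball (0 : E3) 1, c w < ((m + 1 : ℕ) : ℝ≥0∞) ∧ w ∉ Z := by
    by_contra hcon
    push Not at hcon
    have h1 : volume (ball (0 : E3) 1) ≤ volume {y | ((m + 1 : ℕ) : ℝ≥0∞) ≤ c y} := by
      calc volume (ball (0 : E3) 1) ≤ volume ({y | ((m + 1 : ℕ) : ℝ≥0∞) ≤ c y} ∪ Z) := by
            refine measure_mono fun y hy => ?_
            by_cases h : c y < ((m + 1 : ℕ) : ℝ≥0∞)
            · exact Or.inr (hcon y hy h)
            · exact Or.inl (not_lt.1 h)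
        _ ≤ _ := by
            refine (measure_union_le _ _).trans ?_
            rw [hZ, add_zero]
    have h2 : ((m + 1 : ℕ) : ℝ≥0∞) * volume {y | ((m + 1 : ℕ) : ℝ≥0∞) ≤ c y} ≤ ∫⁻ y, c y :=
      mul_meas_ge_le_lintegral hc1 _
    rw [hc2] at h2
    have h3 : ENNReal.ofReal (1 / 3) * posCurv f <
        ENNReal.ofReal (1 / 3) * ENNReal.ofReal (4 * Real.pi * (m + 1)) := by
      refine ENNReal.mul_lt_mul_right ?_ ?_ hK
      · simp
      · exact ENNReal.ofReal_ne_top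
    have hvol : volume (ball (0 : E3) 1) = ENNReal.ofReal (Real.pi * 4 / 3) := by
      rw [EuclideanSpace.volume_ball_fin_three]
      simp
    have h4 : ENNReal.ofReal (1 / 3) * ENNReal.ofReal (4 * Real.pi * (m + 1)) =
        ((m + 1 : ℕ) : ℝ≥0∞) * ENNReal.ofReal (Real.pi * 4 / 3) := by
      rw [← ENNReal.ofReal_mul (by norm_num), ← ENNReal.ofReal_natCast,
        ← ENNReal.ofReal_mul (by positivity)]
      congr 1
      push_cast
      ring
    rw [h4, ← hvol] at h3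
    have h5 : ((m + 1 : ℕ) : ℝ≥0∞) * volume (ball (0 : E3) 1) ≤
        ((m + 1 : ℕ) : ℝ≥0∞) * volume {y | ((m + 1 : ℕ) : ℝ≥0∞) ≤ c y} := mul_le_mul_right h1 _
    exact absurd (h5.trans h2) (not_le.mpr h3)
  obtain ⟨w, hw, hwc, hwZ⟩ := hex
  refine ⟨w, fun z hz hcr => ⟨(hZ2 w hwZ z hz hcr).1, (hZ2 w hwZ z hz hcr).2.1⟩, fun s hs => ?_⟩
  have h1 := hc3 w hw s fun z hz => ⟨(hs z hz).1, (hs z hz).2.1, (hs z hz).2.2,
    (hZ2 w hwZ z (ball_subset_closedBall (hs z hz).1) (hs z hz).2.1).2.2⟩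
  have h2 := h1.trans_lt hwc
  have h3 : s.card < m + 1 := by exact_mod_cast h2
  omega

end Pool.Agent.Run7.h836.PC
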