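import Mathlib
import Pool.Agent.Run7.h836.PC.Coll
import Pool.Agent.Run7.h836.PC.Calc

/-!
Properly embedded discs in the half-space which are nowhere vertical along the boundary; the disc with
the collar is a disc which is vertical near the boundary.
-/

set_option autoImplicit false

namespace Pool.Agent.Run7.h836.PC

open scoped ContDiff RealInnerProductSpace ENNReal Topology
open MeasureTheory Set Metric Filter
open Pool.Agent.Y503.RB Pool.Agent.N503.ML Pool.Agent.N15.RC

/-- The tangent plane at `φ z` contains the vertical direction. -/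
def VertAt (φ : ℂ → E4) (z : ℂ) : Prop := ∃ v : ℂ, v ≠ 0 ∧ ∃ s : ℝ, d1 φ v z = s • vert

/-- Smooth disc, properly embedded in the half-space `x₃ ≥ 0`, whose tangent planes along the boundary
are not vertical. -/
structure PropDisc (φ : ℂ → E4) : Prop where
  smooth : ∃ W : Set ℂ, IsOpen W ∧ closedBall 0 1 ⊆ W ∧ ContDiffOn ℝ ∞ φ W
  inj : InjOn φ (closedBall 0 1)
  imm : ∀ z ∈ closedBall (0 : ℂ) 1, Function.Injective (fderiv ℝ φ z)
  inside : ∀ z ∈ ball (0 : ℂ) 1, 0 < φ z 3
  bdry : ∀ z ∈ sphere (0 : ℂ) 1, φ z 3 = 0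
  slant : ∀ z ∈ sphere (0 : ℂ) 1, ¬VertAt φ z

/-- The projection of four-space to the horizontal three-space. -/
noncomputable def pr3 (x : E4) : E3 := !₂[x 0, x 1, x 2]

/-- The projection of four-space to the horizontal three-space, as a linear map. -/
noncomputable def prj : E4 →L[ℝ] E3 := LinearMap.toContinuousLinearMap
  { toFun := pr3
    map_add' := by
      intro x y
      ext i
      fin_cases i <;> simp [pr3]
    map_smul' := by
      intro r x
      ext i
      fin_cases i <;> simp [pr3] }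

/-- The inclusion of the horizontal three-space. -/
noncomputable def upw : E3 →L[ℝ] E4 := LinearMap.toContinuousLinearMap
  { toFun := fun x => !₂[x 0, x 1, x 2, 0]
    map_add' := by
      intro x y
      ext i
      fin_cases i <;> simp
    map_smul' := by
      intro r x
      ext i
      fin_cases i <;> simp }

theorem prj_0 (x : E4) : prj x 0 = x 0 := rfl
theorem prj_1 (x : E4) : prj x 1 = x 1 := rfl
theorem prj_2 (x : E4) : prj x 2 = x 2 := rfl
theorem upw_3 (w : E3) : upw w 3 = 0 := rfl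

theorem inner4 (a b : E4) : ⟪a, b⟫ = a 0 * b 0 + a 1 * b 1 + a 2 * b 2 + a 3 * b 3 := by
  rw [PiLp.inner_apply, Fin.sum_univ_four]
  simp only [RCLike.inner_apply, conj_trivial]
  ring

theorem inner_upw (w : E3) (x : E4) : ⟪upw w, x⟫ = ⟪w, prj x⟫ := by
  rw [inner4, inner3]
  have h0 : upw w 0 = w 0 := rfl
  have h1 : upw w 1 = w 1 := rfl
  have h2 : upw w 2 = w 2 := rfl
  rw [h0, h1, h2, upw_3, prj_0, prj_1, prj_2]
  ring

theorem eq_of_prj {x y : E4} (h : prj x = prj y) (h3 : x 3 = y 3) : x = y := by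
  have h0 := congrArg (fun w : E3 => w 0) h
  have h1 := congrArg (fun w : E3 => w 1) h
  have h2 := congrArg (fun w : E3 => w 2) h
  simp only [prj_0, prj_1, prj_2] at h0 h1 h2
  ext i
  fin_cases i
  · exact h0
  · exact h1
  · exact h2
  · exact h3

theorem prj_vert : prj vert = 0 := by
  ext i
  fin_cases i
  · show vert 0 = 0
    simp [vert]
  · show vert 1 = 0
    simp [vert]
  · show vert 2 = 0
    simp [vert]

theorem prj_zero_iff {x : E4} : prj x = 0 ↔ ∃ s : ℝ, x = s • vert := by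
  constructor
  · intro h
    refine ⟨x 3, eq_of_prj ?_ ?_⟩
    · rw [h, map_smul, prj_vert, smul_zero]
    · show x 3 = x 3 * vert 3
      rw [vert_three, mul_one]
  · rintro ⟨s, rfl⟩
    rw [map_smul, prj_vert, smul_zero]

/-- The projection of a surface to three-space. -/
noncomputable def hor (φ : ℂ → E4) (z : ℂ) : E3 := pr3 (φ z)

theorem hor_smooth {φ : ℂ → E4} {W : Set ℂ} (h : ContDiffOn ℝ ∞ φ W) :
    ContDiffOn ℝ ∞ (hor φ) W := prj.contDiff.comp_contDiffOn h

theorem hor_deriv {φ : ℂ → E4} {z : ℂ} (h : ContDiffAt ℝ ∞ φ z) :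
    fderiv ℝ (hor φ) z = prj.comp (fderiv ℝ φ z) := by
  have hd : HasFDerivAt (hor φ) (prj.comp (fderiv ℝ φ z)) z :=
    prj.hasFDerivAt.comp z (h.differentiableAt (by simp)).hasFDerivAt
  exact hd.fderiv

theorem hor_p1 {φ : ℂ → E4} {z : ℂ} (h : ContDiffAt ℝ ∞ φ z) (v : ℂ) :
    p1 (hor φ) v z = prj (d1 φ v z) := by
  unfold p1
  rw [hor_deriv h]
  rfl

theorem hor_p2 {φ : ℂ → E4} {z : ℂ} {W : Set ℂ} (hW : IsOpen W) (hz : z ∈ W)
    (h : ContDiffOn ℝ ∞ φ W) (u v : ℂ) :
    p2 (hor φ) u v z = prj (d2 φ u v z) := by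
  have h1 : (fun w => fderiv ℝ (hor φ) w v) =ᶠ[𝓝 z] fun w => prj (fderiv ℝ φ w v) := by
    filter_upwards [hW.mem_nhds hz] with w hw
    rw [hor_deriv (h.contDiffAt (hW.mem_nhds hw))]
    rfl
  unfold p2
  rw [h1.fderiv_eq]
  have h2 : ContDiffAt ℝ ∞ φ z := h.contDiffAt (hW.mem_nhds hz)
  have h3 : DifferentiableAt ℝ (fun w => fderiv ℝ φ w v) z :=
    (Pool.Agent.Y640.RB.diffFderiv h2).clm_apply (differentiableAt_const v)
  have h4 : HasFDerivAt (fun w => prj (fderiv ℝ φ w v))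
      (prj.comp (fderiv ℝ (fun w => fderiv ℝ φ w v) z)) z :=
    prj.hasFDerivAt.comp z h3.hasFDerivAt
  rw [h4.fderiv]
  rfl

/-- Non-vertical tangent planes. -/
theorem vertAt_iff {φ : ℂ → E4} {z : ℂ} (h : ContDiffAt ℝ ∞ φ z) :
    VertAt φ z ↔ nrm (hor φ) z = 0 := by
  have hl : ∀ v, prj (d1 φ v z) = v.re • p1 (hor φ) 1 z + v.im • p1 (hor φ) Complex.I z := by
    intro v
    rw [← hor_p1 h v, p1_lin]
  constructor
  · rintro ⟨v, hv, s, hs⟩
    have h1 : prj (d1 φ v z) = 0 := prj_zero_iff.2 ⟨s, hs⟩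
    rw [hl] at h1
    unfold nrm
    rw [← norm_eq_zero, ← pow_eq_zero_iff (two_ne_zero), norm_cross_sq]
    set A := p1 (hor φ) 1 z
    set B := p1 (hor φ) Complex.I z
    have e1 : v.re * ⟪A, A⟫ + v.im * ⟪A, B⟫ = 0 := by
      have := congrArg (fun w => ⟪A, w⟫) h1
      simp only [inner_add_right, real_inner_smul_right, inner_zero_right] at this
      exact this
    have e2 : v.re * ⟪A, B⟫ + v.im * ⟪B, B⟫ = 0 := by
      have := congrArg (fun w => ⟪B, w⟫) h1
      simp only [inner_add_right, real_inner_smul_right, inner_zero_right] at this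
      rw [real_inner_comm A B] at this
      exact this
    by_cases hre : v.re = 0
    · have him : v.im ≠ 0 := fun h0 => hv (Complex.ext hre h0)
      rw [hre, zero_mul, zero_add] at e1 e2
      have e3 := (mul_eq_zero.1 e1).resolve_left him
      have e4 := (mul_eq_zero.1 e2).resolve_left him
      rw [e3, e4]
      ring
    · have : v.re * (⟪A, A⟫ * ⟪B, B⟫ - ⟪A, B⟫ ^ 2) = 0 := by
        linear_combination ⟪B, B⟫ * e1 - ⟪A, B⟫ * e2
      exact (mul_eq_zero.1 this).resolve_left hre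
  · intro h0
    unfold nrm at h0
    have h1 := norm_cross_sq (p1 (hor φ) 1 z) (p1 (hor φ) Complex.I z)
    rw [h0, norm_zero] at h1
    obtain ⟨A, hA⟩ : ∃ A, A = p1 (hor φ) 1 z := ⟨_, rfl⟩
    obtain ⟨B, hB⟩ : ∃ B, B = p1 (hor φ) Complex.I z := ⟨_, rfl⟩
    rw [← hA, ← hB] at h1 hl
    by_cases hB0 : B = 0
    · refine ⟨Complex.I, Complex.I_ne_zero, ?_⟩
      apply prj_zero_iff.1
      rw [hl, hB0]
      simp
    · have hBB : 0 < ⟪B, B⟫ := real_inner_self_pos.2 hB0
      refine ⟨⟨⟪B, B⟫, -⟪A, B⟫⟩, fun h2 => hBB.ne' (congrArg Complex.re h2), ?_⟩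
      apply prj_zero_iff.1
      rw [hl]
      simp only
      have h3 : ‖⟪B, B⟫ • A + (-⟪A, B⟫) • B‖ ^ 2 = 0 := by
        rw [← real_inner_self_eq_norm_sq]
        simp only [inner_add_left, inner_add_right, real_inner_smul_left, real_inner_smul_right]
        rw [real_inner_comm A B]
        linear_combination (-⟪B, B⟫) * h1
      exact norm_eq_zero.1 (pow_eq_zero_iff (two_ne_zero) |>.1 h3)

theorem PropDisc.at {φ : ℂ → E4} (h : PropDisc φ) {z : ℂ} (hz : z ∈ closedBall (0 : ℂ) 1) :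
    ContDiffAt ℝ ∞ φ z := by
  obtain ⟨W, hW, hsub, hs⟩ := h.smooth
  exact hs.contDiffAt (hW.mem_nhds (hsub hz))

theorem PropDisc.patch {φ : ℂ → E4} (h : PropDisc φ) : IPatch φ (ball 0 1) := by
  obtain ⟨W, hW, hsub, hs⟩ := h.smooth
  exact ⟨isOpen_ball, hs.mono (ball_subset_closedBall.trans hsub),
    fun z hz => h.imm z (ball_subset_closedBall hz)⟩

theorem PropDisc.cont {φ : ℂ → E4} (h : PropDisc φ) : ContinuousOn φ (closedBall 0 1) := by
  obtain ⟨W, hW, hsub, hs⟩ := h.smooth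
  exact hs.continuousOn.mono hsub

theorem PropDisc.nonneg {φ : ℂ → E4} (h : PropDisc φ) {z : ℂ} (hz : z ∈ closedBall (0 : ℂ) 1) :
    0 ≤ φ z 3 := by
  rcases (mem_closedBall_zero_iff.1 hz).lt_or_eq with h1 | h1
  · exact (h.inside z (mem_ball_zero_iff.2 h1)).le
  · exact (h.bdry z (mem_sphere_zero_iff_norm.2 h1)).ge

/-- Near the boundary there are no vertical tangent planes. -/
theorem nonvert_annulus {φ : ℂ → E4} (h : PropDisc φ) :
    ∃ a < 1, ∀ z : ℂ, a ≤ ‖z‖ → ‖z‖ ≤ 1 → ¬VertAt φ z := by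
  obtain ⟨W, hW, hsub, hs⟩ := h.smooth
  have hc : ContinuousOn (nrm (hor φ)) (closedBall 0 1) :=
    (cd_nrm hW (hor_smooth hs)).continuousOn.mono hsub
  set V : Set ℂ := closedBall 0 1 ∩ nrm (hor φ) ⁻¹' {0} with hV
  have hVc : IsCompact V := (isCompact_closedBall (0 : ℂ) 1).of_isClosed_subset
    (hc.preimage_isClosed_of_isClosed isClosed_closedBall isClosed_singleton) inter_subset_left
  rcases V.eq_empty_or_nonempty with he | hne
  · refine ⟨0, one_pos, fun z _ hz hv => ?_⟩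
    have hzc : z ∈ closedBall (0 : ℂ) 1 := mem_closedBall_zero_iff.2 hz
    have : z ∈ V := ⟨hzc, (vertAt_iff (h.at hzc)).1 hv⟩
    rw [he] at this
    exact this
  · obtain ⟨z₀, hz₀, hmax⟩ := hVc.exists_isMaxOn hne continuous_norm.continuousOn
    have h1 : ‖z₀‖ < 1 := by
      by_contra hcon
      have h2 : ‖z₀‖ = 1 := le_antisymm (mem_closedBall_zero_iff.1 hz₀.1) (not_lt.1 hcon)
      exact h.slant z₀ (mem_sphere_zero_iff_norm.2 h2) ((vertAt_iff (h.at hz₀.1)).2 hz₀.2)
    refine ⟨(1 + ‖z₀‖) / 2, by linarith, fun z hz1 hz hv => ?_⟩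
    have hzc : z ∈ closedBall (0 : ℂ) 1 := mem_closedBall_zero_iff.2 hz
    have h3 : ‖z‖ ≤ ‖z₀‖ := hmax (⟨hzc, (vertAt_iff (h.at hzc)).1 hv⟩ : z ∈ V)
    linarith

/-- Near the boundary, the disc is below of its other parts. -/
theorem low_annulus {φ : ℂ → E4} (h : PropDisc φ) :
    ∃ a < 1, ∀ p p' : ℂ, a ≤ ‖p‖ → ‖p‖ ≤ 1 → ‖p'‖ < ‖p‖ → prj (φ p) = prj (φ p') →
      φ p 3 < φ p' 3 := by
  by_contra hcon
  push Not at hcon
  have hseq : ∀ n : ℕ, ∃ p p' : ℂ, 1 - 1 / ((n : ℝ) + 1) ≤ ‖p‖ ∧ ‖p‖ ≤ 1 ∧ ‖p'‖ < ‖p‖ ∧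
      prj (φ p) = prj (φ p') ∧ φ p' 3 ≤ φ p 3 := by
    intro n
    obtain ⟨p, p', h1, h2, h3, h4, h5⟩ := hcon (1 - 1 / ((n : ℝ) + 1)) (by
      have : 0 < 1 / ((n : ℝ) + 1) := by positivity
      linarith)
    exact ⟨p, p', h1, h2, h3, h4, h5⟩
  choose p q h1 h2 h3 h4 h5 using hseq
  have hmem : ∀ n, (p n, q n) ∈ closedBall (0 : ℂ) 1 ×ˢ closedBall (0 : ℂ) 1 := fun n =>
    ⟨mem_closedBall_zero_iff.2 (h2 n), mem_closedBall_zero_iff.2 ((h3 n).le.trans (h2 n))⟩
  obtain ⟨⟨P, Q⟩, hPQ, σ, hσ, hlim⟩ := ((isCompact_closedBall (0 : ℂ) 1).prod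
    (isCompact_closedBall (0 : ℂ) 1)).tendsto_subseq hmem
  have hP : Tendsto (fun n => p (σ n)) atTop (𝓝 P) := (continuous_fst.tendsto _).comp hlim
  have hQ : Tendsto (fun n => q (σ n)) atTop (𝓝 Q) := (continuous_snd.tendsto _).comp hlim
  have hPc : P ∈ closedBall (0 : ℂ) 1 := hPQ.1
  have hQc : Q ∈ closedBall (0 : ℂ) 1 := hPQ.2
  have cP : Tendsto (fun n => φ (p (σ n))) atTop (𝓝 (φ P)) :=
    ((h.at hPc).continuousAt.tendsto).comp hP
  have cQ : Tendsto (fun n => φ (q (σ n))) atTop (𝓝 (φ Q)) :=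
    ((h.at hQc).continuousAt.tendsto).comp hQ
  have hPn : ‖P‖ = 1 := by
    refine le_antisymm (mem_closedBall_zero_iff.1 hPc) ?_
    have l1 : Tendsto (fun n : ℕ => 1 - 1 / (((σ n : ℕ) : ℝ) + 1)) atTop (𝓝 (1 - 0)) :=
      tendsto_const_nhds.sub (tendsto_one_div_add_atTop_nhds_zero_nat.comp hσ.tendsto_atTop)
    rw [sub_zero] at l1
    exact le_of_tendsto_of_tendsto' l1 hP.norm fun n => h1 (σ n)
  have hprj : prj (φ P) = prj (φ Q) := by
    have l1 : Tendsto (fun n => prj (φ (p (σ n)))) atTop (𝓝 (prj (φ P))) :=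
      (prj.continuous.tendsto _).comp cP
    have l2 : Tendsto (fun n => prj (φ (q (σ n)))) atTop (𝓝 (prj (φ Q))) :=
      (prj.continuous.tendsto _).comp cQ
    have l3 : (fun n => prj (φ (p (σ n)))) = fun n => prj (φ (q (σ n))) :=
      funext fun n => h4 (σ n)
    rw [l3] at l1
    exact tendsto_nhds_unique l1 l2
  have h3c : Continuous fun x : E4 => x 3 := by fun_prop
  have hle : φ Q 3 ≤ φ P 3 :=
    le_of_tendsto_of_tendsto' ((h3c.tendsto _).comp cQ) ((h3c.tendsto _).comp cP)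
      fun n => h5 (σ n)
  have hP3 := h.bdry P (mem_sphere_zero_iff_norm.2 hPn)
  have hQ3 : φ Q 3 = 0 := le_antisymm (hle.trans hP3.le) (h.nonneg hQc)
  have hPQe : P = Q := h.inj hPc hQc (eq_of_prj hprj (hP3.trans hQ3.symm))
  -- strict differentiability of the projection
  have hns := h.slant P (mem_sphere_zero_iff_norm.2 hPn)
  have hfP : ContDiffAt ℝ ∞ (hor φ) P := prj.contDiff.contDiffAt.comp P (h.at hPc)
  have hf1 : ContDiffAt ℝ 1 (hor φ) P := hfP.of_le (by exact_mod_cast le_top)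
  have hst : HasStrictFDerivAt (hor φ) (fderiv ℝ (hor φ) P) P := hf1.hasStrictFDerivAt (by norm_num)
  set A := fderiv ℝ (hor φ) P with hAd
  have hinj : LinearMap.ker (A : ℂ →ₗ[ℝ] E3) = ⊥ := by
    rw [LinearMap.ker_eq_bot']
    intro v hv
    by_contra hv0
    apply hns
    refine ⟨v, hv0, prj_zero_iff.1 ?_⟩
    rw [← hor_p1 (h.at hPc)]
    exact hv
  obtain ⟨K, hK0, hK⟩ := LinearMap.exists_antilipschitzWith (A : ℂ →ₗ[ℝ] E3) hinj
  have hlo := hst.isLittleO
  have hpos : (0 : ℝ) < 1 / (2 * K) := by positivity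
  have hev := hlo.def hpos
  have hpair : Tendsto (fun n => (p (σ n), q (σ n))) atTop (𝓝 (P, P)) := by
    have : Tendsto (fun n => (p (σ n), q (σ n))) atTop (𝓝 (P, Q)) := hlim
    rwa [← hPQe] at this
  obtain ⟨n, hn⟩ := (hpair.eventually hev).exists
  have e1 : hor φ (p (σ n)) - hor φ (q (σ n)) = 0 := by
    rw [sub_eq_zero]
    exact h4 (σ n)
  simp only [e1, zero_sub, norm_neg] at hn
  have e2 := hK.le_mul_dist (p (σ n) - q (σ n)) 0
  rw [dist_zero_right] at e2
  have e3 : dist ((A : ℂ →ₗ[ℝ] E3) (p (σ n) - q (σ n))) ((A : ℂ →ₗ[ℝ] E3) 0) =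
      ‖A (p (σ n) - q (σ n))‖ := by
    rw [map_zero, dist_zero_right]
    rfl
  rw [e3] at e2
  have hKp : (0 : ℝ) < K := hK0
  have e4 : ‖p (σ n) - q (σ n)‖ ≤ 1 / 2 * ‖p (σ n) - q (σ n)‖ := by
    calc ‖p (σ n) - q (σ n)‖ ≤ K * ‖A (p (σ n) - q (σ n))‖ := e2
      _ ≤ K * (1 / (2 * K) * ‖p (σ n) - q (σ n)‖) := mul_le_mul_of_nonneg_left hn hKp.le
      _ = 1 / 2 * ‖p (σ n) - q (σ n)‖ := by field_simp
  have e5 : ‖p (σ n) - q (σ n)‖ = 0 := le_antisymm (by linarith) (norm_nonneg _)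
  have e6 : p (σ n) = q (σ n) := sub_eq_zero.1 (norm_eq_zero.1 e5)
  have := h3 (σ n)
  rw [e6] at this
  exact lt_irrefl _ this

/-- The disc with the collar. -/
theorem half_cdisc {φ : ℂ → E4} (h : PropDisc φ) {a b c : ℝ} (ha : 0 < a) (hab : a < b) (hb : b < 1)
    (hc : 0 < c) (hnv : ∀ z : ℂ, a ≤ ‖z‖ → ‖z‖ ≤ 1 → ¬VertAt φ z)
    (hlow : ∀ p p' : ℂ, a ≤ ‖p‖ → ‖p‖ ≤ 1 → ‖p'‖ < ‖p‖ → prj (φ p) = prj (φ p') →
      φ p 3 < φ p' 3) :
    HalfDisc (cdisc φ a b c) ∧ ∀ z ∈ sphere (0 : ℂ) 1, cdisc φ a b c z = φ z := by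
  obtain ⟨W, hW, hsub, hs⟩ := h.smooth
  have hsm := cdisc_smooth (c := c) hW hsub hs ha hab hb
  have h3 : ∀ z, cdisc φ a b c z 3 = φ (hatz b z) 3 + kap a b c ‖z‖ := by
    intro z
    show φ (hatz b z) 3 + kap a b c ‖z‖ * vert 3 = _
    rw [vert_three, mul_one]
  have hp : ∀ z, prj (cdisc φ a b c z) = prj (φ (hatz b z)) := by
    intro z
    unfold cdisc
    rw [map_add, map_smul, prj_vert, smul_zero, add_zero]
  have hbd : ∀ z ∈ sphere (0 : ℂ) 1, cdisc φ a b c z = φ z := by
    intro z hz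
    have hz1 := mem_sphere_zero_iff_norm.1 hz
    unfold cdisc
    rw [hatz_outer hb (by rw [hz1]; linarith), hz1, kap_outer hab hb.le hb.le]
    simp
  have key : ∀ z ∈ closedBall (0 : ℂ) 1, ∀ z' ∈ closedBall (0 : ℂ) 1, ‖z'‖ ≤ ‖z‖ →
      cdisc φ a b c z = cdisc φ a b c z' → z = z' := by
    intro z hz z' hz' hle heq
    have hz1 := mem_closedBall_zero_iff.1 hz
    have hz1' := mem_closedBall_zero_iff.1 hz'
    have e1 : prj (φ (hatz b z)) = prj (φ (hatz b z')) := by
      rw [← hp, ← hp, heq]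
    have e2 : φ (hatz b z) 3 + kap a b c ‖z‖ = φ (hatz b z') 3 + kap a b c ‖z'‖ := by
      rw [← h3, ← h3, heq]
    by_cases hza : ‖z‖ ≤ a
    · -- inside
      have hza' := hle.trans hza
      rw [kap_inner hab hza, kap_inner hab hza', hatz_inner hb (hza.trans hab.le),
        hatz_inner hb (hza'.trans hab.le)] at e2
      rw [hatz_inner hb (hza.trans hab.le), hatz_inner hb (hza'.trans hab.le)] at e1
      exact h.inj hz hz' (eq_of_prj e1 (by linarith))
    · push Not at hza
      have hz0 : z ≠ 0 := by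
        rintro rfl
        rw [norm_zero] at hza
        linarith
      have hk : kap a b c ‖z‖ ≤ kap a b c ‖z'‖ := kap_anti hab hc hle
      have hm : ‖hatz b z'‖ ≤ ‖hatz b z‖ := by
        rw [norm_hatz hb hz0]
        by_cases hz0' : z' = 0
        · rw [hz0']
          have : ‖hatz b 0‖ = 0 := by simp [hatz]
          rw [this]
          exact rho_nonneg hb (norm_nonneg _)
        · rw [norm_hatz hb hz0']
          exact rho_mono hb hle hz1
      have ha1 : a ≤ ‖hatz b z‖ := by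
        rw [norm_hatz hb hz0]
        exact hza.le.trans (rho_ge hz1)
      have ha2 := mem_closedBall_zero_iff.1 (hatz_mem hb z)
      rcases hm.lt_or_eq with hlt | hme
      · have := hlow _ _ ha1 ha2 hlt e1
        linarith
      · -- equal radii
        have hz0' : z' ≠ 0 := by
          rintro rfl
          have : ‖hatz b 0‖ = 0 := by simp [hatz]
          rw [this] at hme
          linarith
        have hne : ‖z‖ = ‖z'‖ := by
          rcases hle.lt_or_eq with hlt | h'
          · exfalso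
            rw [norm_hatz hb hz0, norm_hatz hb hz0'] at hme
            have hbig : (1 + b) / 2 ≤ ‖z'‖ := by
              by_contra hcon
              push Not at hcon
              have h5 : rho b ‖z'‖ < rho b (min ‖z‖ ((1 + b) / 2)) :=
                rho_strict hb hcon.le (mem_Iic.2 (min_le_right _ _)) (lt_min hlt hcon)
              have h6 : rho b (min ‖z‖ ((1 + b) / 2)) ≤ rho b ‖z‖ :=
                rho_mono hb (min_le_left _ _) hz1
              linarith
            rw [hatz_outer hb hbig, hatz_outer hb (hbig.trans hle)] at e2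
            have s1 : ∀ w : ℂ, w ≠ 0 → ‖w‖⁻¹ • w ∈ sphere (0 : ℂ) 1 := fun w hw => by
              rw [mem_sphere_zero_iff_norm, norm_smul, norm_inv, norm_norm,
                inv_mul_cancel₀ (norm_ne_zero_iff.2 hw)]
            rw [h.bdry _ (s1 z hz0), h.bdry _ (s1 z' hz0'),
              kap_outer hab hb.le (by linarith), kap_outer hab hb.le (by linarith)] at e2
            have : c * ‖z‖ = c * ‖z'‖ := by linarith
            exact hlt.ne' (mul_left_cancel₀ hc.ne' this)
          · exact h'.symm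
        rw [hne] at e2
        have e3 : hatz b z = hatz b z' :=
          h.inj (hatz_mem hb z) (hatz_mem hb z') (eq_of_prj e1 (by linarith))
        unfold hatz at e3
        rw [hne] at e3
        have hpos : rho b ‖z'‖ / ‖z'‖ ≠ 0 := by
          have := rho_pos hb (norm_pos_iff.2 hz0')
          have h8 := norm_pos_iff.2 hz0'
          positivity
        exact smul_right_injective ℂ hpos e3
  refine ⟨⟨⟨univ, isOpen_univ, subset_univ _, fun z _ => (hsm z).contDiffWithinAt⟩, ?_, ?_, ?_, ?_,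
    ?_⟩, hbd⟩
  · intro z hz z' hz' heq
    rcases le_total ‖z'‖ ‖z‖ with hle | hle
    · exact key z hz z' hz' hle heq
    · exact (key z' hz' z hz hle heq.symm).symm
  · -- immersion
    intro z hz
    have hz1 := mem_closedBall_zero_iff.1 hz
    by_cases hza : ‖z‖ < a
    · have h1 : cdisc φ a b c =ᶠ[𝓝 z] fun z => φ z + kap a b c a • vert := by
        filter_upwards [isOpen_ball.mem_nhds (mem_ball_zero_iff.2 hza)] with w hw
        exact cdisc_inner hab hb (mem_ball_zero_iff.1 hw).le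
      rw [h1.fderiv_eq, fderiv_add_const]
      exact h.imm z hz
    · push Not at hza
      have hz0 : z ≠ 0 := by
        rintro rfl
        rw [norm_zero] at hza
        linarith
      rw [injective_iff_map_eq_zero]
      intro v hv
      have hn : 0 < ‖z‖ := norm_pos_iff.2 hz0
      obtain ⟨α, hα⟩ : ∃ α, α = (v / z).re := ⟨_, rfl⟩
      obtain ⟨β, hβ⟩ : ∃ β, β = (v / z).im := ⟨_, rfl⟩
      have hvd : v = α • z + β • (Complex.I * z) := by
        rw [hα, hβ]
        exact dir_eq hz0 v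
      have hv2 : d1 (cdisc φ a b c) v z = 0 := hv
      rw [hvd, d1_comb, cdisc_radial hW hsub hs ha hab hb hz0,
        cdisc_tang hW hsub hs ha hab hb z] at hv2
      have hpr := congrArg prj hv2
      simp only [map_add, map_smul, prj_vert, smul_zero, add_zero, map_zero] at hpr
      have ha1 : a ≤ ‖hatz b z‖ := by
        rw [norm_hatz hb hz0]
        exact hza.trans (rho_ge hz1)
      have hnv' := hnv _ ha1 (mem_closedBall_zero_iff.1 (hatz_mem hb z))
      have hu : (α * deriv (rho b) ‖z‖) • z + (β * (rho b ‖z‖ / ‖z‖)) • (Complex.I * z) = 0 := by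
        by_contra hne
        apply hnv'
        refine ⟨_, hne, prj_zero_iff.1 ?_⟩
        rw [d1_comb, map_add, map_smul, map_smul, ← hpr, smul_smul, smul_smul]
      have hu2 := congrArg (fun w => w / z) hu
      simp only [zero_div, Complex.real_smul, add_div] at hu2
      have e1 : ((α * deriv (rho b) ‖z‖ : ℝ) : ℂ) * z / z = ((α * deriv (rho b) ‖z‖ : ℝ) : ℂ) :=
        mul_div_cancel_right₀ _ hz0
      have e2 : ((β * (rho b ‖z‖ / ‖z‖) : ℝ) : ℂ) * (Complex.I * z) / z =
          ((β * (rho b ‖z‖ / ‖z‖) : ℝ) : ℂ) * Complex.I := by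
        rw [← mul_assoc]
        exact mul_div_cancel_right₀ _ hz0
      rw [e1, e2] at hu2
      have g1 := congrArg Complex.re hu2
      have g2 := congrArg Complex.im hu2
      simp at g1 g2
      have hβ0 : β = 0 := by
        rcases g2 with h' | h' | h'
        · exact h'
        · exact absurd h' (rho_pos hb hn).ne'
        · exact absurd h' hz0
      have hα0 : α = 0 := by
        by_contra hα0
        have hd0 : deriv (rho b) ‖z‖ = 0 := g1.resolve_left hα0
        have hbig : (1 + b) / 2 ≤ ‖z‖ := by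
          by_contra hcon
          push Not at hcon
          exact (rho_deriv_pos hb hcon).ne' hd0
        rw [hβ0, hd0, zero_smul, zero_smul, zero_add, add_zero, smul_smul] at hv2
        have h9 := congrArg (fun w : E4 => w 3) hv2
        have h10 : (((α * (-(c * stp ((‖z‖ - a) / (b - a))) * ‖z‖)) • vert : E4)) 3 =
          (α * (-(c * stp ((‖z‖ - a) / (b - a))) * ‖z‖)) * vert 3 := rfl
        have h11 : (0 : E4) 3 = 0 := rfl
        simp only [h10, h11, vert_three, mul_one] at h9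
        rw [stp_one (by rw [le_div_iff₀ (by linarith)]; linarith)] at h9
        have : α * (-(c * 1) * ‖z‖) ≠ 0 := by
          apply mul_ne_zero hα0
          have : 0 < c * 1 * ‖z‖ := by positivity
          linarith
        exact this h9
      rw [hvd, hα0, hβ0]
      simp
  · intro z hz
    rw [h3]
    have h1 := h.nonneg (hatz_mem hb z)
    have h2 := kap_pos (a := a) hab hb hc (mem_ball_zero_iff.1 hz)
    linarith
  · intro z hz
    rw [hbd z hz]
    exact h.bdry z hz
  · refine ⟨(1 - b) / 2, c, by linarith, by linarith, hc, ?_⟩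
    intro z h1 h2
    have h1' : (1 + b) / 2 ≤ ‖z‖ := by linarith
    have hz0 : z ≠ 0 := by
      rintro rfl
      rw [norm_zero] at h1'
      linarith
    have s1 : ‖z‖⁻¹ • z ∈ sphere (0 : ℂ) 1 := by
      rw [mem_sphere_zero_iff_norm, norm_smul, norm_inv, norm_norm,
        inv_mul_cancel₀ (norm_ne_zero_iff.2 hz0)]
    rw [hbd _ s1]
    unfold cdisc
    rw [hatz_outer hb h1', kap_outer hab hb.le (by linarith)]

end Pool.Agent.Run7.h836.PC
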