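import Mathlib
import Pool.Agent.Run7.h836.PC.Prop

/-!
Critical points of linear functions close to a given one.
-/

set_option autoImplicit false

namespace Pool.Agent.Run7.h836.PC

open scoped ContDiff RealInnerProductSpace ENNReal Topology
open MeasureTheory Set Metric Filter
open Pool.Agent.Y503.RB Pool.Agent.N503.ML Pool.Agent.N15.RC

/-- `z` is a critical point of the function `⟪y, φ⟫`. -/
def Crit (φ : ℂ → E4) (y : E4) (z : ℂ) : Prop := ∀ v : ℂ, ⟪y, d1 φ v z⟫ = 0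

/-- The Hessian of the function `⟪y, φ⟫` at the critical point `z` is positive definite. -/
def Pos (φ : ℂ → E4) (y : E4) (z : ℂ) : Prop := 0 < sff φ y 1 1 z ∧ 0 < kdet φ y z

variable {φ : ℂ → E4} {W : Set ℂ}

theorem crit_dir {y : E4} {z : ℂ} (hz : z ≠ 0) (h1 : ⟪y, d1 φ z z⟫ = 0)
    (h2 : ⟪y, d1 φ (Complex.I * z) z⟫ = 0) : Crit φ y z := by
  intro v
  rw [dir_eq hz v, d1_comb, inner_add_right, real_inner_smul_right, real_inner_smul_right, h1, h2]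
  ring

theorem tend_d1 (hW : IsOpen W) (hs : ContDiffOn ℝ ∞ φ W) {Y : ℕ → E4} {Z : ℕ → ℂ} {y : E4} {z : ℂ}
    (hz : z ∈ W) (hY : Tendsto Y atTop (𝓝 y)) (hZ : Tendsto Z atTop (𝓝 z)) (v : ℂ) :
    Tendsto (fun n => ⟪Y n, d1 φ v (Z n)⟫) atTop (𝓝 ⟪y, d1 φ v z⟫) := by
  have h1 : ContinuousAt (fun z => d1 φ v z) z := (c1 hW hs v).continuousAt (hW.mem_nhds hz)
  exact hY.inner (h1.tendsto.comp hZ)

theorem tend_sff (hW : IsOpen W) (hs : ContDiffOn ℝ ∞ φ W) {Y : ℕ → E4} {Z : ℕ → ℂ} {y : E4} {z : ℂ}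
    (hz : z ∈ W) (hY : Tendsto Y atTop (𝓝 y)) (hZ : Tendsto Z atTop (𝓝 z)) (u v : ℂ) :
    Tendsto (fun n => sff φ (Y n) u v (Z n)) atTop (𝓝 (sff φ y u v z)) := by
  have h1 : ContinuousAt (fun z => d2 φ u v z) z := (c2 hW hs u v).continuousAt (hW.mem_nhds hz)
  exact hY.inner (h1.tendsto.comp hZ)

theorem tend_kdet (hW : IsOpen W) (hs : ContDiffOn ℝ ∞ φ W) {Y : ℕ → E4} {Z : ℕ → ℂ} {y : E4}
    {z : ℂ} (hz : z ∈ W) (hY : Tendsto Y atTop (𝓝 y)) (hZ : Tendsto Z atTop (𝓝 z)) :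
    Tendsto (fun n => kdet φ (Y n) (Z n)) atTop (𝓝 (kdet φ y z)) := by
  unfold kdet
  exact ((tend_sff hW hs hz hY hZ 1 1).mul (tend_sff hW hs hz hY hZ Complex.I Complex.I)).sub
    ((tend_sff hW hs hz hY hZ 1 Complex.I).pow 2)

/-- No critical points near the boundary. -/
theorem crit_annulus (hW : IsOpen W) (hsub : closedBall (0 : ℂ) 1 ⊆ W) (hs : ContDiffOn ℝ ∞ φ W)
    {y0 : E4} (h0 : ∀ z ∈ sphere (0 : ℂ) 1, ¬Crit φ y0 z) :
    ∃ a < 1, ∃ δ > 0, ∀ y : E4, ‖y - y0‖ ≤ δ → ∀ z : ℂ, a ≤ ‖z‖ → ‖z‖ ≤ 1 → ¬Crit φ y z := by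
  by_contra hcon
  push Not at hcon
  have hseq : ∀ n : ℕ, ∃ (y : E4) (z : ℂ), ‖y - y0‖ ≤ 1 / ((n : ℝ) + 1) ∧
      1 - 1 / ((n : ℝ) + 1) ≤ ‖z‖ ∧ ‖z‖ ≤ 1 ∧ Crit φ y z := by
    intro n
    have hn : 0 < 1 / ((n : ℝ) + 1) := by positivity
    obtain ⟨y, h1, z, h2, h3, h4⟩ := hcon (1 - 1 / ((n : ℝ) + 1)) (by linarith)
      (1 / ((n : ℝ) + 1)) hn
    exact ⟨y, z, h1, h2, h3, h4⟩
  choose Y Z h1 h2 h3 h4 using hseq
  obtain ⟨z, hz, σ, hσ, hlim⟩ := (isCompact_closedBall (0 : ℂ) 1).tendsto_subseq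
    (fun n => mem_closedBall_zero_iff.2 (h3 n))
  have l0 : Tendsto (fun n : ℕ => 1 / (((σ n : ℕ) : ℝ) + 1)) atTop (𝓝 0) :=
    tendsto_one_div_add_atTop_nhds_zero_nat.comp hσ.tendsto_atTop
  have hY : Tendsto (fun n => Y (σ n)) atTop (𝓝 y0) := by
    rw [tendsto_iff_norm_sub_tendsto_zero]
    exact squeeze_zero (fun n => norm_nonneg _) (fun n => h1 (σ n)) l0
  have hZ : Tendsto (fun n => Z (σ n)) atTop (𝓝 z) := hlim
  have hz1 : ‖z‖ = 1 := by
    refine le_antisymm (mem_closedBall_zero_iff.1 hz) ?_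
    have l1 : Tendsto (fun n : ℕ => 1 - 1 / (((σ n : ℕ) : ℝ) + 1)) atTop (𝓝 (1 - 0)) :=
      tendsto_const_nhds.sub l0
    rw [sub_zero] at l1
    exact le_of_tendsto_of_tendsto' l1 hZ.norm fun n => h2 (σ n)
  refine h0 z (mem_sphere_zero_iff_norm.2 hz1) fun v => ?_
  have l2 := tend_d1 hW hs (hsub hz) hY hZ v
  have l3 : (fun n => ⟪Y (σ n), d1 φ v (Z (σ n))⟫) = fun _ => (0 : ℝ) :=
    funext fun n => h4 (σ n) v
  rw [l3] at l2
  exact tendsto_nhds_unique l2 tendsto_const_nhds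

/-- The number of critical points with positive definite Hessian is upper semicontinuous. -/
theorem count_stable (hW : IsOpen W) (hsub : closedBall (0 : ℂ) 1 ⊆ W) (hs : ContDiffOn ℝ ∞ φ W)
    {y0 : E4} {m : ℕ}
    (hcr : ∀ z ∈ closedBall (0 : ℂ) 1, Crit φ y0 z → z ∈ ball (0 : ℂ) 1 ∧ kdet φ y0 z ≠ 0)
    (hcount : ∀ s : Finset ℂ, (∀ z ∈ s, z ∈ ball (0 : ℂ) 1 ∧ Crit φ y0 z ∧ Pos φ y0 z) →
      s.card ≤ m) :
    ∃ δ > 0, ∀ y : E4, ‖y - y0‖ ≤ δ → ∀ s : Finset ℂ,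
      (∀ z ∈ s, z ∈ closedBall (0 : ℂ) 1 ∧ Crit φ y z ∧ Pos φ y z) → s.card ≤ m := by
  by_contra hcon
  push Not at hcon
  have hseq : ∀ n : ℕ, ∃ (y : E4) (g : Fin (m + 1) → ℂ), ‖y - y0‖ ≤ 1 / ((n : ℝ) + 1) ∧
      Function.Injective g ∧ ∀ i, g i ∈ closedBall (0 : ℂ) 1 ∧ Crit φ y (g i) ∧ Pos φ y (g i) := by
    intro n
    have hn : 0 < 1 / ((n : ℝ) + 1) := by positivity
    obtain ⟨y, h1, s, h2, h3⟩ := hcon (1 / ((n : ℝ) + 1)) hn
    obtain ⟨t, ht, htc⟩ := Finset.exists_subset_card_eq (Nat.succ_le_of_lt h3)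
    have e : Fin (m + 1) ≃ t := (t.equivFinOfCardEq htc).symm
    exact ⟨y, fun i => e i, h1, fun i j hij => e.injective (Subtype.ext hij),
      fun i => h2 _ (ht (e i).2)⟩
  choose Y g h1 h2 h3 using hseq
  obtain ⟨G, hG, σ, hσ, hlim⟩ := (isCompact_univ_pi (fun _ : Fin (m + 1) =>
    isCompact_closedBall (0 : ℂ) 1)).tendsto_subseq (fun n => fun i _ => (h3 n i).1)
  have l0 : Tendsto (fun n : ℕ => 1 / (((σ n : ℕ) : ℝ) + 1)) atTop (𝓝 0) :=
    tendsto_one_div_add_atTop_nhds_zero_nat.comp hσ.tendsto_atTop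
  have hY : Tendsto (fun n => Y (σ n)) atTop (𝓝 y0) := by
    rw [tendsto_iff_norm_sub_tendsto_zero]
    exact squeeze_zero (fun n => norm_nonneg _) (fun n => h1 (σ n)) l0
  have hZ : ∀ i, Tendsto (fun n => g (σ n) i) atTop (𝓝 (G i)) := fun i =>
    (tendsto_pi_nhds.1 hlim) i
  have hGc : ∀ i, G i ∈ closedBall (0 : ℂ) 1 := fun i => hG i (mem_univ i)
  have hcrit : ∀ i, Crit φ y0 (G i) := by
    intro i v
    have l2 := tend_d1 hW hs (hsub (hGc i)) hY (hZ i) v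
    have l3 : (fun n => ⟪Y (σ n), d1 φ v (g (σ n) i)⟫) = fun _ => (0 : ℝ) :=
      funext fun n => (h3 (σ n) i).2.1 v
    rw [l3] at l2
    exact tendsto_nhds_unique l2 tendsto_const_nhds
  have hpos : ∀ i, Pos φ y0 (G i) := by
    intro i
    have k1 : 0 ≤ sff φ y0 1 1 (G i) :=
      ge_of_tendsto' (tend_sff hW hs (hsub (hGc i)) hY (hZ i) 1 1) fun n => (h3 (σ n) i).2.2.1.le
    have k2 : 0 ≤ kdet φ y0 (G i) :=
      ge_of_tendsto' (tend_kdet hW hs (hsub (hGc i)) hY (hZ i)) fun n => (h3 (σ n) i).2.2.2.le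
    have k3 : 0 < kdet φ y0 (G i) := lt_of_le_of_ne k2 (hcr _ (hGc i) (hcrit i)).2.symm
    refine ⟨lt_of_le_of_ne k1 fun h0 => ?_, k3⟩
    unfold kdet at k3
    rw [← h0, zero_mul] at k3
    nlinarith [sq_nonneg (sff φ y0 1 Complex.I (G i))]
  have hinj : Function.Injective G := by
    intro i j hij
    by_contra hne
    -- near `(y0, G i)` the Hessian is positive definite
    have hzW : W ∈ 𝓝 (G i) := hW.mem_nhds (hsub (hGc i))
    have k2 : ∀ u v : ℂ, ContinuousAt (fun q : E4 × ℂ => sff φ q.1 u v q.2) (y0, G i) := by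
      intro u v
      have : ContinuousAt (fun z => d2 φ u v z) (G i) := (c2 hW hs u v).continuousAt hzW
      exact continuousAt_fst.inner (ContinuousAt.comp (x := (y0, G i))
        (g := fun z => d2 φ u v z) (f := fun q : E4 × ℂ => q.2) this continuousAt_snd)
    have k3 : ContinuousAt (fun q : E4 × ℂ => kdet φ q.1 q.2) (y0, G i) := by
      unfold kdet
      exact ((k2 1 1).mul (k2 Complex.I Complex.I)).sub ((k2 1 Complex.I).pow 2)
    have ksnd : ∀ᶠ q : E4 × ℂ in 𝓝 (y0, G i), q.2 ∈ W :=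
      (continuous_snd.tendsto (y0, G i)).eventually hzW
    have hev := (((k2 1 1).eventually (lt_mem_nhds (hpos i).1)).and
      (k3.eventually (lt_mem_nhds (hpos i).2))).and ksnd
    obtain ⟨ε, hε, hb⟩ := Metric.eventually_nhds_iff.1 hev
    have hball : ∀ (p : E4), ‖p - y0‖ < ε → ∀ z ∈ ball (G i) ε,
        (0 < sff φ p 1 1 z ∧ 0 < kdet φ p z) ∧ z ∈ W := by
      intro p hp z hz
      have hd : dist (p, z) (y0, G i) < ε := by
        rw [Prod.dist_eq, max_lt_iff]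
        exact ⟨by rw [dist_eq_norm]; exact hp, hz⟩
      obtain ⟨⟨a1, a2⟩, a3⟩ := hb hd
      exact ⟨⟨a1, a2⟩, a3⟩
    have e1 : ∀ᶠ n in atTop, ‖Y (σ n) - y0‖ < ε := by
      have := (tendsto_iff_norm_sub_tendsto_zero.1 hY).eventually (gt_mem_nhds hε)
      exact this
    have e2 : ∀ᶠ n in atTop, g (σ n) i ∈ ball (G i) ε := (hZ i).eventually (ball_mem_nhds _ hε)
    have e3 : ∀ᶠ n in atTop, g (σ n) j ∈ ball (G i) ε := by
      rw [hij]
      exact (hZ j).eventually (ball_mem_nhds _ hε)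
    obtain ⟨n, n1, n2, n3⟩ := (e1.and (e2.and e3)).exists
    have hneg : ∀ z ∈ ball (G i) ε, sff φ (-Y (σ n)) 1 1 z < 0 ∧ 0 < kdet φ (-Y (σ n)) z := by
      intro z hz
      obtain ⟨⟨a1, a2⟩, -⟩ := hball _ n1 z hz
      have s1 : ∀ u v, sff φ (-Y (σ n)) u v z = -sff φ (Y (σ n)) u v z := fun u v => by
        unfold sff
        rw [inner_neg_left]
      refine ⟨by rw [s1]; linarith, ?_⟩
      unfold kdet at a2 ⊢
      rw [s1, s1, s1]
      linarith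
    have hu := (unique_crit (convex_ball (G i) ε)
      (fun z hz => hs.contDiffAt (hW.mem_nhds (hball _ n1 z hz).2)) (-Y (σ n)) hneg n2 n3
      (fun v => by rw [inner_neg_left, (h3 (σ n) i).2.1 v, neg_zero])).2
      (fun v => by rw [inner_neg_left, (h3 (σ n) j).2.1 v, neg_zero])
    exact hne (h2 (σ n) hu.symm)
  have hfin := hcount (Finset.univ.image G) (by
    intro z hz
    obtain ⟨i, -, rfl⟩ := Finset.mem_image.1 hz
    exact ⟨(hcr _ (hGc i) (hcrit i)).1, hcrit i, hpos i⟩)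
  rw [Finset.card_image_of_injective _ hinj, Finset.card_univ, Fintype.card_fin] at hfin
  omega

/-- Lower bound for the radial derivative near the boundary at the points where the tangential
derivative vanishes. -/
theorem radial_bound (hW : IsOpen W) (hsub : closedBall (0 : ℂ) 1 ⊆ W) (hs : ContDiffOn ℝ ∞ φ W)
    {y0 : E4} {a δ : ℝ} (ha : 0 < a)
    (h : ∀ y : E4, ‖y - y0‖ ≤ δ → ∀ z : ℂ, a ≤ ‖z‖ → ‖z‖ ≤ 1 → ¬Crit φ y z) :
    ∃ c₀ > 0, ∀ y : E4, ‖y - y0‖ ≤ δ → ∀ z : ℂ, a ≤ ‖z‖ → ‖z‖ ≤ 1 →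
      ⟪y, d1 φ (Complex.I * z) z⟫ = 0 → c₀ ≤ |⟪y, d1 φ z z⟫| := by
  set K : Set (E4 × ℂ) := closedBall y0 δ ×ˢ {z : ℂ | a ≤ ‖z‖ ∧ ‖z‖ ≤ 1} with hK
  have hA : IsCompact {z : ℂ | a ≤ ‖z‖ ∧ ‖z‖ ≤ 1} := by
    refine (isCompact_closedBall (0 : ℂ) 1).of_isClosed_subset ?_ fun z hz =>
      mem_closedBall_zero_iff.2 hz.2
    exact (isClosed_le continuous_const continuous_norm).inter
      (isClosed_le continuous_norm continuous_const)
  have hKc : IsCompact K := (isCompact_closedBall y0 δ).prod hA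
  have hf : ContinuousOn (fun z => fderiv ℝ φ z) W :=
    hs.continuousOn_fderiv_of_isOpen hW (by simp)
  have hmaps : MapsTo (fun q : E4 × ℂ => q.2) K W := fun q hq =>
    hsub (mem_closedBall_zero_iff.2 hq.2.2)
  have hf2 : ContinuousOn (fun q : E4 × ℂ => fderiv ℝ φ q.2) K :=
    hf.comp continuous_snd.continuousOn hmaps
  have c3 : ContinuousOn (fun q : E4 × ℂ => |⟪q.1, d1 φ q.2 q.2⟫| +
      |⟪q.1, d1 φ (Complex.I * q.2) q.2⟫|) K := by
    unfold d1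
    exact ((continuous_fst.continuousOn.inner (hf2.clm_apply continuous_snd.continuousOn)).abs).add
      ((continuous_fst.continuousOn.inner (hf2.clm_apply
        (continuous_const.mul continuous_snd).continuousOn)).abs)
  rcases K.eq_empty_or_nonempty with he | hne
  · refine ⟨1, one_pos, fun y hy z hz1 hz2 _ => ?_⟩
    have : (y, z) ∈ K := ⟨by rw [mem_closedBall, dist_eq_norm]; exact hy, hz1, hz2⟩
    rw [he] at this
    exact absurd this (notMem_empty _)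
  · obtain ⟨⟨y1, z1⟩, hq, hmin⟩ := hKc.exists_isMinOn hne c3
    have hz0 : z1 ≠ 0 := by
      rintro rfl
      have := hq.2.1
      rw [norm_zero] at this
      linarith
    have hnc := h y1 (by rw [← dist_eq_norm]; exact hq.1) z1 hq.2.1 hq.2.2
    have hpos : 0 < |⟪y1, d1 φ z1 z1⟫| + |⟪y1, d1 φ (Complex.I * z1) z1⟫| := by
      by_contra hcon
      push Not at hcon
      have g1 := abs_nonneg ⟪y1, d1 φ z1 z1⟫
      have g2 := abs_nonneg ⟪y1, d1 φ (Complex.I * z1) z1⟫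
      exact hnc (crit_dir hz0 (abs_eq_zero.1 (by linarith)) (abs_eq_zero.1 (by linarith)))
    refine ⟨_, hpos, fun y hy z hz1 hz2 htan => ?_⟩
    have h5 : (fun q : E4 × ℂ => |⟪q.1, d1 φ q.2 q.2⟫| +
      |⟪q.1, d1 φ (Complex.I * q.2) q.2⟫|) (y1, z1) ≤ (fun q : E4 × ℂ => |⟪q.1, d1 φ q.2 q.2⟫| +
      |⟪q.1, d1 φ (Complex.I * q.2) q.2⟫|) (y, z) :=
      hmin (⟨by rw [mem_closedBall, dist_eq_norm]; exact hy, hz1, hz2⟩ : (y, z) ∈ K)
    simp only [htan, abs_zero, add_zero] at h5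
    exact h5

/-- Upper bounds for the radial derivatives. -/
theorem upper_bounds (hW : IsOpen W) (hsub : closedBall (0 : ℂ) 1 ⊆ W) (hs : ContDiffOn ℝ ∞ φ W)
    (y0 : E4) (δ : ℝ) :
    ∃ M > 0, ∀ y : E4, ‖y - y0‖ ≤ δ → ∀ z : ℂ, ‖z‖ ≤ 1 →
      |⟪y, d1 φ z z⟫| ≤ M ∧ |sff φ y z z z| ≤ M := by
  have hKc : IsCompact (closedBall y0 δ ×ˢ closedBall (0 : ℂ) 1) :=
    (isCompact_closedBall y0 δ).prod (isCompact_closedBall (0 : ℂ) 1)
  have hf : ContinuousOn (fun z => fderiv ℝ φ z) W :=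
    hs.continuousOn_fderiv_of_isOpen hW (by simp)
  have hmaps : MapsTo (fun q : E4 × ℂ => q.2) (closedBall y0 δ ×ˢ closedBall (0 : ℂ) 1) W :=
    fun q hq => hsub hq.2
  have hf2 : ContinuousOn (fun q : E4 × ℂ => fderiv ℝ φ q.2)
      (closedBall y0 δ ×ˢ closedBall (0 : ℂ) 1) := hf.comp continuous_snd.continuousOn hmaps
  have c3 : ContinuousOn (fun q : E4 × ℂ => ⟪q.1, d1 φ q.2 q.2⟫)
      (closedBall y0 δ ×ˢ closedBall (0 : ℂ) 1) := by
    unfold d1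
    exact continuous_fst.continuousOn.inner (hf2.clm_apply continuous_snd.continuousOn)
  have cs : ∀ u v : ℂ, ContinuousOn (fun q : E4 × ℂ => sff φ q.1 u v q.2)
      (closedBall y0 δ ×ˢ closedBall (0 : ℂ) 1) := fun u v =>
    continuous_fst.continuousOn.inner ((c2 hW hs u v).comp continuous_snd.continuousOn hmaps)
  have cre : ContinuousOn (fun q : E4 × ℂ => q.2.re) (closedBall y0 δ ×ˢ closedBall (0 : ℂ) 1) :=
    (Complex.continuous_re.comp continuous_snd).continuousOn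
  have cim : ContinuousOn (fun q : E4 × ℂ => q.2.im) (closedBall y0 δ ×ˢ closedBall (0 : ℂ) 1) :=
    (Complex.continuous_im.comp continuous_snd).continuousOn
  have c4 : ContinuousOn (fun q : E4 × ℂ => q.2.re ^ 2 * sff φ q.1 1 1 q.2 +
      2 * q.2.re * q.2.im * sff φ q.1 1 Complex.I q.2 +
      q.2.im ^ 2 * sff φ q.1 Complex.I Complex.I q.2)
      (closedBall y0 δ ×ˢ closedBall (0 : ℂ) 1) :=
    (((cre.pow 2).mul (cs 1 1)).add (((continuousOn_const.mul cre).mul cim).mul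
      (cs 1 Complex.I))).add ((cim.pow 2).mul (cs Complex.I Complex.I))
  obtain ⟨M1, hM1⟩ := hKc.exists_bound_of_continuousOn c3
  obtain ⟨M2, hM2⟩ := hKc.exists_bound_of_continuousOn c4
  refine ⟨max (max M1 M2) 1, lt_max_of_lt_right one_pos, fun y hy z hz => ?_⟩
  have hmem : (y, z) ∈ closedBall y0 δ ×ˢ closedBall (0 : ℂ) 1 :=
    ⟨by rw [mem_closedBall, dist_eq_norm]; exact hy, mem_closedBall_zero_iff.2 hz⟩
  have e1 := hM1 _ hmem
  have e2 := hM2 _ hmem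
  rw [Real.norm_eq_abs] at e1 e2
  refine ⟨e1.trans ((le_max_left _ _).trans (le_max_left _ _)), ?_⟩
  rw [sff_quad (hs.contDiffAt (hW.mem_nhds (hsub hmem.2))) y z]
  exact e2.trans ((le_max_right _ _).trans (le_max_left _ _))

end Pool.Agent.Run7.h836.PC
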