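import Mathlib
import Pool.Agent.Run7.h836.PC.Stab

/-!
The collar creates no local minima.
-/

set_option autoImplicit false

namespace Pool.Agent.Run7.h836.PC

open scoped ContDiff RealInnerProductSpace ENNReal Topology
open MeasureTheory Set Metric Filter
open Pool.Agent.Y503.RB Pool.Agent.N503.ML Pool.Agent.N15.RC

variable {φ : ℂ → E4} {W : Set ℂ} {a b c : ℝ}

theorem bmp_zero {x : ℝ} (hx : x ≤ 0) : bmp x = 0 := by
  unfold bmp
  rw [expNegInvGlue.zero_of_nonpos hx, zero_mul]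

theorem rho_deriv_inner (hb : b < 1) {r : ℝ} (hr : r ≤ b) : deriv (rho b) r = 1 := by
  rw [(rho_deriv hb r).deriv]
  have h : (r - b) / ((1 - b) / 2) ≤ 0 := div_nonpos_of_nonpos_of_nonneg (by linarith) (by linarith)
  rw [stp_zero h, bmp_zero h]
  ring

theorem sff_pos {z : ℂ} (h : ContDiffAt ℝ ∞ φ z) {y : E4} (hp : Pos φ y z) {w : ℂ} (hw : w ≠ 0) :
    0 < sff φ y w w z := by
  have s1 : ∀ u v, sff φ (-y) u v z = -sff φ y u v z := fun u v => by
    unfold sff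
    rw [inner_neg_left]
  have h1 := sff_neg h (n := -y) (w := w) (by rw [s1]; linarith [hp.1]) (by
    have := hp.2
    unfold kdet at this ⊢
    rw [s1, s1, s1]
    linarith) hw
  rw [s1] at h1
  linarith

/-- The second radial derivative in the inner part of the collar. -/
theorem cdisc_sff (hW : IsOpen W) (hsub : closedBall (0 : ℂ) 1 ⊆ W) (hs : ContDiffOn ℝ ∞ φ W)
    (ha : 0 < a) (hab : a < b) (hb : b < 1) {z : ℂ} (hz : z ≠ 0) (hzb : ‖z‖ < b) (y : E4) :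
    sff (cdisc φ a b c) y z z z = sff φ y z z z -
      c * (bmp ((‖z‖ - a) / (b - a)) / bS) * (‖z‖ ^ 2 / (b - a)) * y 3 := by
  have hn : 0 < ‖z‖ := norm_pos_iff.2 hz
  have hbW : ∀ w : ℂ, ‖w‖ ≤ 1 → w ∈ W := fun w hw => hsub (mem_closedBall_zero_iff.2 hw)
  have hl : HasDerivAt (fun t : ℝ => t • z) z 1 := by
    simpa using (hasDerivAt_id (1 : ℝ)).smul_const z
  -- derivative along the ray, for a general smooth map
  have hgen : ∀ χ : ℂ → E4, ContDiffAt ℝ ∞ χ z →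
      HasDerivAt (fun t : ℝ => ⟪y, d1 χ z (t • z)⟫) (sff χ y z z z) 1 := by
    intro χ hχ
    have hd : DifferentiableAt ℝ (fun w => d1 χ z w) ((1 : ℝ) • z) := by
      rw [one_smul]
      exact (Pool.Agent.Y640.RB.diffFderiv hχ).clm_apply (differentiableAt_const z)
    have h1 := hd.hasFDerivAt.comp_hasDerivAt (1 : ℝ) hl
    have h2 := (innerSL ℝ y).hasFDerivAt.comp_hasDerivAt (1 : ℝ) h1
    have e : (innerSL ℝ y) (fderiv ℝ (fun w => d1 χ z w) ((1 : ℝ) • z) z) = sff χ y z z z := by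
      rw [one_smul]
      rfl
    rw [e] at h2
    exact h2
  have h1 := hgen (cdisc φ a b c) (cdisc_smooth hW hsub hs ha hab hb z)
  have h2 := hgen φ (hs.contDiffAt (hW.mem_nhds (hbW z (by linarith))))
  have hm : HasDerivAt (fun t : ℝ => (t * ‖z‖ - a) / (b - a)) (‖z‖ / (b - a)) 1 := by
    have := (((hasDerivAt_id (1 : ℝ)).mul_const ‖z‖).sub_const a).div_const (b - a)
    simpa using this
  have h3 : HasDerivAt (fun t : ℝ => stp ((t * ‖z‖ - a) / (b - a)))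
      (bmp ((‖z‖ - a) / (b - a)) / bS * (‖z‖ / (b - a))) 1 := by
    have h4 : HasDerivAt stp (bmp ((‖z‖ - a) / (b - a)) / bS) ((1 * ‖z‖ - a) / (b - a)) := by
      rw [one_mul]
      exact stp_deriv _
    exact HasDerivAt.comp (1 : ℝ) (h₂ := stp) (h := fun t : ℝ => (t * ‖z‖ - a) / (b - a)) h4 hm
  have h5 := h2.add ((h3.const_mul (-(c * ‖z‖ * y 3))))
  have hev : (fun t : ℝ => ⟪y, d1 (cdisc φ a b c) z (t • z)⟫) =ᶠ[𝓝 1]
      fun t : ℝ => ⟪y, d1 φ z (t • z)⟫ +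
        -(c * ‖z‖ * y 3) * stp ((t * ‖z‖ - a) / (b - a)) := by
    have ht2 : ∀ᶠ t : ℝ in 𝓝 1, t * ‖z‖ < b := by
      have : ContinuousAt (fun t : ℝ => t * ‖z‖) 1 := by fun_prop
      refine this.eventually (gt_mem_nhds ?_)
      show 1 * ‖z‖ < b
      rw [one_mul]
      exact hzb
    filter_upwards [lt_mem_nhds (zero_lt_one : (0 : ℝ) < 1), ht2] with t ht htb
    have e1 : ‖t • z‖ = t * ‖z‖ := by
      rw [norm_smul, Real.norm_eq_abs, abs_of_pos ht]
    have htz : t • z ≠ 0 := smul_ne_zero ht.ne' hz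
    have h6 := cdisc_radial (c := c) hW hsub hs ha hab hb htz
    rw [e1, hatz_inner hb (by rw [e1]; exact htb.le), rho_deriv_inner hb htb.le, one_smul] at h6
    have h7 : ∀ χ : ℂ → E4, d1 χ (t • z) (t • z) = t • d1 χ z (t • z) := fun χ => by
      unfold d1
      rw [map_smul]
    rw [h7, h7] at h6
    have h8 : d1 (cdisc φ a b c) z (t • z) = d1 φ z (t • z) +
        (-(c * stp ((t * ‖z‖ - a) / (b - a))) * ‖z‖) • vert := by
      have h9 := congrArg (fun w => t⁻¹ • w) h6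
      simp only [smul_add, smul_smul, inv_mul_cancel₀ ht.ne', one_smul] at h9
      rw [h9]
      congr 2
      field_simp
    rw [h8, inner_add_right, real_inner_smul_right, real_inner_comm vert y, inner_vert]
    ring
  have h6 := (h1.congr_of_eventuallyEq hev.symm).unique h5
  rw [h6]
  ring

theorem cdisc_ev (hab : a < b) (hb : b < 1) {z : ℂ} (hza : ‖z‖ < a) :
    cdisc φ a b c =ᶠ[𝓝 z] fun z => φ z + kap a b c a • vert := by
  filter_upwards [isOpen_ball.mem_nhds (mem_ball_zero_iff.2 hza)] with w hw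
  exact cdisc_inner hab hb (mem_ball_zero_iff.1 hw).le

theorem cdisc_d1 (hab : a < b) (hb : b < 1) {z : ℂ} (hza : ‖z‖ < a) (v : ℂ) :
    d1 (cdisc φ a b c) v z = d1 φ v z := by
  unfold d1
  rw [(cdisc_ev hab hb hza).fderiv_eq, fderiv_add_const]

theorem cdisc_d2 (hab : a < b) (hb : b < 1) {z : ℂ} (hza : ‖z‖ < a) (u v : ℂ) :
    d2 (cdisc φ a b c) u v z = d2 φ u v z := by
  unfold d2
  have h1 : (fun w => fderiv ℝ (cdisc φ a b c) w v) =ᶠ[𝓝 z] fun w => fderiv ℝ φ w v := by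
    filter_upwards [isOpen_ball.mem_nhds (mem_ball_zero_iff.2 hza)] with w hw
    exact cdisc_d1 hab hb (mem_ball_zero_iff.1 hw) v
  rw [h1.fderiv_eq]

theorem cdisc_pos (hab : a < b) (hb : b < 1) {z : ℂ} (hza : ‖z‖ < a) (y : E4) :
    Pos (cdisc φ a b c) y z ↔ Pos φ y z := by
  unfold Pos kdet sff
  rw [cdisc_d2 hab hb hza, cdisc_d2 hab hb hza, cdisc_d2 hab hb hza]

/-- The parameters of the collar can be chosen such that no local minima arise. -/
theorem exists_collar (hW : IsOpen W) (hsub : closedBall (0 : ℂ) 1 ⊆ W) (hs : ContDiffOn ℝ ∞ φ W)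
    {y0 : E4} {δ : ℝ} (ha : 1 / 2 ≤ a) (ha1 : a < 1)
    (h : ∀ y : E4, ‖y - y0‖ ≤ δ → ∀ z : ℂ, a ≤ ‖z‖ → ‖z‖ ≤ 1 → ¬Crit φ y z) {ε : ℝ} (hε : 0 < ε) :
    ∃ b c : ℝ, a < b ∧ b < 1 ∧ 0 < c ∧ ∀ y : E4, ‖y - y0‖ ≤ δ → ε / 2 ≤ y 3 → y 3 ≤ 2 * ε →
      ∀ z : ℂ, a ≤ ‖z‖ → ‖z‖ < 1 → Crit (cdisc φ a b c) y z → ¬Pos (cdisc φ a b c) y z := by
  have ha0 : 0 < a := by linarith
  obtain ⟨c₀, hc₀, hrad⟩ := radial_bound hW hsub hs ha0 h
  obtain ⟨M, hM, hup⟩ := upper_bounds hW hsub hs y0 δ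
  obtain ⟨R, hR⟩ : ∃ R, R = 1 + 2 / bS := ⟨_, rfl⟩
  have hR1 : 1 ≤ R := by
    have := bS_pos
    have : 0 < 2 / bS := by positivity
    linarith
  obtain ⟨c, hc⟩ : ∃ c, c = 8 * (R * M + 1) / ε := ⟨_, rfl⟩
  have hcpos : 0 < c := by
    rw [hc]
    positivity
  have hcε : c * ε = 8 * (R * M + 1) := by
    rw [hc]
    field_simp
  obtain ⟨τ, hτ, hlow⟩ := stp_lower (σ := c₀ / (c * (2 * ε))) (by positivity)
  obtain ⟨ℓ, hℓ⟩ : ∃ ℓ, ℓ = min ((1 - a) / 2) (ε * c * τ / (16 * M)) := ⟨_, rfl⟩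
  have hℓpos : 0 < ℓ := by
    rw [hℓ]
    exact lt_min (by linarith) (by positivity)
  have hℓ1 : ℓ ≤ (1 - a) / 2 := by rw [hℓ]; exact min_le_left _ _
  have hℓ2 : ℓ * (16 * M) ≤ ε * c * τ := by
    have : ℓ ≤ ε * c * τ / (16 * M) := by rw [hℓ]; exact min_le_right _ _
    rwa [le_div_iff₀ (by positivity)] at this
  have hab : a < a + ℓ := by linarith
  have hb : a + ℓ < 1 := by linarith
  refine ⟨a + ℓ, c, hab, hb, hcpos, ?_⟩
  intro y hy hy1 hy2 z hza hz1 hcr hpos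
  have hy3 : 0 < y 3 := by linarith
  have hn : 0 < ‖z‖ := by linarith
  have hz0 : z ≠ 0 := norm_pos_iff.1 hn
  have ht := hcr (Complex.I * z)
  rw [cdisc_tang hW hsub hs ha0 hab hb z, real_inner_smul_right] at ht
  have hρ : 0 < rho (a + ℓ) ‖z‖ := rho_pos hb hn
  have ht2 : ⟪y, d1 φ (Complex.I * z) (hatz (a + ℓ) z)⟫ = 0 :=
    (mul_eq_zero.1 ht).resolve_left (by positivity)
  have hr := hcr z
  rw [cdisc_radial hW hsub hs ha0 hab hb hz0, inner_add_right, real_inner_smul_right,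
    real_inner_smul_right, real_inner_comm vert y, inner_vert] at hr
  by_cases hzb : ‖z‖ < a + ℓ
  · -- the inner part of the collar
    rw [hatz_inner hb hzb.le] at ht2 hr
    rw [rho_deriv_inner hb hzb.le, one_mul] at hr
    obtain ⟨x, hx⟩ : ∃ x, x = (‖z‖ - a) / (a + ℓ - a) := ⟨_, rfl⟩
    rw [← hx] at hr
    have hA := hrad y hy z hza hz1.le ht2
    obtain ⟨hB, hC⟩ := hup y hy z hz1.le
    have hst := stp_nonneg x
    have e1 : ⟪y, d1 φ z z⟫ = c * stp x * ‖z‖ * y 3 := by linarith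
    have e2 : |⟪y, d1 φ z z⟫| = c * stp x * ‖z‖ * y 3 := by
      rw [e1]
      exact abs_of_nonneg (by positivity)
    rw [e2] at hA hB
    have g1 : c₀ / (c * (2 * ε)) ≤ stp x := by
      rw [div_le_iff₀ (by positivity)]
      calc c₀ ≤ c * stp x * ‖z‖ * y 3 := hA
        _ ≤ c * stp x * 1 * (2 * ε) := by gcongr
        _ = stp x * (c * (2 * ε)) := by ring
    have g2 : stp x ≤ 1 / 2 := by
      have e3 : c * stp x * (1 / 2) * (ε / 2) ≤ c * stp x * ‖z‖ * y 3 := by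
        have : (1 : ℝ) / 2 ≤ ‖z‖ := ha.trans hza
        gcongr
      have e4 : c * stp x * (1 / 2) * (ε / 2) = (c * ε) * stp x / 4 := by ring
      rw [e4, hcε] at e3
      by_contra hcon
      push Not at hcon
      have e5 : 8 * (R * M + 1) * (1 / 2) / 4 ≤ 8 * (R * M + 1) * stp x / 4 := by
        have : 0 ≤ 8 * (R * M + 1) := by positivity
        have := mul_le_mul_of_nonneg_left hcon.le this
        linarith
      have e6 : M ≤ R * M := by nlinarith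
      linarith
    have g3 := hlow x g1 g2
    have hsf := cdisc_sff (c := c) hW hsub hs ha0 hab hb hz0 hzb y
    rw [← hx] at hsf
    have hsp := sff_pos (cdisc_smooth (c := c) hW hsub hs ha0 hab hb z) hpos hz0
    rw [hsf] at hsp
    have e7 : a + ℓ - a = ℓ := by ring
    rw [e7] at hsp
    have g4 : sff φ y z z z ≤ M := (le_abs_self _).trans hC
    have g5 : c * τ * ((1 / 2) ^ 2 / ℓ) * (ε / 2) ≤
        c * (bmp x / bS) * (‖z‖ ^ 2 / ℓ) * y 3 := by
      have : (1 : ℝ) / 2 ≤ ‖z‖ := ha.trans hza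
      have hbx : 0 ≤ bmp x / bS := hτ.le.trans g3
      gcongr
    have g6 : M < c * τ * ((1 / 2) ^ 2 / ℓ) * (ε / 2) := by
      have : c * τ * ((1 / 2) ^ 2 / ℓ) * (ε / 2) = ε * c * τ / (8 * ℓ) := by
        field_simp
        ring
      rw [this, lt_div_iff₀ (by positivity)]
      have : 0 < M * ℓ := by positivity
      linarith
    linarith
  · -- the outer part of the collar
    push Not at hzb
    have h1 : 1 ≤ (‖z‖ - a) / (a + ℓ - a) := by
      rw [le_div_iff₀ (by linarith)]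
      linarith
    rw [stp_one h1, mul_one] at hr
    have hd0 := rho_deriv_nonneg hb hz1.le
    have hd1 := rho_deriv_le hb hzb hz1.le
    rw [← hR] at hd1
    have hle := mem_closedBall_zero_iff.1 (hatz_mem hb z)
    obtain ⟨hB, -⟩ := hup y hy (hatz (a + ℓ) z) hle
    -- the radial derivative at the point `hatz z`
    have hz' : z = (‖z‖ / rho (a + ℓ) ‖z‖) • hatz (a + ℓ) z := by
      unfold hatz
      rw [smul_smul]
      have : ‖z‖ / rho (a + ℓ) ‖z‖ * (rho (a + ℓ) ‖z‖ / ‖z‖) = 1 := by field_simp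
      rw [this, one_smul]
    have e1 : ⟪y, d1 φ z (hatz (a + ℓ) z)⟫ = (‖z‖ / rho (a + ℓ) ‖z‖) *
        ⟪y, d1 φ (hatz (a + ℓ) z) (hatz (a + ℓ) z)⟫ := by
      have : d1 φ z (hatz (a + ℓ) z) = (‖z‖ / rho (a + ℓ) ‖z‖) •
          d1 φ (hatz (a + ℓ) z) (hatz (a + ℓ) z) := by
        unfold d1
        rw [← map_smul, ← hz']
      rw [this, real_inner_smul_right]
    have e2 : ‖z‖ / rho (a + ℓ) ‖z‖ ≤ 1 := by
      rw [div_le_one hρ]
      exact rho_ge hz1.le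
    have e3 : ⟪y, d1 φ z (hatz (a + ℓ) z)⟫ ≤ M := by
      rw [e1]
      have e4 : 0 ≤ ‖z‖ / rho (a + ℓ) ‖z‖ := by positivity
      calc _ ≤ (‖z‖ / rho (a + ℓ) ‖z‖) * |⟪y, d1 φ (hatz (a + ℓ) z) (hatz (a + ℓ) z)⟫| :=
            mul_le_mul_of_nonneg_left (le_abs_self _) e4
        _ ≤ 1 * M := mul_le_mul e2 hB (abs_nonneg _) zero_le_one
        _ = M := one_mul M
    have e5 : deriv (rho (a + ℓ)) ‖z‖ * ⟪y, d1 φ z (hatz (a + ℓ) z)⟫ ≤ R * M := by
      calc _ ≤ deriv (rho (a + ℓ)) ‖z‖ * M := mul_le_mul_of_nonneg_left e3 hd0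
        _ ≤ R * M := mul_le_mul_of_nonneg_right hd1 hM.le
    have e6 : c * (1 / 2) * (ε / 2) ≤ c * ‖z‖ * y 3 := by
      have : (1 : ℝ) / 2 ≤ ‖z‖ := ha.trans hza
      gcongr
    have e7 : c * (1 / 2) * (ε / 2) = 2 * (R * M + 1) := by
      have : c * (1 / 2) * (ε / 2) = c * ε / 4 := by ring
      rw [this, hcε]
      ring
    have e8 : 0 < R * M := by positivity
    linarith

/-- **Collar lemma.** -/
theorem collar_main (h : PropDisc φ) {y0 : E4} (hy3 : 0 ≤ y0 3) {m : ℕ}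
    (hcr : ∀ z ∈ closedBall (0 : ℂ) 1, Crit φ y0 z → z ∈ ball (0 : ℂ) 1 ∧ kdet φ y0 z ≠ 0)
    (hcount : ∀ s : Finset ℂ, (∀ z ∈ s, z ∈ ball (0 : ℂ) 1 ∧ Crit φ y0 z ∧ Pos φ y0 z) →
      s.card ≤ m) :
    ∃ ψ : ℂ → E4, HalfDisc ψ ∧ (∀ z ∈ sphere (0 : ℂ) 1, ψ z = φ z) ∧ MorseHt ψ ∧ nmin ψ ≤ m := by
  obtain ⟨W, hW, hsub, hs⟩ := h.smooth
  obtain ⟨a1, ha1, hnv⟩ := nonvert_annulus h
  obtain ⟨a2, ha2, hlow⟩ := low_annulus h
  obtain ⟨a3, ha3, δ1, hδ1, hann⟩ := crit_annulus hW hsub hs (y0 := y0) (fun z hz hc => by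
    have h1 := (hcr z (sphere_subset_closedBall hz) hc).1
    have h2 := mem_ball_zero_iff.1 h1
    have h3 := mem_sphere_zero_iff_norm.1 hz
    linarith)
  obtain ⟨δ2, hδ2, hcnt⟩ := count_stable hW hsub hs hcr hcount
  obtain ⟨a, ha⟩ : ∃ a, a = max (max a1 a2) (max a3 (1 / 2)) := ⟨_, rfl⟩
  have haa1 : a1 ≤ a := by rw [ha]; exact (le_max_left _ _).trans (le_max_left _ _)
  have haa2 : a2 ≤ a := by rw [ha]; exact (le_max_right _ _).trans (le_max_left _ _)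
  have haa3 : a3 ≤ a := by rw [ha]; exact (le_max_left _ _).trans (le_max_right _ _)
  have hah : 1 / 2 ≤ a := by rw [ha]; exact (le_max_right _ _).trans (le_max_right _ _)
  have hal : a < 1 := by
    rw [ha]
    exact max_lt (max_lt ha1 ha2) (max_lt ha3 (by norm_num))
  obtain ⟨δ, hδ⟩ : ∃ δ, δ = min δ1 δ2 := ⟨_, rfl⟩
  have hδp : 0 < δ := by rw [hδ]; exact lt_min hδ1 hδ2
  have hδ1' : δ ≤ δ1 := by rw [hδ]; exact min_le_left _ _
  have hδ2' : δ ≤ δ2 := by rw [hδ]; exact min_le_right _ _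
  obtain ⟨y1, hy1⟩ : ∃ y1, y1 = y0 + (δ / 2) • vert := ⟨_, rfl⟩
  have hy13 : y1 3 = y0 3 + δ / 2 := by
    rw [hy1]
    show y0 3 + (δ / 2) * vert 3 = _
    rw [vert_three, mul_one]
  have hy1n : ‖y1 - y0‖ = δ / 2 := by
    rw [hy1, add_sub_cancel_left, norm_smul, norm_vert, mul_one, Real.norm_eq_abs,
      abs_of_pos (by linarith)]
  obtain ⟨ε, hε⟩ : ∃ ε, ε = y1 3 := ⟨_, rfl⟩
  have hεp : 0 < ε := by rw [hε, hy13]; linarith
  obtain ⟨b, c, hab, hb, hc, hnp⟩ := exists_collar hW hsub hs hah hal (y0 := y0) (δ := δ)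
    (fun y hy z hz1 hz2 => hann y (hy.trans hδ1') z (haa3.trans hz1) hz2) hεp
  obtain ⟨hH, hHb⟩ := half_cdisc h (by linarith : 0 < a) hab hb hc
    (fun z hz1 hz2 => hnv z (haa1.trans hz1) hz2)
    (fun p p' h1 h2 h3 h4 => hlow p p' (haa2.trans h1) h2 h3 h4)
  obtain ⟨Z, hZ, hZ2⟩ := sard hH.patch
  -- a generic direction
  have hρp : 0 < min (δ / 2) (ε / 2) := lt_min (by linarith) (by linarith)
  obtain ⟨y, hyb, hyZ⟩ : ∃ y ∈ ball y1 (min (δ / 2) (ε / 2)), y ∉ Z := by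
    by_contra hcon
    push Not at hcon
    have h1 : volume (ball y1 (min (δ / 2) (ε / 2))) ≤ volume Z := measure_mono hcon
    rw [hZ] at h1
    exact (measure_ball_pos volume y1 hρp).not_ge h1
  rw [mem_ball, dist_eq_norm] at hyb
  have hyb1 : ‖y - y1‖ < δ / 2 := hyb.trans_le (min_le_left _ _)
  have hyb2 : ‖y - y1‖ < ε / 2 := hyb.trans_le (min_le_right _ _)
  have hyd : ‖y - y0‖ ≤ δ := by
    calc ‖y - y0‖ = ‖(y - y1) + (y1 - y0)‖ := by rw [sub_add_sub_cancel]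
      _ ≤ ‖y - y1‖ + ‖y1 - y0‖ := norm_add_le _ _
      _ ≤ δ := by rw [hy1n]; linarith
  have hy3d : |y 3 - ε| < ε / 2 := by
    have e1 : y 3 - ε = (y - y1) 3 := by rw [hε]; rfl
    rw [e1, ← Real.norm_eq_abs]
    exact (PiLp.norm_apply_le (y - y1) 3).trans_lt hyb2
  obtain ⟨hyl, hyu⟩ := abs_lt.1 hy3d
  have hy3p : 0 < y 3 := by linarith
  have hinv : 0 < (y 3)⁻¹ := inv_pos.2 hy3p
  obtain ⟨ψ, p1, p2, p3, -, p5⟩ := lift_disc hH (y := (y 3)⁻¹ • y)
    (by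
      show (y 3)⁻¹ * y 3 = 1
      exact inv_mul_cancel₀ hy3p.ne')
    (by
      intro z hz hv
      rw [kdet_smul]
      refine mul_ne_zero (by positivity) (hZ2 y hyZ ?_ z hz fun v => ?_)
      · rintro rfl
        exact lt_irrefl _ hy3p
      · have := hv v
        rw [real_inner_smul_left] at this
        exact (mul_eq_zero.1 this).resolve_left hinv.ne')
  refine ⟨ψ, p1, fun z hz => (p2 z hz).trans (hHb z hz), p3, ?_⟩
  -- counting
  have hbound : ∀ s : Finset ℂ, (∀ z ∈ s, z ∈ ball (0 : ℂ) 1 ∧ IsLocalMin (fun w => ψ w 3) z) →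
      s.card ≤ m := by
    intro s hs'
    refine hcnt y (hyd.trans hδ2') s fun z hz => ?_
    obtain ⟨hz1, hz2⟩ := hs' z hz
    have hcc := p5 z hz1 hz2
    rw [critCap_smul hinv] at hcc
    obtain ⟨q1, q2, q3, q4⟩ := hcc
    have hcrit : Crit (cdisc φ a b c) y z := by
      intro v
      have := q1 v
      rw [d1_opp, inner_neg_right, neg_eq_zero] at this
      exact this
    have hpos : Pos (cdisc φ a b c) y z := by
      rw [sff_opp] at q3
      rw [kdet_opp] at q4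
      exact ⟨by linarith, q4⟩
    have hza : ‖z‖ < a := by
      by_contra hcon
      push Not at hcon
      exact hnp y hyd (by linarith) (by linarith) z hcon (mem_ball_zero_iff.1 hz1) hcrit hpos
    refine ⟨ball_subset_closedBall hz1, fun v => ?_, (cdisc_pos hab hb hza y).1 hpos⟩
    rw [← cdisc_d1 (c := c) (φ := φ) hab hb hza v]
    exact hcrit v
  unfold nmin
  by_contra hcon
  push Not at hcon
  have h1 : ((m + 1 : ℕ) : ℕ∞) ≤
      {z : ℂ | z ∈ ball (0 : ℂ) 1 ∧ IsLocalMin (fun w => ψ w 3) z}.encard := by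
    push_cast
    exact Order.add_one_le_of_lt hcon
  obtain ⟨t, ht, htc⟩ := Set.exists_subset_encard_eq h1
  have htf : t.Finite := Set.finite_of_encard_eq_coe htc
  have h2 := hbound htf.toFinset (fun z hz => ht (htf.mem_toFinset.1 hz))
  have h3 : (htf.toFinset.card : ℕ∞) = ((m + 1 : ℕ) : ℕ∞) := by
    rw [← htc, htf.encard_eq_coe_toFinset_card]
  have h4 : htf.toFinset.card = m + 1 := by exact_mod_cast h3
  omega

end Pool.Agent.Run7.h836.PC
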