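import Mathlib
import Pool.Agent.Run7.h836.PC.Main
import Pool.Agent.Run7.h836.PC.Dir

/-!
Total positive curvature and Willmore energy of the projection.
-/

set_option autoImplicit false

namespace Pool.Agent.Run7.h836.PC

open scoped ContDiff RealInnerProductSpace ENNReal Topology
open MeasureTheory Set Metric Filter
open Pool.Agent.Y503.RB Pool.Agent.N503.ML Pool.Agent.N15.RC

variable {φ : ℂ → E4} {W : Set ℂ}

theorem crit_upw {z : ℂ} (h : ContDiffAt ℝ ∞ φ z) (w : E3) :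
    Crit φ (upw w) z ↔ Crit3 (hor φ) w z := by
  unfold Crit Crit3
  refine forall_congr' fun v => ?_
  rw [inner_upw, hor_p1 h]

theorem sff_upw (hW : IsOpen W) {z : ℂ} (hz : z ∈ W) (h : ContDiffOn ℝ ∞ φ W) (w : E3) (u v : ℂ) :
    sff φ (upw w) u v z = ⟪w, p2 (hor φ) u v z⟫ := by
  unfold sff
  rw [inner_upw, hor_p2 hW hz h]

theorem kdet_upw (hW : IsOpen W) {z : ℂ} (hz : z ∈ W) (h : ContDiffOn ℝ ∞ φ W) (w : E3) :
    kdet φ (upw w) z = hdet (hor φ) w z := by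
  unfold kdet hdet
  rw [sff_upw hW hz h, sff_upw hW hz h, sff_upw hW hz h]

theorem pos_upw (hW : IsOpen W) {z : ℂ} (hz : z ∈ W) (h : ContDiffOn ℝ ∞ φ W) (w : E3) :
    Pos φ (upw w) z ↔ Pos3 (hor φ) w z := by
  unfold Pos Pos3
  rw [kdet_upw hW hz h, sff_upw hW hz h]

/-- **Total positive curvature of the projection.** -/
theorem ribbon_of_posCurv (h : PropDisc φ) {S : Set ℂ} (hS : S.Countable)
    (hreg : ∀ z ∈ closedBall (0 : ℂ) 1, VertAt φ z → z ∈ S) (m : ℕ)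
    (hK : posCurv (hor φ) < ENNReal.ofReal (4 * Real.pi * (m + 1))) :
    ∃ ψ : ℂ → E4, HalfDisc ψ ∧ (∀ z ∈ sphere (0 : ℂ) 1, ψ z = φ z) ∧ MorseHt ψ ∧ nmin ψ ≤ m := by
  obtain ⟨W, hW, hsub, hs⟩ := h.smooth
  have hS' : (S ∩ closedBall (0 : ℂ) 1).Countable := hS.mono inter_subset_left
  obtain ⟨w, hw1, hw2⟩ := direction3 hW hsub (hor_smooth hs) hS'
    (fun z hz hzS h0 => hzS ⟨hreg z hz ((vertAt_iff (h.at hz)).2 h0), hz⟩)
    (fun z hz => by
      by_contra hcon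
      push Not at hcon
      have h1 : ∀ v, ∃ s : ℝ, d1 φ v z = s • vert := fun v =>
        prj_zero_iff.1 (by rw [← hor_p1 (h.at hz.2)]; exact hcon v)
      obtain ⟨s, hs1⟩ := h1 1
      obtain ⟨t, ht1⟩ := h1 Complex.I
      have h2 : d1 φ (t • (1 : ℂ) + (-s) • Complex.I) z = 0 := by
        rw [d1_comb, hs1, ht1, smul_smul, smul_smul, neg_mul, neg_smul, mul_comm s t,
          add_neg_cancel]
      have h3 := h.imm z hz.2 (h2.trans (map_zero (fderiv ℝ φ z)).symm)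
      have hs0 : s = 0 := by
        have := congrArg Complex.im h3
        simp at this
        exact this
      have h4 : d1 φ 1 z = 0 := by rw [hs1, hs0, zero_smul]
      have h5 := h.imm z hz.2 (h4.trans (map_zero (fderiv ℝ φ z)).symm)
      exact one_ne_zero h5) m hK
  refine collar_main h (y0 := upw w) (by rw [upw_3]) (fun z hz hc => ?_) (fun s hs' => ?_)
  · rw [kdet_upw hW (hsub hz) hs]
    exact hw1 z hz ((crit_upw (h.at hz) w).1 hc)
  · refine hw2 s fun z hz => ?_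
    obtain ⟨a1, a2, a3⟩ := hs' z hz
    exact ⟨a1, (crit_upw (h.at (ball_subset_closedBall a1)) w).1 a2,
      (pos_upw hW (hsub (ball_subset_closedBall a1)) hs w).1 a3⟩

/-- The mean curvature (half of the trace of the second fundamental form) of a surface in
three-space. -/
noncomputable def meanH (f : ℂ → E3) (z : ℂ) : ℝ :=
  (⟪p1 f 1 z, p1 f 1 z⟫ * ⟪nrm f z, p2 f Complex.I Complex.I z⟫ -
    2 * ⟪p1 f 1 z, p1 f Complex.I z⟫ * ⟪nrm f z, p2 f 1 Complex.I z⟫ +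
    ⟪p1 f Complex.I z, p1 f Complex.I z⟫ * ⟪nrm f z, p2 f 1 1 z⟫) / (2 * ‖nrm f z‖ ^ 3)

/-- Willmore energy of a surface in three-space. -/
noncomputable def will3 (f : ℂ → E3) : ℝ≥0∞ :=
  ∫⁻ z in ball (0 : ℂ) 1, ENNReal.ofReal (meanH f z ^ 2 * ‖nrm f z‖)

theorem trace_ineq {E F G l k n : ℝ} (hE : 0 < E) (hD : 0 < E * G - F ^ 2) :
    4 * (E * G - F ^ 2) * (l * n - k ^ 2) ≤ (E * n - 2 * F * k + G * l) ^ 2 := by
  have h1 : E ^ 2 * ((E * n - 2 * F * k + G * l) ^ 2 - 4 * (E * G - F ^ 2) * (l * n - k ^ 2)) =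
      (E ^ 2 * n - 2 * E * F * k + F ^ 2 * l - (E * G - F ^ 2) * l) ^ 2 +
        4 * (E * G - F ^ 2) * (E * k - F * l) ^ 2 := by ring
  have h2 : 0 ≤ (E ^ 2 * n - 2 * E * F * k + F ^ 2 * l - (E * G - F ^ 2) * l) ^ 2 +
        4 * (E * G - F ^ 2) * (E * k - F * l) ^ 2 := by positivity
  rw [← h1] at h2
  have h3 : 0 < E ^ 2 := by positivity
  have h4 := nonneg_of_mul_nonneg_right h2 h3
  linarith

theorem gauss_le_mean (f : ℂ → E3) (z : ℂ) :
    gaussK f z * ‖nrm f z‖ ≤ meanH f z ^ 2 * ‖nrm f z‖ := by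
  refine mul_le_mul_of_nonneg_right ?_ (norm_nonneg _)
  by_cases h0 : nrm f z = 0
  · unfold gaussK meanH
    rw [h0]
    simp
  · have hn : 0 < ‖nrm f z‖ := norm_pos_iff.2 h0
    have h1 : ‖nrm f z‖ ^ 2 = ⟪p1 f 1 z, p1 f 1 z⟫ * ⟪p1 f Complex.I z, p1 f Complex.I z⟫ -
      ⟪p1 f 1 z, p1 f Complex.I z⟫ ^ 2 := norm_cross_sq _ _
    have hE : 0 < ⟪p1 f 1 z, p1 f 1 z⟫ := by
      have h2 : 0 ≤ ⟪p1 f 1 z, p1 f 1 z⟫ := real_inner_self_nonneg
      rcases h2.lt_or_eq with h3 | h3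
      · exact h3
      · exfalso
        rw [← h3, zero_mul, zero_sub] at h1
        have : 0 < ‖nrm f z‖ ^ 2 := by positivity
        nlinarith [sq_nonneg ⟪p1 f 1 z, p1 f Complex.I z⟫]
    have hD : 0 < ⟪p1 f 1 z, p1 f 1 z⟫ * ⟪p1 f Complex.I z, p1 f Complex.I z⟫ -
      ⟪p1 f 1 z, p1 f Complex.I z⟫ ^ 2 := by rw [← h1]; positivity
    have h2 := trace_ineq (l := ⟪nrm f z, p2 f 1 1 z⟫) (k := ⟪nrm f z, p2 f 1 Complex.I z⟫)
      (n := ⟪nrm f z, p2 f Complex.I Complex.I z⟫) hE hD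
    rw [← h1] at h2
    unfold gaussK meanH hdet
    rw [div_pow, div_le_div_iff₀ (by positivity) (by positivity)]
    have h3 : (2 * ‖nrm f z‖ ^ 3) ^ 2 = 4 * ‖nrm f z‖ ^ 2 * ‖nrm f z‖ ^ 4 := by ring
    rw [h3]
    have h4 : 0 ≤ ‖nrm f z‖ ^ 4 := by positivity
    have h5 := mul_le_mul_of_nonneg_right h2 h4
    linarith

theorem posCurv_le_will3 (f : ℂ → E3) : posCurv f ≤ will3 f :=
  lintegral_mono fun z => ENNReal.ofReal_le_ofReal (gauss_le_mean f z)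

/-- Second derivative test. -/
theorem isLocalMin_of_pos (hW : IsOpen W) (hs : ContDiffOn ℝ ∞ φ W) {y : E4} {z₀ : ℂ}
    (hz : z₀ ∈ W) (hc : Crit φ y z₀) (hp : Pos φ y z₀) :
    IsLocalMin (fun w => ⟪y, φ w⟫) z₀ := by
  have hzW : W ∈ 𝓝 z₀ := hW.mem_nhds hz
  have k2 : ∀ u v : ℂ, ContinuousAt (fun q : ℂ => sff φ y u v q) z₀ := by
    intro u v
    have : ContinuousAt (fun z => d2 φ u v z) z₀ := (c2 hW hs u v).continuousAt hzW
    exact continuousAt_const.inner this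
  have k3 : ContinuousAt (fun q : ℂ => kdet φ y q) z₀ := by
    unfold kdet
    exact ((k2 1 1).mul (k2 Complex.I Complex.I)).sub ((k2 1 Complex.I).pow 2)
  have hev := (((k2 1 1).eventually (lt_mem_nhds hp.1)).and
    (k3.eventually (lt_mem_nhds hp.2))).and hzW
  obtain ⟨ε, hε, hb⟩ := Metric.eventually_nhds_iff.1 hev
  have hball : ∀ z ∈ ball z₀ ε, (0 < sff φ y 1 1 z ∧ 0 < kdet φ y z) ∧ z ∈ W := by
    intro z hz
    obtain ⟨⟨a1, a2⟩, a3⟩ := hb hz
    exact ⟨⟨a1, a2⟩, a3⟩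
  have hneg : ∀ z ∈ ball z₀ ε, sff φ (-y) 1 1 z < 0 ∧ 0 < kdet φ (-y) z := by
    intro z hz
    obtain ⟨⟨a1, a2⟩, -⟩ := hball z hz
    have s1 : ∀ u v, sff φ (-y) u v z = -sff φ y u v z := fun u v => by
      unfold sff
      rw [inner_neg_left]
    refine ⟨by rw [s1]; linarith, ?_⟩
    unfold kdet at a2 ⊢
    rw [s1, s1, s1]
    linarith
  filter_upwards [ball_mem_nhds z₀ hε] with w hw
  have hu := (unique_crit (convex_ball z₀ ε)
    (fun z hz => hs.contDiffAt (hW.mem_nhds (hball z hz).2)) (-y) hneg (mem_ball_self hε) hw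
    (fun v => by rw [inner_neg_left, hc v, neg_zero])).1
  rw [inner_neg_left, inner_neg_left] at hu
  linarith

/-- The converse, at nondegenerate critical points. -/
theorem pos_of_isLocalMin {z : ℂ} (hsm : ContDiffAt ℝ ∞ φ z) {y : E4}
    (hmin : IsLocalMin (fun w => ⟪y, φ w⟫) z) (hk : kdet φ y z ≠ 0) : Crit φ y z ∧ Pos φ y z := by
  have e0 : (fun w => ⟪y, φ w⟫) = fun w => ⟪y, φ w⟫ + 0 := by
    funext w
    rw [add_zero]
  have hs2 : ContDiffAt ℝ ∞ (fun w => ⟪y, φ w⟫) z := (innerSL ℝ y).contDiff.contDiffAt.comp z hsm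
  have hsoc := Pool.Agent.Y640.RB.soc _ z hs2 hmin
  have s1 : ∀ u v, sff φ (-y) u v z = -sff φ y u v z := fun u v => by
    unfold sff
    rw [inner_neg_left]
  have hk' : kdet φ (-y) z = kdet φ y z := by
    unfold kdet
    rw [s1, s1, s1]
    ring
  have hneg : ∀ w, sff φ (-y) w w z ≤ 0 := by
    intro w
    have e2 := hsoc w
    rw [e0, (hess hsm y 0).2] at e2
    rw [s1]
    linarith
  obtain ⟨a, b⟩ := neg_of_semidef hsm hneg (by rw [hk']; exact hk)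
  have hcr : fderiv ℝ (fun w => ⟪y, φ w⟫) z = 0 := hmin.fderiv_eq_zero
  refine ⟨fun v => ?_, ?_, ?_⟩
  · rw [← (hess hsm y 0).1 v, ← e0, hcr]
    rfl
  · rw [s1] at a
    linarith
  · rwa [hk'] at b

end Pool.Agent.Run7.h836.PC
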