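import Mathlib
import Pool.Agent.Run7.h836.PC.FinA

/-!
Horizontal linear functions: a characterisation of the boundaries of discs with few minima.
-/

set_option autoImplicit false

namespace Pool.Agent.Run7.h836.PC

open scoped ContDiff RealInnerProductSpace ENNReal Topology
open MeasureTheory Set Metric Filter
open Pool.Agent.Y503.RB Pool.Agent.N503.ML Pool.Agent.N15.RC

variable {φ : ℂ → E4} {W : Set ℂ}

/-- The second derivative of `u` at `z` is a nondegenerate bilinear form. -/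
def Nondeg (u : ℂ → ℝ) (z : ℂ) : Prop :=
  ∀ a : ℂ, (∀ b : ℂ, fderiv ℝ (fderiv ℝ u) z a b = 0) → a = 0

/-- The function `u` on the closed unit disc has no critical points on the unit circle and only
nondegenerate ones in the open disc. -/
def MorseOn (u : ℂ → ℝ) : Prop :=
  (∀ z ∈ sphere (0 : ℂ) 1, fderiv ℝ u z ≠ 0) ∧ ∀ z ∈ ball (0 : ℂ) 1, fderiv ℝ u z = 0 → Nondeg u z

theorem kdet_ne_of {z₀ : ℂ} (hsm : ContDiffAt ℝ ∞ φ z₀) {n : E4}
    (hmo : ∀ u : ℂ, (∀ v : ℂ, sff φ n u v z₀ = 0) → u = 0) : kdet φ n z₀ ≠ 0 := by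
  intro hk
  unfold kdet at hk
  set e := sff φ n 1 1 z₀ with he
  set f := sff φ n 1 Complex.I z₀ with hf
  set g := sff φ n Complex.I Complex.I z₀ with hg
  have hsy : sff φ n Complex.I 1 z₀ = f := sff_symm hsm n _ _
  have hgen : ∀ u v : ℂ, sff φ n u v z₀ = u.re * (v.re * e + v.im * f) +
      u.im * (v.re * f + v.im * g) := by
    intro u v
    rw [sff_left n u v, sff_symm hsm n 1 v, sff_symm hsm n Complex.I v,
      sff_left n v 1, sff_left n v Complex.I, hsy]
  have h1 := hmo ⟨f, -e⟩ (fun v => by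
    rw [hgen]
    simp only
    linear_combination (-v.im) * hk)
  have h2 := hmo ⟨g, -f⟩ (fun v => by
    rw [hgen]
    simp only
    linear_combination (v.re) * hk)
  have hf0 : f = 0 := congrArg Complex.re h1
  have he0 : e = 0 := by
    have := congrArg Complex.im h1
    simp at this
    exact this
  have h3 := hmo 1 (fun v => by
    rw [hgen]
    simp [he0, hf0])
  exact one_ne_zero h3

theorem lin_deriv {z : ℂ} (h : ContDiffAt ℝ ∞ φ z) (y : E4) :
    (∀ v, fderiv ℝ (fun w => ⟪y, φ w⟫) z v = ⟪y, d1 φ v z⟫) ∧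
    (∀ u v, fderiv ℝ (fderiv ℝ (fun w => ⟪y, φ w⟫)) z u v = sff φ y u v z) := by
  have e0 : (fun w => ⟪y, φ w⟫) = fun w => ⟪y, φ w⟫ + 0 := by
    funext w
    rw [add_zero]
  rw [e0]
  exact hess h y 0

theorem crit_iff_fderiv {z : ℂ} (h : ContDiffAt ℝ ∞ φ z) (y : E4) :
    Crit φ y z ↔ fderiv ℝ (fun w => ⟪y, φ w⟫) z = 0 := by
  constructor
  · intro hc
    ext v
    rw [(lin_deriv h y).1, hc v]
    rfl
  · intro hc v
    rw [← (lin_deriv h y).1, hc]
    rfl

/-- Few minima of a linear function. -/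
theorem few_of_linear (h : PropDisc φ) {y : E4} (hy : 0 ≤ y 3) {m : ℕ}
    (hM : MorseOn (fun z => ⟪y, φ z⟫))
    (hm : {z : ℂ | z ∈ ball (0 : ℂ) 1 ∧ IsLocalMin (fun z => ⟪y, φ z⟫) z}.encard ≤ m) :
    ∃ ψ : ℂ → E4, HalfDisc ψ ∧ (∀ z ∈ sphere (0 : ℂ) 1, ψ z = φ z) ∧ MorseHt ψ ∧ nmin ψ ≤ m := by
  obtain ⟨W, hW, hsub, hs⟩ := h.smooth
  refine collar_main h hy (fun z hz hc => ?_) (fun s hs' => ?_)
  · have hat := h.at hz
    have hcr := (crit_iff_fderiv hat y).1 hc
    have hzb : z ∈ ball (0 : ℂ) 1 := by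
      by_contra hcon
      have hz1 : ‖z‖ = 1 := le_antisymm (mem_closedBall_zero_iff.1 hz)
        (not_lt.1 fun h => hcon (mem_ball_zero_iff.2 h))
      exact hM.1 z (mem_sphere_zero_iff_norm.2 hz1) hcr
    refine ⟨hzb, kdet_ne_of hat fun u hu => hM.2 z hzb hcr u fun v => ?_⟩
    rw [(lin_deriv hat y).2, hu v]
  · have h1 : ((s : Set ℂ)).encard ≤ m := by
      refine (Set.encard_le_encard fun z hz => ?_).trans hm
      obtain ⟨a1, a2, a3⟩ := hs' z (Finset.mem_coe.1 hz)
      exact ⟨a1, isLocalMin_of_pos hW hs (hsub (ball_subset_closedBall a1)) a2 a3⟩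
    rw [Set.encard_coe_eq_coe_finsetCard] at h1
    exact_mod_cast h1

/-- Stability of nondegeneracy. -/
theorem nondeg_stable (hW : IsOpen W) (hsub : closedBall (0 : ℂ) 1 ⊆ W) (hs : ContDiffOn ℝ ∞ φ W)
    {y0 : E4}
    (hcr : ∀ z ∈ closedBall (0 : ℂ) 1, Crit φ y0 z → z ∈ ball (0 : ℂ) 1 ∧ kdet φ y0 z ≠ 0) :
    ∃ δ > 0, ∀ y : E4, ‖y - y0‖ ≤ δ → ∀ z ∈ closedBall (0 : ℂ) 1, Crit φ y z →
      z ∈ ball (0 : ℂ) 1 ∧ kdet φ y z ≠ 0 := by
  by_contra hcon
  push Not at hcon
  have hseq : ∀ n : ℕ, ∃ (y : E4) (z : ℂ), ‖y - y0‖ ≤ 1 / ((n : ℝ) + 1) ∧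
      z ∈ closedBall (0 : ℂ) 1 ∧ Crit φ y z ∧ (z ∈ ball (0 : ℂ) 1 → kdet φ y z = 0) := by
    intro n
    have hn : 0 < 1 / ((n : ℝ) + 1) := by positivity
    obtain ⟨y, h1, z, h2, h3, h4⟩ := hcon (1 / ((n : ℝ) + 1)) hn
    exact ⟨y, z, h1, h2, h3, h4⟩
  choose Y Z h1 h2 h3 h4 using hseq
  obtain ⟨z, hz, σ, hσ, hlim⟩ := (isCompact_closedBall (0 : ℂ) 1).tendsto_subseq h2
  have l0 : Tendsto (fun n : ℕ => 1 / (((σ n : ℕ) : ℝ) + 1)) atTop (𝓝 0) :=
    tendsto_one_div_add_atTop_nhds_zero_nat.comp hσ.tendsto_atTop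
  have hY : Tendsto (fun n => Y (σ n)) atTop (𝓝 y0) := by
    rw [tendsto_iff_norm_sub_tendsto_zero]
    exact squeeze_zero (fun n => norm_nonneg _) (fun n => h1 (σ n)) l0
  have hZ : Tendsto (fun n => Z (σ n)) atTop (𝓝 z) := hlim
  have hcz : Crit φ y0 z := by
    intro v
    have l2 := tend_d1 hW hs (hsub hz) hY hZ v
    have l3 : (fun n => ⟪Y (σ n), d1 φ v (Z (σ n))⟫) = fun _ => (0 : ℝ) :=
      funext fun n => h3 (σ n) v
    rw [l3] at l2
    exact tendsto_nhds_unique l2 tendsto_const_nhds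
  obtain ⟨g1, g2⟩ := hcr z hz hcz
  have e1 : ∀ᶠ n in atTop, Z (σ n) ∈ ball (0 : ℂ) 1 := hZ.eventually (isOpen_ball.mem_nhds g1)
  have e2 : ∀ᶠ n in atTop, kdet φ (Y (σ n)) (Z (σ n)) ≠ 0 :=
    (tend_kdet hW hs (hsub hz) hY hZ).eventually_ne g2
  obtain ⟨n, n1, n2⟩ := (e1.and e2).exists
  exact n2 (h4 (σ n) n1)

/-- Radial derivative at the boundary of a disc which is vertical near the boundary. -/
theorem half_radial {ψ : ℂ → E4} (h : HalfDisc ψ) :
    ∃ c : ℝ, 0 < c ∧ ∀ z ∈ sphere (0 : ℂ) 1, d1 ψ z z = (-c) • vert := by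
  obtain ⟨δ, c, hδ, hδ1, hc, hcol⟩ := h.collar
  refine ⟨c, hc, fun z hz => ?_⟩
  have hz1 := mem_sphere_zero_iff_norm.1 hz
  have hd : DifferentiableAt ℝ ψ z := (h.at (sphere_subset_closedBall hz)).differentiableAt (by simp)
  have hl : HasDerivAt (fun t : ℝ => t • z) z 1 := by
    simpa using (hasDerivAt_id (1 : ℝ)).smul_const z
  have h1 : HasDerivAt (fun t : ℝ => ψ (t • z)) (fderiv ℝ ψ z z) 1 := by
    have h2 : HasFDerivAt ψ (fderiv ℝ ψ z) ((1 : ℝ) • z) := by
      rw [one_smul]; exact hd.hasFDerivAt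
    exact h2.comp_hasDerivAt (1 : ℝ) hl
  have h3 : HasDerivAt (fun t : ℝ => ψ z + (c * (1 - t)) • vert) ((-c) • vert) 1 := by
    have h4 : HasDerivAt (fun t : ℝ => c * (1 - t)) (-c) 1 := by
      have := ((hasDerivAt_id (1 : ℝ)).const_sub 1).const_mul c
      simpa using this
    exact (h4.smul_const vert).const_add (ψ z)
  have h4 : HasDerivWithinAt (fun t : ℝ => ψ (t • z)) ((-c) • vert) (Icc (1 - δ) 1) 1 := by
    refine h3.hasDerivWithinAt.congr_of_mem (fun t ht => ?_) ⟨by linarith, le_rfl⟩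
    have ht0 : 0 < t := by linarith [ht.1]
    have e1 : ‖t • z‖ = t := by
      rw [norm_smul, hz1, mul_one, Real.norm_eq_abs, abs_of_pos ht0]
    have h5 := hcol (t • z) (by rw [e1]; exact ht.1) (by rw [e1]; exact ht.2)
    rw [e1, smul_smul, inv_mul_cancel₀ ht0.ne', one_smul] at h5
    exact h5
  exact (uniqueDiffOn_Icc (by linarith : (1 : ℝ) - δ < 1) 1 ⟨by linarith, le_rfl⟩).eq_deriv _
    h1.hasDerivWithinAt h4

/-- The tangential derivative at the boundary is horizontal. -/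
theorem half_tang {ψ : ℂ → E4} (h : HalfDisc ψ) {z : ℂ} (hz : z ∈ sphere (0 : ℂ) 1) :
    (d1 ψ (Complex.I * z) z) 3 = 0 := by
  have hd : DifferentiableAt ℝ ψ z := (h.at (sphere_subset_closedBall hz)).differentiableAt (by simp)
  have hl : HasDerivAt (fun t : ℝ => Complex.exp (t * Complex.I) * z) (Complex.I * z) 0 := by
    have h1 : HasDerivAt (fun t : ℝ => Complex.exp (t * Complex.I)) Complex.I 0 := by
      have h2 : HasDerivAt (fun t : ℝ => (t : ℂ) * Complex.I) (1 * Complex.I) 0 :=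
        (Complex.ofRealCLM.hasDerivAt).mul_const Complex.I
      have h3 := h2.cexp
      simpa using h3
    exact h1.mul_const z
  have hn : ∀ t : ℝ, ‖Complex.exp (t * Complex.I) * z‖ = ‖z‖ := by
    intro t
    rw [norm_mul, Complex.norm_exp_ofReal_mul_I, one_mul]
  have h2 : HasFDerivAt ψ (fderiv ℝ ψ z) (Complex.exp (((0 : ℝ) : ℂ) * Complex.I) * z) := by
    have e0 : Complex.exp (((0 : ℝ) : ℂ) * Complex.I) * z = z := by simp
    rw [e0]; exact hd.hasFDerivAt
  have h3 := (EuclideanSpace.proj (3 : Fin 4) : E4 →L[ℝ] ℝ).hasFDerivAt.comp_hasDerivAt (0 : ℝ)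
    (h2.comp_hasDerivAt (0 : ℝ) hl)
  have h4 : (⇑(EuclideanSpace.proj (3 : Fin 4) : E4 →L[ℝ] ℝ) ∘
      (ψ ∘ fun t : ℝ => Complex.exp (t * Complex.I) * z)) = fun _ => (0 : ℝ) := by
    funext t
    exact h.bdry _ (by rw [mem_sphere_zero_iff_norm, hn, mem_sphere_zero_iff_norm.1 hz])
  rw [h4] at h3
  exact h3.unique (hasDerivAt_const _ _)

/-- The vectors tangent to a curve in three-space form a null set. -/
theorem null_curve (hW : IsOpen W) (hsub : sphere (0 : ℂ) 1 ⊆ W) {H : ℂ → E3}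
    (hH : ContDiffOn ℝ ∞ H W) :
    volume {w : E3 | ∃ z ∈ sphere (0 : ℂ) 1, ∃ t : ℝ, w = t • H z} = 0 := by
  set G : E3 → E3 := fun x => x 2 • H (Circle.exp (x 0)) with hG
  have hmem : ∀ s : ℝ, ((Circle.exp s : Circle) : ℂ) ∈ W := fun s =>
    hsub (mem_sphere_zero_iff_norm.2 (by simp))
  have hsm : ∀ x, ContDiffAt ℝ ∞ G x := by
    intro x
    have c0 : ContDiffAt ℝ ∞ (fun x : E3 => x 0) x :=
      (EuclideanSpace.proj (0 : Fin 3) : E3 →L[ℝ] ℝ).contDiff.contDiffAt
    have c2 : ContDiffAt ℝ ∞ (fun x : E3 => x 2) x :=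
      (EuclideanSpace.proj (2 : Fin 3) : E3 →L[ℝ] ℝ).contDiff.contDiffAt
    have c3 : ContDiffAt ℝ ∞ (fun x : E3 => ((Circle.exp (x 0) : Circle) : ℂ)) x := by
      have e : (fun x : E3 => ((Circle.exp (x 0) : Circle) : ℂ)) =
          fun x : E3 => Complex.exp ((x 0 : ℂ) * Complex.I) := by
        funext x
        rw [Circle.coe_exp]
      rw [e]
      have e1 : ContDiffAt ℝ ∞ (fun x : E3 => ((x 0 : ℝ) : ℂ) * Complex.I) x :=
        (Complex.ofRealCLM.contDiff.contDiffAt.comp x c0).mul contDiffAt_const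
      exact e1.cexp
    exact c2.smul ((hH.contDiffAt (hW.mem_nhds (hmem _))).comp x c3)
  have himg : {w : E3 | ∃ z ∈ sphere (0 : ℂ) 1, ∃ t : ℝ, w = t • H z} ⊆ G '' univ := by
    rintro w ⟨z, hz, t, rfl⟩
    have hz1 := mem_sphere_zero_iff_norm.1 hz
    refine ⟨mk3 (⟨z.arg, 0⟩ : ℂ) t, mem_univ _, ?_⟩
    show ((mk3 (⟨z.arg, 0⟩ : ℂ) t) 2) • H (Circle.exp ((mk3 (⟨z.arg, 0⟩ : ℂ) t) 0)) = t • H z
    have e0 : (mk3 (⟨z.arg, 0⟩ : ℂ) t) 0 = z.arg := rfl
    rw [e0, mk3_two, Circle.coe_exp]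
    have := Complex.norm_mul_exp_arg_mul_I z
    rw [hz1, Complex.ofReal_one, one_mul] at this
    rw [this]
  refine measure_mono_null himg (addHaar_image_eq_zero_of_det_fderivWithin_eq_zero volume
    (f' := fun x => fderiv ℝ G x)
    (fun x _ => ((hsm x).differentiableAt (by simp)).hasFDerivAt.hasFDerivWithinAt)
    (fun x _ => ?_))
  rw [det3_eq, det3_cols]
  have h1 : fderiv ℝ G x (EuclideanSpace.single 1 1) = 0 := by
    have hd := ((hsm x).differentiableAt (by simp)).hasFDerivAt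
    have hl : HasDerivAt (fun s : ℝ => x + s • (EuclideanSpace.single 1 (1 : ℝ) : E3))
        (EuclideanSpace.single 1 1) 0 := by
      have := ((hasDerivAt_id (0 : ℝ)).smul_const
        (EuclideanSpace.single 1 (1 : ℝ) : E3)).const_add x
      simpa using this
    have hd' : HasFDerivAt G (fderiv ℝ G x)
        (x + (0 : ℝ) • (EuclideanSpace.single 1 (1 : ℝ) : E3)) := by
      simpa using hd
    have h2 := hd'.comp_hasDerivAt (0 : ℝ) hl
    have h3 : (G ∘ fun s : ℝ => x + s • (EuclideanSpace.single 1 (1 : ℝ) : E3)) = fun _ => G x := by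
      funext s
      simp [hG]
    rw [h3] at h2
    exact h2.unique (hasDerivAt_const _ _)
  have : ∀ a : E3, cross a 0 = 0 := by
    intro a
    ext i
    fin_cases i
    · show a 1 * 0 - a 2 * 0 = 0
      ring
    · show a 2 * 0 - a 0 * 0 = 0
      ring
    · show a 0 * 0 - a 1 * 0 = 0
      ring
  rw [h1, this, inner_zero_left]

/-- The horizontal shear. -/
noncomputable def shear (μ : ℝ) (w : E3) : E4 →L[ℝ] E4 :=
  ContinuousLinearMap.id ℝ E4 +
    (μ • (EuclideanSpace.proj (3 : Fin 4) : E4 →L[ℝ] ℝ)).smulRight (upw w)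

theorem shear_apply (μ : ℝ) (w : E3) (x : E4) : shear μ w x = x + (μ * x 3) • upw w := rfl

theorem shear_three (μ : ℝ) (w : E3) (x : E4) : shear μ w x 3 = x 3 := by
  rw [shear_apply]
  show x 3 + (μ * x 3) * upw w 3 = x 3
  rw [upw_3, mul_zero, add_zero]

theorem shear_inj (μ : ℝ) (w : E3) : Function.Injective (shear μ w) := by
  intro x y h
  have h3 : x 3 = y 3 := by
    rw [← shear_three μ w x, ← shear_three μ w y, h]
  rw [shear_apply, shear_apply, h3] at h
  exact add_right_cancel h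

/-- **Characterisation by horizontal linear functions.** -/
theorem horizontal_iff (γ : ℂ → E4) (m : ℕ) :
    (∃ ψ : ℂ → E4, HalfDisc ψ ∧ (∀ z ∈ sphere (0 : ℂ) 1, ψ z = γ z) ∧ MorseHt ψ ∧ nmin ψ ≤ m) ↔
    ∃ φ : ℂ → E4, PropDisc φ ∧ (∀ z ∈ sphere (0 : ℂ) 1, φ z = γ z) ∧ ∃ w : E3,
      MorseOn (fun z => ⟪w, hor φ z⟫) ∧
      {z : ℂ | z ∈ ball (0 : ℂ) 1 ∧ IsLocalMin (fun z => ⟪w, hor φ z⟫) z}.encard ≤ m := by
  constructor
  · rintro ⟨ψ, h, hb, hM, hm⟩
    obtain ⟨W, hW, hsub, hs⟩ := h.smooth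
    obtain ⟨c, hc, hrad⟩ := half_radial h
    -- the direction of the shear
    have hH : ContDiffOn ℝ ∞ (fun z => prj (d1 ψ (Complex.I * z) z)) W := by
      have h1 : ContDiffOn ℝ ∞ (fun z => fderiv ℝ ψ z) W := hs.fderiv_of_isOpen hW (by simp)
      have h2 : ContDiffOn ℝ ∞ (fun z : ℂ => Complex.I * z) W :=
        (contDiff_const.mul contDiff_id).contDiffOn
      exact prj.contDiff.comp_contDiffOn (h1.clm_apply h2)
    have hnull := null_curve hW (sphere_subset_closedBall.trans hsub) hH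
    obtain ⟨w, hw⟩ : ∃ w : E3, ¬∃ z ∈ sphere (0 : ℂ) 1, ∃ t : ℝ,
        w = t • prj (d1 ψ (Complex.I * z) z) := by
      by_contra hcon
      push Not at hcon
      have h1 : (univ : Set E3) ⊆ {w : E3 | ∃ z ∈ sphere (0 : ℂ) 1, ∃ t : ℝ,
        w = t • prj (d1 ψ (Complex.I * z) z)} := fun w _ => hcon w
      have h2 := measure_mono_null h1 hnull
      have h3 : volume (ball (0 : E3) 1) = 0 := measure_mono_null (subset_univ _) h2
      exact (measure_ball_pos volume (0 : E3) one_pos).ne' h3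
    have hw0 : w ≠ 0 := by
      rintro rfl
      exact hw ⟨1, by simp, 0, by simp⟩
    have hwn : 0 < ‖w‖ ^ 2 := by
      have := norm_pos_iff.2 hw0
      positivity
    -- behaviour of the height
    have hsv : ∀ z ∈ sphere (0 : ℂ) 1, ∀ p : E4, p 3 = 1 → ¬Crit ψ p z := by
      intro z hz p hp hcr
      have h1 := hcr z
      rw [hrad z hz, real_inner_smul_right, real_inner_comm, inner_vert, hp] at h1
      linarith
    have hcr0 : ∀ z ∈ closedBall (0 : ℂ) 1, Crit ψ vert z → z ∈ ball (0 : ℂ) 1 ∧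
        kdet ψ vert z ≠ 0 := by
      intro z hz hcr
      have hzb : z ∈ ball (0 : ℂ) 1 := by
        by_contra hcon
        have hz1 : ‖z‖ = 1 := le_antisymm (mem_closedBall_zero_iff.1 hz)
          (not_lt.1 fun h => hcon (mem_ball_zero_iff.2 h))
        exact hsv z (mem_sphere_zero_iff_norm.2 hz1) vert vert_three hcr
      refine ⟨hzb, kdet_ne (srf_of h) hM hzb ?_⟩
      have e : (fun w => ψ w 3) = fun w => ⟪vert, ψ w⟫ := by
        funext w
        rw [inner_vert]
      rw [e]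
      exact (crit_iff_fderiv (h.at hz) vert).1 hcr
    have hcount0 : ∀ s : Finset ℂ, (∀ z ∈ s, z ∈ ball (0 : ℂ) 1 ∧ Crit ψ vert z ∧ Pos ψ vert z) →
        s.card ≤ m := by
      intro s hs'
      have h1 : ((s : Set ℂ)).encard ≤ m := by
        refine (Set.encard_le_encard fun z hz => ?_).trans hm
        obtain ⟨a1, a2, a3⟩ := hs' z (Finset.mem_coe.1 hz)
        have := isLocalMin_of_pos hW hs (hsub (ball_subset_closedBall a1)) a2 a3
        simp only [inner_vert] at this
        exact ⟨a1, this⟩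
      rw [Set.encard_coe_eq_coe_finsetCard] at h1
      exact_mod_cast h1
    obtain ⟨δ1, hδ1, hst1⟩ := nondeg_stable hW hsub hs hcr0
    obtain ⟨δ2, hδ2, hst2⟩ := count_stable hW hsub hs hcr0 hcount0
    -- the size of the shear
    obtain ⟨K, hK⟩ : ∃ K : ℝ, K = (‖upw w‖ + 1) / min δ1 δ2 := ⟨_, rfl⟩
    have hmin : 0 < min δ1 δ2 := lt_min hδ1 hδ2
    have hKp : 0 < K := by
      rw [hK]
      have := norm_nonneg (upw w)
      positivity
    obtain ⟨p, hp⟩ : ∃ p : E4, p = vert + K⁻¹ • upw w := ⟨_, rfl⟩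
    have hp3 : p 3 = 1 := by
      rw [hp]
      show vert 3 + K⁻¹ * upw w 3 = 1
      rw [upw_3, vert_three, mul_zero, add_zero]
    have hpd : ‖p - vert‖ ≤ min δ1 δ2 := by
      rw [hp, add_sub_cancel_left, norm_smul, norm_inv, Real.norm_eq_abs, abs_of_pos hKp,
        inv_mul_le_iff₀ hKp, hK, div_mul_cancel₀ _ hmin.ne']
      linarith
    have hlin : ∀ x : E4, ⟪upw w, shear (K / ‖w‖ ^ 2) w x⟫ = K * ⟪p, x⟫ := by
      intro x
      have e1 : ⟪upw w, upw w⟫ = ‖w‖ ^ 2 := by
        rw [inner_upw, ← real_inner_self_eq_norm_sq]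
        congr 1
        ext i
        fin_cases i <;> rfl
      rw [shear_apply, inner_add_right, real_inner_smul_right, e1, hp, inner_add_left,
        real_inner_smul_left, inner_vert]
      field_simp
      ring
    obtain ⟨φ, hφ⟩ : ∃ φ : ℂ → E4, φ = fun z => shear (K / ‖w‖ ^ 2) w (ψ z) := ⟨_, rfl⟩
    have hd1 : ∀ z ∈ closedBall (0 : ℂ) 1, ∀ v, d1 φ v z = shear (K / ‖w‖ ^ 2) w (d1 ψ v z) := by
      intro z hz v
      have : HasFDerivAt φ ((shear (K / ‖w‖ ^ 2) w).comp (fderiv ℝ ψ z)) z := by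
        rw [hφ]
        exact (shear (K / ‖w‖ ^ 2) w).hasFDerivAt.comp z
          ((h.at hz).differentiableAt (by simp)).hasFDerivAt
      unfold d1
      rw [this.fderiv]
      rfl
    have hbφ : ∀ z ∈ sphere (0 : ℂ) 1, φ z = ψ z := by
      intro z hz
      rw [hφ]
      show shear (K / ‖w‖ ^ 2) w (ψ z) = ψ z
      rw [shear_apply, h.bdry z hz, mul_zero, zero_smul, add_zero]
    have hP : PropDisc φ := by
      refine ⟨⟨W, hW, hsub, ?_⟩, ?_, ?_, ?_, ?_, ?_⟩
      · rw [hφ]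
        exact (shear (K / ‖w‖ ^ 2) w).contDiff.comp_contDiffOn hs
      · intro a ha b hb' hab
        rw [hφ] at hab
        exact h.inj ha hb' (shear_inj _ _ hab)
      · intro z hz a b hab
        have h1 : d1 φ a z = d1 φ b z := hab
        rw [hd1 z hz, hd1 z hz] at h1
        exact h.imm z hz (shear_inj _ _ h1)
      · intro z hz
        rw [hφ]
        show 0 < shear (K / ‖w‖ ^ 2) w (ψ z) 3
        rw [shear_three]
        exact h.inside z hz
      · intro z hz
        rw [hbφ z hz]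
        exact h.bdry z hz
      · rintro z hz ⟨v, hv, s, hvs⟩
        have hzc := sphere_subset_closedBall hz
        have hz0 : z ≠ 0 := by
          rintro rfl
          simp at hz
        rw [hd1 z hzc] at hvs
        obtain ⟨α, hα⟩ : ∃ α, α = (v / z).re := ⟨_, rfl⟩
        obtain ⟨β, hβ⟩ : ∃ β, β = (v / z).im := ⟨_, rfl⟩
        have hvd : v = α • z + β • (Complex.I * z) := by
          rw [hα, hβ]
          exact dir_eq hz0 v
        rw [hvd, d1_comb, hrad z hz, map_add, map_smul, map_smul, map_smul, shear_apply,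
          shear_apply, half_tang h hz, vert_three] at hvs
        have hpr := congrArg prj hvs
        have hpu : prj (upw w) = w := by
          ext i
          fin_cases i <;> rfl
        simp only [map_add, map_smul, prj_vert, smul_zero, zero_add, mul_one, mul_zero, zero_smul,
          add_zero, hpu, smul_smul] at hpr
        rw [mul_assoc] at hpr
        -- `hpr : (α * (-c * (K / ‖w‖²))) • w + β • prj (d1 ψ (I z) z) = 0`
        by_cases hα0 : α = 0
        · rw [hα0] at hpr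
          simp only [zero_mul, zero_smul, zero_add] at hpr
          have hβ0 : β ≠ 0 := by
            intro hβ0
            rw [hα0, hβ0] at hvd
            simp at hvd
            exact hv hvd
          have h1 : prj (d1 ψ (Complex.I * z) z) = 0 := (smul_eq_zero.1 hpr).resolve_left hβ0
          have h2 : d1 ψ (Complex.I * z) z = 0 :=
            eq_of_prj (h1.trans (map_zero prj).symm) (half_tang h hz)
          have h3 := h.imm z hzc (h2.trans (map_zero (fderiv ℝ ψ z)).symm)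
          exact (mul_ne_zero Complex.I_ne_zero hz0) h3
        · apply hw
          have hne : α * (-c * (K / ‖w‖ ^ 2)) ≠ 0 := by
            refine mul_ne_zero hα0 (mul_ne_zero (neg_ne_zero.2 hc.ne') ?_)
            positivity
          refine ⟨z, hz, -((α * (-c * (K / ‖w‖ ^ 2)))⁻¹ * β), ?_⟩
          have h1 : (α * (-c * (K / ‖w‖ ^ 2))) • w = -(β • prj (d1 ψ (Complex.I * z) z)) :=
            eq_neg_of_add_eq_zero_left hpr
          have h2 := congrArg (fun x => (α * (-c * (K / ‖w‖ ^ 2)))⁻¹ • x) h1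
          simp only [smul_smul, inv_mul_cancel₀ hne, one_smul] at h2
          refine h2.trans ?_
          rw [smul_neg, smul_smul, neg_smul]
    refine ⟨φ, hP, fun z hz => (hbφ z hz).trans (hb z hz), w, ?_, ?_⟩
    · -- Morse
      have hu : (fun z => ⟪w, hor φ z⟫) = fun z => ⟪upw w, φ z⟫ := by
        funext z
        rw [inner_upw]
        rfl
      rw [hu]
      have hcrit : ∀ z ∈ closedBall (0 : ℂ) 1, Crit φ (upw w) z → Crit ψ p z := by
        intro z hz hcr v
        have h1 := hcr v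
        rw [hd1 z hz, hlin] at h1
        exact (mul_eq_zero.1 h1).resolve_left hKp.ne'
      have hsff : ∀ z ∈ closedBall (0 : ℂ) 1, ∀ a b, sff φ (upw w) a b z = K * sff ψ p a b z := by
        intro z hz a b
        have e1 : (fun z => ⟪upw w, φ z⟫) = fun z => ⟪K • p, ψ z⟫ := by
          funext z
          rw [hφ, hlin, real_inner_smul_left]
        rw [← (lin_deriv (hP.at hz) (upw w)).2, e1, (lin_deriv (h.at hz) (K • p)).2]
        unfold sff
        rw [real_inner_smul_left]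
      refine ⟨fun z hz h0 => ?_, fun z hz h0 a ha => ?_⟩
      · have hzc := sphere_subset_closedBall hz
        exact hsv z hz p hp3 (hcrit z hzc ((crit_iff_fderiv (hP.at hzc) _).2 h0))
      · have hzc := ball_subset_closedBall hz
        have h1 := hst1 p (hpd.trans (min_le_left _ _)) z hzc
          (hcrit z hzc ((crit_iff_fderiv (hP.at hzc) _).2 h0))
        refine nondegE (h.at hzc) h1.2 fun v => ?_
        have h2 := ha v
        rw [(lin_deriv (hP.at hzc) _).2, hsff z hzc] at h2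
        exact (mul_eq_zero.1 h2).resolve_left hKp.ne'
    · -- counting
      have hu : (fun z => ⟪w, hor φ z⟫) = fun z => ⟪K • p, ψ z⟫ := by
        funext z
        rw [real_inner_smul_left, ← hlin, inner_upw, hφ]
        rfl
      rw [hu]
      have hmins : ∀ z ∈ ball (0 : ℂ) 1, IsLocalMin (fun z => ⟪K • p, ψ z⟫) z →
          Crit ψ p z ∧ Pos ψ p z := by
        intro z hz hmin'
        have hzc := ball_subset_closedBall hz
        have h1 : IsLocalMin (fun z => ⟪p, ψ z⟫) z := by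
          filter_upwards [hmin'] with x hx
          simp only [real_inner_smul_left] at hx
          exact le_of_mul_le_mul_left hx hKp
        have hcr : Crit ψ p z := (crit_iff_fderiv (h.at hzc) p).2 h1.fderiv_eq_zero
        exact pos_of_isLocalMin (h.at hzc) h1 (hst1 p (hpd.trans (min_le_left _ _)) z hzc hcr).2
      by_contra hcon
      push Not at hcon
      have h1 : ((m + 1 : ℕ) : ℕ∞) ≤ {z : ℂ | z ∈ ball (0 : ℂ) 1 ∧
          IsLocalMin (fun z => ⟪K • p, ψ z⟫) z}.encard := by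
        push_cast
        exact Order.add_one_le_of_lt hcon
      obtain ⟨t, ht, htc⟩ := Set.exists_subset_encard_eq h1
      have htf : t.Finite := Set.finite_of_encard_eq_coe htc
      have h2 := hst2 p (hpd.trans (min_le_right _ _)) htf.toFinset (fun z hz => by
        have h5 := ht (htf.mem_toFinset.1 hz)
        obtain ⟨a1, a2⟩ := hmins z h5.1 h5.2
        exact ⟨ball_subset_closedBall h5.1, a1, a2⟩)
      have h3 : (htf.toFinset.card : ℕ∞) = ((m + 1 : ℕ) : ℕ∞) := by
        rw [← htc, htf.encard_eq_coe_toFinset_card]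
      have h4 : htf.toFinset.card = m + 1 := by exact_mod_cast h3
      omega
  · rintro ⟨φ, h, hb, w, hM, hm⟩
    have hu : (fun z => ⟪w, hor φ z⟫) = fun z => ⟪upw w, φ z⟫ := by
      funext z
      rw [inner_upw]
      rfl
    rw [hu] at hM hm
    obtain ⟨ψ, h1, h2, h3, h4⟩ := few_of_linear h (y := upw w) (by rw [upw_3]) hM hm
    exact ⟨ψ, h1, fun z hz => (h2 z hz).trans (hb z hz), h3, h4⟩

end Pool.Agent.Run7.h836.PC
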