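import Mathlib
import Pool.Agent.Run7.h836.PC.FinB

/-!
The lower total curvature of properly embedded discs which are nowhere vertical along the boundary.
-/

set_option autoImplicit false

namespace Pool.Agent.Run7.h836.PC

open scoped ContDiff RealInnerProductSpace ENNReal Topology
open MeasureTheory Set Metric Filter
open Pool.Agent.Y503.RB Pool.Agent.N503.ML Pool.Agent.N15.RC

variable {φ : ℂ → E4} {W : Set ℂ}

theorem inj_of_fffDet {z : ℂ} (h : 0 < fffDet φ z) : Function.Injective (fderiv ℝ φ z) := by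
  rw [injective_iff_map_eq_zero]
  intro v hv
  by_contra hv0
  have hl : v.re • d1 φ 1 z + v.im • d1 φ Complex.I z = 0 := by
    rw [← d1_comb]
    have : v.re • (1 : ℂ) + v.im • Complex.I = v := by
      apply Complex.ext <;> simp
    rw [this]
    exact hv
  have e0 : fffDet φ z = ⟪d1 φ 1 z, d1 φ 1 z⟫ * ⟪d1 φ Complex.I z, d1 φ Complex.I z⟫ -
    ⟪d1 φ 1 z, d1 φ Complex.I z⟫ ^ 2 := rfl
  rw [e0] at h
  set A := d1 φ 1 z
  set B := d1 φ Complex.I z
  have e1 : v.re * ⟪A, A⟫ + v.im * ⟪A, B⟫ = 0 := by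
    have := congrArg (fun w => ⟪A, w⟫) hl
    simp only [inner_add_right, real_inner_smul_right, inner_zero_right] at this
    exact this
  have e2 : v.re * ⟪A, B⟫ + v.im * ⟪B, B⟫ = 0 := by
    have := congrArg (fun w => ⟪B, w⟫) hl
    simp only [inner_add_right, real_inner_smul_right, inner_zero_right] at this
    rw [real_inner_comm A B] at this
    exact this
  have e3 : v.re * (⟪A, A⟫ * ⟪B, B⟫ - ⟪A, B⟫ ^ 2) = 0 := by
    linear_combination ⟪B, B⟫ * e1 - ⟪A, B⟫ * e2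
  have e4 : v.im * (⟪A, A⟫ * ⟪B, B⟫ - ⟪A, B⟫ ^ 2) = 0 := by
    linear_combination ⟪A, A⟫ * e2 - ⟪A, B⟫ * e1
  exact hv0 (Complex.ext ((mul_eq_zero.1 e3).resolve_right h.ne')
    ((mul_eq_zero.1 e4).resolve_right h.ne'))

/-- For almost all `y` there are no critical points on the unit circle. -/
theorem crit_bd_null (hW : IsOpen W) (hsub : closedBall (0 : ℂ) 1 ⊆ W) (hs : ContDiffOn ℝ ∞ φ W)
    (himm : ∀ z ∈ closedBall (0 : ℂ) 1, Function.Injective (fderiv ℝ φ z)) :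
    ∃ Z : Set E4, volume Z = 0 ∧ ∀ y ∉ Z, y ≠ 0 → ∀ z ∈ sphere (0 : ℂ) 1, ¬Crit φ y z := by
  have hF : ContinuousOn (fun z => fffDet φ z) W := by
    unfold fffDet fff
    exact (((c1 hW hs 1).inner (c1 hW hs 1)).mul
      ((c1 hW hs Complex.I).inner (c1 hW hs Complex.I))).sub
        (((c1 hW hs 1).inner (c1 hW hs Complex.I)).pow 2)
  have hP : IPatch φ (W ∩ (fun z => fffDet φ z) ⁻¹' Ioi 0) :=
    ⟨hF.isOpen_inter_preimage hW isOpen_Ioi, hs.mono inter_subset_left,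
      fun z hz => inj_of_fffDet hz.2⟩
  obtain ⟨N₁, N₂, V, hV, hU⟩ := framed_cover hP
  set κ : E4 → E4 := fun x => mk4 (Circle.exp (x 0)) (x 2) (x 3) with hκ
  have hκs : ContDiff ℝ ∞ κ := by
    rw [contDiff_euclidean]
    have c0 : ∀ i : Fin 4, ContDiff ℝ ∞ (fun x : E4 => x i) := fun i =>
      (EuclideanSpace.proj i : E4 →L[ℝ] ℝ).contDiff
    intro i
    fin_cases i
    · have : (fun x : E4 => κ x 0) = fun x => Real.cos (x 0) := by
        funext x
        show ((Circle.exp (x 0) : Circle) : ℂ).re = _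
        rw [Circle.coe_exp, Complex.exp_ofReal_mul_I_re]
      exact this ▸ (Real.contDiff_cos.comp (c0 0))
    · have : (fun x : E4 => κ x 1) = fun x => Real.sin (x 0) := by
        funext x
        show ((Circle.exp (x 0) : Circle) : ℂ).im = _
        rw [Circle.coe_exp, Complex.exp_ofReal_mul_I_im]
      exact this ▸ (Real.contDiff_sin.comp (c0 0))
    · exact c0 2
    · exact c0 3
  refine ⟨⋃ j, (fun x => cE (N₁ j) (N₂ j) (κ x)) '' {x | zc (κ x) ∈ V j}, ?_, ?_⟩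
  · rw [measure_iUnion_null_iff]
    intro j
    have hPj : IPatch φ (V j) := ⟨(hV j).1, hP.smooth.mono (hV j).2.2,
      fun z hz => hP.imm z ((hV j).2.2 hz)⟩
    have hder : ∀ x ∈ {x | zc (κ x) ∈ V j}, HasFDerivAt (fun x => cE (N₁ j) (N₂ j) (κ x))
        ((fderiv ℝ (cE (N₁ j) (N₂ j)) (κ x)).comp (fderiv ℝ κ x)) x := by
      intro x hx
      exact HasFDerivAt.comp x ((cE_det hPj (hV j).2.1 hx).1.differentiableAt
        (by simp)).hasFDerivAt ((hκs.differentiable (by simp)) x).hasFDerivAt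
    refine addHaar_image_eq_zero_of_det_fderivWithin_eq_zero volume
      (f' := fun x => (fderiv ℝ (cE (N₁ j) (N₂ j)) (κ x)).comp (fderiv ℝ κ x))
      (fun x hx => (hder x hx).hasFDerivWithinAt) (fun x _ => ?_)
    rw [Pool.Agent.Y421.RB.det_eq]
    have h1 : fderiv ℝ κ x (EuclideanSpace.single 1 1) = 0 := by
      have hd := ((hκs.differentiable (by simp)) x).hasFDerivAt
      have hl : HasDerivAt (fun s : ℝ => x + s • (EuclideanSpace.single 1 (1 : ℝ) : E4))
          (EuclideanSpace.single 1 1) 0 := by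
        have := ((hasDerivAt_id (0 : ℝ)).smul_const
          (EuclideanSpace.single 1 (1 : ℝ) : E4)).const_add x
        simpa using this
      have hd' : HasFDerivAt κ (fderiv ℝ κ x)
          (x + (0 : ℝ) • (EuclideanSpace.single 1 (1 : ℝ) : E4)) := by
        simpa using hd
      have h2 := hd'.comp_hasDerivAt (0 : ℝ) hl
      have h3 : (κ ∘ fun s : ℝ => x + s • (EuclideanSpace.single 1 (1 : ℝ) : E4)) =
          fun _ => κ x := by
        funext s
        simp [hκ]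
      rw [h3] at h2
      exact h2.unique (hasDerivAt_const _ _)
    refine Matrix.det_eq_zero_of_column_eq_zero 1 fun i => ?_
    show ((fderiv ℝ (cE (N₁ j) (N₂ j)) (κ x)).comp (fderiv ℝ κ x))
      (EuclideanSpace.single 1 1) i = 0
    rw [ContinuousLinearMap.comp_apply, h1, map_zero]
    rfl
  · intro y hy hy0 z hz hc
    have hzc := sphere_subset_closedBall hz
    have hzU : z ∈ W ∩ (fun z => fffDet φ z) ⁻¹' Ioi 0 :=
      ⟨hsub hzc, Pool.Agent.Y503.RB.fffDet_pos (himm z hzc)⟩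
    obtain ⟨j, hj⟩ := mem_iUnion.1 (hU hzU)
    have hPj : IPatch φ (V j) := ⟨(hV j).1, hP.smooth.mono (hV j).2.2,
      fun z hz => hP.imm z ((hV j).2.2 hz)⟩
    have hy0' : 0 < ‖y‖ := norm_pos_iff.2 hy0
    have hyr : ‖y‖ • (‖y‖⁻¹ • y) = y := by
      rw [smul_smul, mul_inv_cancel₀ hy0'.ne', one_smul]
    obtain ⟨θ, hθ, hn⟩ := frame_unit hPj (hV j).2.1 hj (n := ‖y‖⁻¹ • y)
      (by rw [norm_smul, norm_inv, norm_norm, inv_mul_cancel₀ hy0'.ne'])
      (fun v => by rw [real_inner_smul_left, hc v, mul_zero])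
    apply hy
    have hz1 := mem_sphere_zero_iff_norm.1 hz
    have hκz : κ (mk4 (⟨z.arg, 0⟩ : ℂ) θ ‖y‖) = mk4 z θ ‖y‖ := by
      rw [hκ]
      simp only [mk4_two, mk4_three]
      have e0 : (mk4 (⟨z.arg, 0⟩ : ℂ) θ ‖y‖) 0 = z.arg := rfl
      rw [e0, Circle.coe_exp]
      have := Complex.norm_mul_exp_arg_mul_I z
      rw [hz1, Complex.ofReal_one, one_mul] at this
      rw [this]
    refine mem_iUnion.2 ⟨j, mk4 (⟨z.arg, 0⟩ : ℂ) θ ‖y‖, ?_, ?_⟩
    · show zc (κ _) ∈ V j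
      rw [hκz, mk4_zc]
      exact hj
    · show cE (N₁ j) (N₂ j) (κ _) = y
      rw [hκz]
      unfold cE
      rw [mk4_zc, mk4_two, mk4_three, ← hn, hyr]

/-- **Lower total curvature**, without verticality along the boundary. -/
theorem ribbon_of_lowE (h : PropDisc φ) (m : ℕ)
    (hT : lowE φ < ENNReal.ofReal (Real.pi ^ 2 * (m + 1))) :
    ∃ ψ : ℂ → E4, HalfDisc ψ ∧ (∀ z ∈ sphere (0 : ℂ) 1, ψ z = φ z) ∧ MorseHt ψ ∧ nmin ψ ≤ m := by
  obtain ⟨W, hW, hsub, hs⟩ := h.smooth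
  obtain ⟨c, hc1, hc2, hc3, -, -⟩ := counting (ipatch_opp h.patch) isOpen_ball.measurableSet
    subset_rfl
  obtain ⟨Z, hZ, hZ2⟩ := sard h.patch
  obtain ⟨Z', hZ', hZ2'⟩ := crit_bd_null hW hsub hs h.imm
  have hex : ∃ y ∈ HB, c y < ((m + 1 : ℕ) : ℝ≥0∞) ∧ y ∉ Z ∪ Z' := by
    by_contra hcon
    push Not at hcon
    have h1 : volume HB ≤ volume {y | ((m + 1 : ℕ) : ℝ≥0∞) ≤ c y} := by
      calc volume HB ≤ volume ({y | ((m + 1 : ℕ) : ℝ≥0∞) ≤ c y} ∪ (Z ∪ Z')) := by
            refine measure_mono fun y hy => ?_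
            by_cases h : c y < ((m + 1 : ℕ) : ℝ≥0∞)
            · exact Or.inr (hcon y hy h)
            · exact Or.inl (not_lt.1 h)
        _ ≤ _ := by
            refine (measure_union_le _ _).trans ?_
            rw [measure_union_null hZ hZ', add_zero]
    have h2 : ((m + 1 : ℕ) : ℝ≥0∞) * volume {y | ((m + 1 : ℕ) : ℝ≥0∞) ≤ c y} ≤ ∫⁻ y, c y :=
      mul_meas_ge_le_lintegral hc1 _
    have e2 : ∫⁻ z in ball (0 : ℂ) 1, curvE (opp φ) z = lowE φ := uppE_opp φ
    rw [hc2, e2] at h2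
    have h3 : ENNReal.ofReal (1 / 4) * lowE φ <
        ENNReal.ofReal (1 / 4) * ENNReal.ofReal (Real.pi ^ 2 * (m + 1)) := by
      refine ENNReal.mul_lt_mul_right ?_ ?_ hT
      · simp
      · exact ENNReal.ofReal_ne_top
    have h4 : ENNReal.ofReal (1 / 4) * ENNReal.ofReal (Real.pi ^ 2 * (m + 1)) =
        ((m + 1 : ℕ) : ℝ≥0∞) * ENNReal.ofReal (Real.pi ^ 2 / 4) := by
      rw [← ENNReal.ofReal_mul (by norm_num), ← ENNReal.ofReal_natCast,
        ← ENNReal.ofReal_mul (by positivity)]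
      congr 1
      push_cast
      ring
    rw [h4, ← vol_HB] at h3
    have h5 : ((m + 1 : ℕ) : ℝ≥0∞) * volume HB ≤
        ((m + 1 : ℕ) : ℝ≥0∞) * volume {y | ((m + 1 : ℕ) : ℝ≥0∞) ≤ c y} := mul_le_mul_right h1 _
    exact absurd (h5.trans h2) (not_le.mpr h3)
  obtain ⟨y, hy, hyc, hyZ⟩ := hex
  have hyZ1 : y ∉ Z := fun h => hyZ (Or.inl h)
  have hyZ2 : y ∉ Z' := fun h => hyZ (Or.inr h)
  have hy3 : 0 < y 3 := hy.2
  have hy0 : y ≠ 0 := by
    rintro rfl
    exact lt_irrefl _ hy3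
  refine collar_main h hy3.le (fun z hz hcr => ?_) (fun s hs' => ?_)
  · have hzb : z ∈ ball (0 : ℂ) 1 := by
      by_contra hcon
      have hz1 : ‖z‖ = 1 := le_antisymm (mem_closedBall_zero_iff.1 hz)
        (not_lt.1 fun h => hcon (mem_ball_zero_iff.2 h))
      exact hZ2' y hyZ2 hy0 z (mem_sphere_zero_iff_norm.2 hz1) hcr
    exact ⟨hzb, hZ2 y hyZ1 hy0 z hzb hcr⟩
  · have h1 := hc3 y hy.1 s fun z hz => by
      obtain ⟨a1, a2, a3⟩ := hs' z hz
      refine ⟨a1, fun v => ?_, hy3, ?_, ?_⟩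
      · rw [d1_opp, inner_neg_right, a2 v, neg_zero]
      · rw [sff_opp]
        linarith [a3.1]
      · rw [kdet_opp]
        exact a3.2
    have h2 := h1.trans_lt hyc
    have h3 : s.card < m + 1 := by exact_mod_cast h2
    omega

end Pool.Agent.Run7.h836.PC
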